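import Pool.Agent.helper97.GS4.Tri2

/-!
# The number of sets of binary vectors with binary image
-/

set_option autoImplicit false
set_option linter.unusedSectionVars false

namespace GS4

open Finset DS DQ

variable {R J : Type*} [Fintype R] [DecidableEq R] [Fintype J] [DecidableEq J]

/-- The set given by a spanning family and its images. -/
noncomputable def Ts (p : (Fin (Fintype.card R) → R → F) × (Fin (Fintype.card R) → R → F)) :
    Finset (R → F) :=
  tS fun a => ∃ c : Fin (Fintype.card R) → ℝ, (∀ r, re (a r) = ∑ s, c s * re (p.1 s r)) ∧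
    ∀ u : R, Bz (∑ s, c s * re (p.2 s u))

open scoped Classical in
/-- All these sets. -/
noncomputable def SS (R : Type*) [Fintype R] [DecidableEq R] : Finset (Finset (R → F)) :=
  univ.image fun p : (Fin (Fintype.card R) → R → F) × (Fin (Fintype.card R) → R → F) => Ts p

theorem card_SS : (SS R).card ≤ 4 ^ (Fintype.card R ^ 2) := by
  classical
  refine Finset.card_image_le.trans ?_
  rw [Finset.card_univ, Fintype.card_prod, Fintype.card_fun, Fintype.card_fin, card_fun,
    ← pow_mul, ← sq, ← pow_mul]
  have : (4 : ℕ) = 2 ^ 2 := by norm_num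
  rw [this, ← pow_mul]
  refine le_of_eq ?_
  congr 1
  ring

theorem zero_mem (N : R → J → ℝ) : (0 : R → F) ∈ SN N := by
  rw [mem_SN]
  intro j
  left
  rw [val]
  refine Finset.sum_eq_zero fun r _ => ?_
  rw [Pi.zero_apply, re_zero, mul_zero]

theorem mem_SS (N : R → J → ℝ) (g : R → J) (hg : ∀ j, (∀ r, N r j = 0) ∨ ∃ u, g u = j) :
    SN N ∈ SS R := by
  classical
  let s : Set (R → ℝ) := {x | ∃ a ∈ SN N, x = fun r => re (a r)}
  obtain ⟨d, f, hdk, hf, hspan⟩ : ∃ (d : ℕ) (f : Fin d → R → ℝ), d ≤ Fintype.card R ∧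
      (∀ i, f i ∈ s) ∧ Submodule.span ℝ (Set.range f) = Submodule.span ℝ s := by
    obtain ⟨f, hf, hspan, -⟩ := Submodule.exists_fun_fin_finrank_span_eq ℝ s
    refine ⟨_, f, ?_, hf, hspan⟩
    refine (Submodule.finrank_le _).trans ?_
    rw [Module.finrank_fintype_fun_eq_card]
  choose a ha hfa using hf
  let v : Fin (Fintype.card R) → R → F := fun i => if h : (i : ℕ) < d then a ⟨i, h⟩ else 0
  have hv : ∀ i, v i ∈ SN N := by
    intro i
    by_cases h : (i : ℕ) < d
    · have : v i = a ⟨i, h⟩ := dif_pos h
      rw [this]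
      exact ha _
    · have : v i = 0 := dif_neg h
      rw [this]
      exact zero_mem N
  let w : Fin (Fintype.card R) → R → F := fun i u => if val N (v i) (g u) = 1 then 1 else 0
  have hw : ∀ i u, re (w i u) = val N (v i) (g u) := by
    intro i u
    rcases (mem_SN N _).1 (hv i) (g u) with h | h
    · have : w i u = 0 := if_neg (by rw [h]; exact zero_ne_one)
      rw [this, re_zero, h]
    · have : w i u = 1 := if_pos h
      rw [this, re_one, h]
  have hval : ∀ (b : R → F) (c : Fin (Fintype.card R) → ℝ), (∀ r, re (b r) = ∑ s, c s * re (v s r)) →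
      ∀ j, val N b j = ∑ s, c s * val N (v s) j := by
    intro b c hc j
    rw [val]
    simp only [val, Finset.mul_sum]
    rw [Finset.sum_comm]
    refine Finset.sum_congr rfl fun r _ => ?_
    rw [hc r, Finset.mul_sum]
    exact Finset.sum_congr rfl fun s _ => by ring
  rw [SS, mem_image]
  refine ⟨(v, w), mem_univ _, ?_⟩
  ext b
  rw [Ts, mem_tS, mem_SN]
  constructor
  · rintro ⟨c, hc, hB⟩ j
    rw [hval b c hc j]
    rcases hg j with h0 | ⟨u, rfl⟩
    · left
      refine Finset.sum_eq_zero fun s _ => ?_
      rw [val, Finset.sum_eq_zero fun r _ => by rw [h0 r, zero_mul], mul_zero]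
    · have := hB u
      simp only [hw] at this
      exact this
  · intro hb
    have hmem : (fun r => re (b r)) ∈ Submodule.span ℝ (Set.range f) := by
      rw [hspan]
      exact Submodule.subset_span ⟨b, (mem_SN N b).2 hb, rfl⟩
    rw [Submodule.mem_span_range_iff_exists_fun] at hmem
    obtain ⟨c', hc'⟩ := hmem
    have hc : ∀ r, re (b r) = ∑ s : Fin (Fintype.card R),
        (if h : (s : ℕ) < d then c' ⟨s, h⟩ else 0) * re (v s r) := by
      intro r
      have h1 : (∑ i, c' i • f i) r = re (b r) := congrFun hc' r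
      rw [← h1, Finset.sum_apply]
      have h2 : ∀ i : Fin d, (c' i • f i) r =
          (if h : ((Fin.castLE hdk i : Fin (Fintype.card R)) : ℕ) < d then c' ⟨(Fin.castLE hdk i : Fin (Fintype.card R)), h⟩ else 0) *
            re (v (Fin.castLE hdk i) r) := by
        intro i
        have e1 : v (Fin.castLE hdk i) = a i := dif_pos i.2
        have e2 : (if h : ((Fin.castLE hdk i : Fin (Fintype.card R)) : ℕ) < d then
            c' ⟨(Fin.castLE hdk i : Fin (Fintype.card R)), h⟩ else 0) = c' i := dif_pos i.2
        rw [e1, e2, Pi.smul_apply, smul_eq_mul, hfa i]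
      rw [Finset.sum_congr rfl fun i _ => h2 i]
      rw [← Finset.sum_image (s := univ) (g := Fin.castLE hdk)
        (f := fun s : Fin (Fintype.card R) => (if h : (s : ℕ) < d then c' ⟨s, h⟩ else 0) * re (v s r))
        fun p _ q _ e => Fin.castLE_injective hdk e]
      refine Finset.sum_subset (subset_univ _) fun s _ hs => ?_
      have : ¬ (s : ℕ) < d := fun hlt => hs (by
        rw [mem_image]
        exact ⟨⟨s, hlt⟩, mem_univ _, rfl⟩)
      rw [dif_neg this, zero_mul]
    refine ⟨_, hc, fun u => ?_⟩
    simp only [hw]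
    rw [← hval b _ hc]
    exact hb (g u)

end GS4
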