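import Pool.Agent.helper62.DQ.Fin

/-!
# Finite facts about small cubes, and averaging over translations
-/

set_option autoImplicit false
set_option linter.unusedSectionVars false

namespace GS4

open Finset DS DQ

theorem cube3 : ∀ a b c d e f g h : Bool,
    4 ≤ a.toNat + b.toNat + c.toNat + d.toNat + e.toNat + f.toNat + g.toNat + h.toNat →
    (!(a && b) && !(c && d) && !(e && f) && !(g && h) &&
    !(a && c) && !(b && d) && !(e && g) && !(f && h) &&
    !(a && e) && !(b && f) && !(c && g) && !(d && h)) = true →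
    (a && d && f && g || b && c && e && h) = true := by
  decide

theorem sgn4 : ∀ e : Fin 4 → Bool,
    8 ≤ (univ.filter fun v : Fin 4 → Bool =>
      (∑ p, if v p then (if e p then (1 : ℤ) else -1) else 0) = 0 ∨
      (∑ p, if v p then (if e p then (1 : ℤ) else -1) else 0) = 2).card →
    ∃ p, ∀ p', e p' = false ↔ p' = p := by
  decide

variable {R : Type*} [Fintype R] [DecidableEq R]

/-- Averaging over a family of translations. -/
theorem tav {U : Type*} [Fintype U] (S : Finset (R → F)) (φ : U → R → F) (B : ℕ)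
    (hB : ∀ w : R → F, (tS fun u => w + φ u ∈ S).card ≤ B) :
    S.card * Fintype.card U ≤ B * 2 ^ Fintype.card R := by
  classical
  have h1 : ∀ u : U, (univ.filter fun w : R → F => w + φ u ∈ S).card = S.card := by
    intro u
    refine Finset.card_bij (fun w _ => w + φ u) ?_ ?_ ?_
    · intro w hw
      exact (mem_filter.1 hw).2
    · intro w _ w' _ he
      exact add_right_cancel he
    · intro a ha
      refine ⟨a - φ u, ?_, sub_add_cancel a (φ u)⟩
      rw [mem_filter, sub_add_cancel]
      exact ⟨mem_univ _, ha⟩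
  have h2 : S.card * Fintype.card U =
      ∑ u : U, ∑ w : R → F, if w + φ u ∈ S then 1 else 0 := by
    have e1 : ∀ u : U, (∑ w : R → F, if w + φ u ∈ S then 1 else 0) = S.card := by
      intro u
      rw [← h1 u, Finset.card_filter]
    rw [Finset.sum_congr rfl fun u _ => e1 u, Finset.sum_const, Finset.card_univ, smul_eq_mul,
      mul_comm]
  rw [h2, Finset.sum_comm]
  calc _ ≤ ∑ w : R → F, B := by
        refine Finset.sum_le_sum fun w _ => ?_
        refine le_trans (le_of_eq ?_) (hB w)
        rw [tS, Finset.card_filter]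
        exact Finset.sum_congr rfl fun _ _ => by congr
    _ = B * 2 ^ Fintype.card R := by
        rw [Finset.sum_const, Finset.card_univ, card_fun, smul_eq_mul, mul_comm]

/-- The translation by one basis vector, or nothing. -/
def bs (r : R) (x : Bool) : R → F := if x then Pi.single r 1 else 0

theorem bs_false (r : R) : bs r false = 0 := rfl

theorem bs_true (r : R) : bs r true = Pi.single r 1 := rfl

theorem bs_add (r : R) : bs r true + bs r true = 0 := by
  rw [bs_true, ← Pi.single_add, F_add_self, Pi.single_zero]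

/-- The three-dimensional cube. -/
theorem cube_three (S : Finset (R → F)) (hS : 7 * 2 ^ Fintype.card R < S.card * 16) (a b c : R)
    (ha : ∀ w ∈ S, w + bs a true ∉ S) (hb : ∀ w ∈ S, w + bs b true ∉ S)
    (hc : ∀ w ∈ S, w + bs c true ∉ S) :
    ∃ w : R → F, w ∈ S ∧ w + bs a true + bs b true ∈ S ∧ w + bs a true + bs c true ∈ S ∧
      w + bs b true + bs c true ∈ S := by
  classical
  by_contra hne
  have h := tav S (fun u : Bool × Bool × Bool => bs a u.1 + bs b u.2.1 + bs c u.2.2) 3 ?_
  · have : Fintype.card (Bool × Bool × Bool) = 8 := by decide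
    rw [this] at h
    omega
  intro w
  by_contra hlt
  push Not at hlt
  have hcount : (tS fun u : Bool × Bool × Bool =>
      w + (bs a u.1 + bs b u.2.1 + bs c u.2.2) ∈ S).card =
      (decide (w ∈ S)).toNat + (decide (w + bs a true ∈ S)).toNat +
      (decide (w + bs b true ∈ S)).toNat + (decide (w + bs a true + bs b true ∈ S)).toNat +
      (decide (w + bs c true ∈ S)).toNat + (decide (w + bs a true + bs c true ∈ S)).toNat +
      (decide (w + bs b true + bs c true ∈ S)).toNat +
      (decide (w + bs a true + bs b true + bs c true ∈ S)).toNat := by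
    rw [tS, Finset.card_filter, Fintype.sum_prod_type, Fintype.sum_bool, Fintype.sum_prod_type,
      Fintype.sum_prod_type, Fintype.sum_bool, Fintype.sum_bool, Fintype.sum_bool,
      Fintype.sum_bool, Fintype.sum_bool, Fintype.sum_bool]
    simp only [bs_false, add_zero, zero_add, ← add_assoc, Bool.toNat, Bool.cond_decide]
    ring
  rw [hcount] at hlt
  have key := cube3 _ _ _ _ _ _ _ _ hlt ?_
  · simp only [Bool.or_eq_true, Bool.and_eq_true, decide_eq_true_eq] at key
    rcases key with ⟨⟨⟨k1, k2⟩, k3⟩, k4⟩ | ⟨⟨⟨k1, k2⟩, k3⟩, k4⟩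
    · exact hne ⟨w, k1, k2, k3, k4⟩
    · refine hne ⟨w + bs a true, k1, ?_, ?_, ?_⟩
      · have : w + bs a true + bs a true + bs b true = w + bs b true := by
          rw [add_assoc w, bs_add, add_zero]
        rwa [this]
      · have : w + bs a true + bs a true + bs c true = w + bs c true := by
          rw [add_assoc w, bs_add, add_zero]
        rwa [this]
      · exact k4
  · simp only [Bool.and_eq_true, Bool.not_eq_true', Bool.and_eq_false_iff, decide_eq_false_iff_not]
    have no : ∀ (x y z : R → F), (x ∈ S → z ∉ S) → z = y → (x ∉ S ∨ y ∉ S) := by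
      intro x y z h hz
      by_cases hx : x ∈ S
      · exact Or.inr (hz ▸ h hx)
      · exact Or.inl hx
    refine ⟨⟨⟨⟨⟨⟨⟨⟨⟨⟨⟨?_, ?_⟩, ?_⟩, ?_⟩, ?_⟩, ?_⟩, ?_⟩, ?_⟩, ?_⟩, ?_⟩, ?_⟩, ?_⟩
    · exact no _ _ _ (ha _) rfl
    · exact no _ _ _ (ha _) (by abel)
    · exact no _ _ _ (ha _) (by abel)
    · exact no _ _ _ (ha _) (by abel)
    · exact no _ _ _ (hb _) rfl
    · exact no _ _ _ (hb _) rfl
    · exact no _ _ _ (hb _) (by abel)
    · exact no _ _ _ (hb _) (by abel)
    · exact no _ _ _ (hc _) rfl
    · exact no _ _ _ (hc _) rfl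
    · exact no _ _ _ (hc _) rfl
    · exact no _ _ _ (hc _) rfl

/-- The two-dimensional cube. -/
theorem cube_two (S : Finset (R → F)) (hS : 7 * 2 ^ Fintype.card R < S.card * 16) (a b : R)
    (ha : ∀ w ∈ S, w + bs a true ∉ S) (hb : ∀ w ∈ S, w + bs b true ∉ S) :
    ∃ w : R → F, w ∈ S ∧ w + bs a true + bs b true ∈ S := by
  classical
  by_contra hne
  have h := tav S (fun u : Bool × Bool => bs a u.1 + bs b u.2) 1 ?_
  · have : Fintype.card (Bool × Bool) = 4 := by decide
    rw [this] at h
    have hp : 0 < 2 ^ Fintype.card R := by positivity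
    omega
  intro w
  have hcount : (tS fun u : Bool × Bool => w + (bs a u.1 + bs b u.2) ∈ S).card =
      (decide (w ∈ S)).toNat + (decide (w + bs a true ∈ S)).toNat +
      (decide (w + bs b true ∈ S)).toNat + (decide (w + bs a true + bs b true ∈ S)).toNat := by
    rw [tS, Finset.card_filter, Fintype.sum_prod_type, Fintype.sum_bool,
      Fintype.sum_bool, Fintype.sum_bool]
    simp only [bs_false, add_zero, zero_add, ← add_assoc, Bool.toNat, Bool.cond_decide]
    ring
  rw [hcount]
  have no : ∀ (x y z : R → F), (x ∈ S → z ∉ S) → z = y → ¬ (x ∈ S ∧ y ∈ S) := by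
    intro x y z h hz ⟨h1, h2⟩
    exact h h1 (hz ▸ h2)
  have k1 := no _ _ _ (ha w) rfl
  have k2 := no (w + bs b true) (w + bs a true + bs b true) _ (ha _) (by abel)
  have k3 := no _ _ _ (hb w) rfl
  have k4 := no _ _ _ (hb (w + bs a true)) rfl
  have k5 : ¬ (w ∈ S ∧ w + bs a true + bs b true ∈ S) := fun h => hne ⟨w, h⟩
  have k6 : ¬ (w + bs a true ∈ S ∧ w + bs b true ∈ S) := by
    intro h
    refine hne ⟨w + bs a true, h.1, ?_⟩
    have : w + bs a true + bs a true + bs b true = w + bs b true := by
      rw [add_assoc w, bs_add, add_zero]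
    rw [this]
    exact h.2
  by_cases h1 : w ∈ S <;> by_cases h2 : w + bs a true ∈ S <;>
    by_cases h3 : w + bs b true ∈ S <;> by_cases h4 : w + bs a true + bs b true ∈ S <;>
    simp_all

end GS4
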