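import Pool.Agent.helper97.GS4.Cnt

/-!
# The two events
-/

set_option autoImplicit false
set_option linter.unusedSectionVars false

namespace GS4

open Finset DS DQ

variable {V : Type*} [Fintype V] [DecidableEq V]

/-- Outside of `K` all neighbourhoods on `K` belong to `Z`. -/
def EvS (K : Finset V) (Z : Finset ({u // u ∈ K} → F)) (A : Matrix V V F) : Prop :=
  ∀ x, x ∉ K → (fun u : {u // u ∈ K} => A u x) ∈ Z

/-- The change of the edges between `K` and its complement. -/
def cr (K : Finset V) (g : {x // x ∉ K} → {u // u ∈ K} → F) : Matrix V V F :=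
  bip K (univ \ K) fun u x => if h : u ∈ K ∧ x ∉ K then g ⟨x, h.2⟩ ⟨u, h.1⟩ else 0

theorem cr_alt (K : Finset V) (g : {x // x ∉ K} → {u // u ∈ K} → F) : IsAlt (cr K g) :=
  bip_alt disjoint_sdiff _

theorem cr_apply (K : Finset V) (g : {x // x ∉ K} → {u // u ∈ K} → F) (x : {x // x ∉ K})
    (u : {u // u ∈ K}) : cr K g u x = g x u := by
  rw [cr, bip_of_mem _ u.2 (mem_sdiff.2 ⟨mem_univ _, x.2⟩), dif_pos ⟨u.2, x.2⟩]

theorem EvS_bound (K : Finset V) (Z : Finset ({u // u ∈ K} → F)) :
    cn (EvS K Z) * (2 ^ K.card) ^ (Fintype.card V - K.card) ≤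
      Z.card ^ (Fintype.card V - K.card) * (altSet V).card := by
  classical
  have hc : Fintype.card {x // x ∉ K} = Fintype.card V - K.card := by
    rw [Fintype.card_subtype_compl, Fintype.card_coe]
  have hU : Fintype.card ({x // x ∉ K} → {u // u ∈ K} → F) =
      (2 ^ K.card) ^ (Fintype.card V - K.card) := by
    rw [Fintype.card_fun, card_fun, Fintype.card_coe, hc]
  rw [← hU]
  refine avg (cr K) (cr_alt K) (EvS K Z) _ fun A _ => ?_
  refine le_trans (ct_inj _ (Fintype.piFinset fun _ : {x // x ∉ K} => Z)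
    (fun g (x : {x // x ∉ K}) (u : {u // u ∈ K}) => A u x + g x u) ?_ ?_) ?_
  · intro g g' _ _ he
    funext x u
    exact add_left_cancel (congrFun (congrFun he x) u)
  · intro g hg
    rw [Fintype.mem_piFinset]
    intro x
    have h1 := hg x x.2
    have h2 : (fun u : {u // u ∈ K} => (A + cr K g) u x) = fun u : {u // u ∈ K} => A u x + g x u := by
      funext u
      rw [Matrix.add_apply, cr_apply]
    rwa [h2] at h1
  · rw [Fintype.card_piFinset, Finset.prod_const, Finset.card_univ, hc]

/-- The Godsil-McKay condition for the set `I`. -/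
def EvI (I : Finset V) (A : Matrix V V F) : Prop :=
  (∀ x, x ∉ I → ∑ u ∈ I, A u x = 0) ∧
    ∀ a ∈ I, ∀ b ∈ I, ∑ u ∈ I, re (A u a) = ∑ u ∈ I, re (A u b)

/-- The star at `a`. -/
def st (a : V) (g : {y // y ∉ ({a} : Finset V)} → F) : Matrix V V F :=
  cr {a} fun y _ => g y

theorem st_apply (a : V) (g : {y // y ∉ ({a} : Finset V)} → F) (y : {y // y ∉ ({a} : Finset V)}) :
    st a g a y = g y :=
  cr_apply {a} (fun y _ => g y) y ⟨a, mem_singleton_self a⟩

theorem st_other (a : V) (g : {y // y ∉ ({a} : Finset V)} → F) {u v : V} (hu : u ≠ a)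
    (hv : v ≠ a) : st a g u v = 0 := by
  rw [st, cr, bip, Matrix.of_apply, if_neg, if_neg]
  · rintro ⟨h, -⟩
    exact hv (mem_singleton.1 h)
  · rintro ⟨h, -⟩
    exact hu (mem_singleton.1 h)

theorem re_inj {x y : F} (h : re x = re y) : x = y := by
  rcases F_cases x with rfl | rfl <;> rcases F_cases y with rfl | rfl
  · rfl
  · rw [re_zero, re_one] at h; exact absurd h zero_ne_one
  · rw [re_zero, re_one] at h; exact absurd h one_ne_zero
  · rfl

/-- Opposite edges agree in a regular graph with four vertices. -/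
theorem opp {I : Finset V} {A : Matrix V V F} (hA : IsAlt A) (h : EvI I A) {a b c d : V}
    (hI : I = {a, b, c, d}) (hab : a ≠ b) (hac : a ≠ c) (had : a ≠ d) (hbc : b ≠ c) (hbd : b ≠ d)
    (hcd : c ≠ d) : A a b = A c d := by
  have hs : ∀ x, ∑ u ∈ I, re (A u x) = re (A a x) + re (A b x) + re (A c x) + re (A d x) := by
    intro x
    rw [hI, Finset.sum_insert, Finset.sum_insert, Finset.sum_insert, Finset.sum_singleton]
    · ring
    · simpa using hcd
    · simp [hbc, hbd]
    · simp [hab, hac, had]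
  have hsym : ∀ u v, A u v = A v u := fun u v => by
    conv_lhs => rw [← hA.1]
    rfl
  have ma : a ∈ I := by rw [hI]; simp
  have mb : b ∈ I := by rw [hI]; simp
  have mc : c ∈ I := by rw [hI]; simp
  have md : d ∈ I := by rw [hI]; simp
  have e1 := h.2 a ma b mb
  have e2 := h.2 a ma c mc
  have e3 := h.2 a ma d md
  rw [hs, hs, hA.2, re_zero] at e1 e2 e3
  rw [hA.2, re_zero] at e1 e2 e3
  rw [hsym b a, hsym c a, hsym d a] at e1 e2 e3
  rw [hsym c b, hsym d b] at e1
  rw [hsym d c] at e2
  refine re_inj ?_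
  linarith

theorem EvI_bound (I : Finset V) (hI : I.card = 4) :
    cn (EvI I) * 2 ^ (Fintype.card V - 1) ≤ (altSet V).card := by
  classical
  obtain ⟨a, ha⟩ : I.Nonempty := card_pos.1 (by omega)
  have hc : Fintype.card {x // x ∉ ({a} : Finset V)} = Fintype.card V - 1 := by
    rw [Fintype.card_subtype_compl, Fintype.card_coe, card_singleton]
  have hU : Fintype.card ({x // x ∉ ({a} : Finset V)} → F) = 2 ^ (Fintype.card V - 1) := by
    rw [card_fun, hc]
  rw [← hU, ← one_mul (altSet V).card]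
  refine avg (st a) (fun g => cr_alt {a} _) (EvI I) 1 fun A hA => ?_
  refine le_trans (ct_inj (T := Unit) _ {()} (fun _ => ()) ?_ fun _ _ => mem_singleton_self _) (by simp)
  intro g g' hg hg' _
  funext y
  have hya : (y : V) ≠ a := fun h => y.2 (mem_singleton.2 h)
  have halt : ∀ g, IsAlt (A + st a g) := fun g => hA.add (cr_alt {a} _)
  by_cases hy : (y : V) ∈ I
  · have hI2 : ((I.erase a).erase y).card = 2 := by
      rw [card_erase_of_mem (mem_erase.2 ⟨hya, hy⟩), card_erase_of_mem ha, hI]
    obtain ⟨c, d, hcd, hcd'⟩ := card_eq_two.1 hI2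
    have hc' : c ∈ (I.erase a).erase y := by rw [hcd']; simp
    have hd' : d ∈ (I.erase a).erase y := by rw [hcd']; simp
    rw [mem_erase, mem_erase] at hc' hd'
    have hIe : I = {a, (y : V), c, d} := by
      rw [← insert_erase ha, ← insert_erase (mem_erase.2 ⟨hya, hy⟩ : (y : V) ∈ I.erase a), hcd']
    have e1 := opp (halt g) hg hIe hya.symm hc'.2.1.symm hd'.2.1.symm hc'.1.symm hd'.1.symm hcd
    have e2 := opp (halt g') hg' hIe hya.symm hc'.2.1.symm hd'.2.1.symm hc'.1.symm hd'.1.symm hcd
    rw [Matrix.add_apply, Matrix.add_apply, st_apply, st_other a g hc'.2.1 hd'.2.1, add_zero] at e1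
    rw [Matrix.add_apply, Matrix.add_apply, st_apply, st_other a g' hc'.2.1 hd'.2.1, add_zero] at e2
    exact add_left_cancel (e1.trans e2.symm)
  · have hs : ∀ g, ∑ u ∈ I, (A + st a g) u y = ∑ u ∈ I, A u y + g y := by
      intro g
      simp only [Matrix.add_apply, Finset.sum_add_distrib]
      rw [Finset.sum_eq_single_of_mem a ha fun u _ hu => st_other a g hu hya, st_apply]
    have e1 := hg.1 y hy
    have e2 := hg'.1 y hy
    rw [hs] at e1 e2
    exact add_left_cancel (e1.trans e2.symm)

end GS4
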