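import Pool.Agent.helper97.GS4.LB4

/-!
# The exact rate
-/

set_option autoImplicit false
set_option linter.unusedSectionVars false

namespace GS4

open Matrix Finset DS DQ Filter Topology Asymptotics

/-- The normalised binomial coefficient. -/
noncomputable def qn (n : ℕ) : ℝ := 24 * (n.choose 4 : ℝ) / (n : ℝ) ^ 4

theorem qn_tendsto : Tendsto qn atTop (𝓝 1) := by
  have h1 := isEquivalent_choose 4
  have h2 : ∀ᶠ n : ℕ in atTop, ((n : ℝ) ^ 4 / (Nat.factorial 4 : ℝ)) ≠ 0 := by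
    filter_upwards [eventually_ge_atTop 1] with n hn
    have : (0 : ℝ) < n := by exact_mod_cast hn
    positivity
  have h3 := (isEquivalent_iff_tendsto_one h2).1 h1
  refine h3.congr fun n => ?_
  show (n.choose 4 : ℝ) / ((n : ℝ) ^ 4 / (Nat.factorial 4 : ℝ)) = qn n
  have : (Nat.factorial 4 : ℝ) = 24 := by norm_num [Nat.factorial]
  rw [this, qn, div_div_eq_mul_div]
  ring

/-- The constant. -/
noncomputable def cc : ℝ := -(Real.log 4 / 16 + Real.log (7 / 8))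

theorem cc_pos : 0 < cc := by
  have h1 : Real.log 4 + 16 * Real.log (7 / 8) < 0 := by
    have h2 : Real.log 4 + 16 * Real.log (7 / 8) = Real.log (4 * (7 / 8) ^ 16) := by
      rw [Real.log_mul (by norm_num) (by norm_num), Real.log_pow]
      push_cast
      ring
    rw [h2]
    exact Real.log_neg (by norm_num) (by norm_num)
  rw [cc]
  linarith

/-- The exponent. -/
noncomputable def hx (a c x : ℝ) : ℝ :=
  Real.sqrt x * (a + Real.log x) / 4 - c * x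

theorem hx_tendsto (a : ℝ) {c : ℝ} (hc : 0 < c) : Tendsto (hx a c) atTop atBot := by
  have h1 : Tendsto (fun x : ℝ => (a + Real.log x) / x ^ (1 / 2 : ℝ)) atTop (𝓝 0) := by
    have e1 : Tendsto (fun x : ℝ => a / x ^ (1 / 2 : ℝ)) atTop (𝓝 0) :=
      tendsto_const_nhds.div_atTop (tendsto_rpow_atTop (by norm_num))
    have e2 : Tendsto (fun x : ℝ => Real.log x / x ^ (1 / 2 : ℝ)) atTop (𝓝 0) :=
      (isLittleO_log_rpow_atTop (by norm_num)).tendsto_div_nhds_zero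
    have := e1.add e2
    rw [add_zero] at this
    exact this.congr fun x => by rw [add_div]
  have h2 : Tendsto (fun x : ℝ => (a + Real.log x) / x ^ (1 / 2 : ℝ) / 4 - c)
      atTop (𝓝 (-c)) := by
    have := (h1.div_const 4).sub_const c
    rw [zero_div, zero_sub] at this
    exact this
  have h3 := tendsto_id.atTop_mul_neg (neg_neg_of_pos hc) h2
  refine h3.congr' ?_
  filter_upwards [eventually_gt_atTop 0] with x hx0
  rw [id, hx, ← Real.sqrt_eq_rpow]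
  have hs : Real.sqrt x * Real.sqrt x = x := Real.mul_self_sqrt hx0.le
  have hs0 : 0 < Real.sqrt x := Real.sqrt_pos.2 hx0
  have e : x * ((a + Real.log x) / Real.sqrt x) = Real.sqrt x * (a + Real.log x) := by
    rw [mul_div_assoc', div_eq_iff hs0.ne']
    calc x * (a + Real.log x) =
        (Real.sqrt x * Real.sqrt x) * (a + Real.log x) := by rw [hs]
      _ = _ := by ring
  calc x * ((a + Real.log x) / Real.sqrt x / 4 - c) =
      x * ((a + Real.log x) / Real.sqrt x) / 4 - c * x := by ring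
    _ = _ := by rw [e]

theorem hx_exp (M a : ℝ) {c : ℝ} (hc : 0 < c) :
    Tendsto (fun n : ℕ => M * Real.exp (hx a c n)) atTop (𝓝 0) := by
  have := (Real.tendsto_exp_atBot.comp
    ((hx_tendsto a hc).comp tendsto_natCast_atTop_atTop)).const_mul M
  rw [mul_zero] at this
  exact this

/-- The second constant. -/
noncomputable def c2 : ℝ := Real.log 2 - Real.log 16 / 16

theorem c2_pos : 0 < c2 := by
  have h1 : Real.log 16 = 4 * Real.log 2 := by
    rw [show (16 : ℝ) = 2 ^ 4 by norm_num, Real.log_pow]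
    norm_num
  have h2 : 0 < Real.log 2 := Real.log_pos (by norm_num)
  rw [c2, h1]
  linarith

theorem sqrt_bd {k n : ℕ} (hk : 16 * k ^ 2 ≤ n) : (k : ℝ) ≤ Real.sqrt n / 4 := by
  have hk2 : 16 * (k : ℝ) ^ 2 ≤ n := by exact_mod_cast hk
  rw [le_div_iff₀ (by norm_num)]
  refine Real.le_sqrt_of_sq_le ?_
  nlinarith

/-- The error term of the upper bound. -/
noncomputable def er (k n : ℕ) : ℝ :=
  (n.choose k : ℝ) * 4 ^ (k ^ 2) * (7 / 16) ^ (n - k) * (12 * 2 ^ n / (n : ℝ) ^ 4)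

theorem er_le {k n : ℕ} (hn : 1 ≤ n) (hk : 16 * k ^ 2 ≤ n) : er k n ≤ 12 * Real.exp (hx (Real.log (16 / 7)) cc n) := by
  have hn' : (1 : ℝ) ≤ n := by exact_mod_cast hn
  have hn0 : (0 : ℝ) < n := by linarith
  have hkn : k ≤ n := by nlinarith
  have hk2 : 16 * (k : ℝ) ^ 2 ≤ n := by exact_mod_cast hk
  have hks : (k : ℝ) ≤ Real.sqrt n / 4 := by
    rw [le_div_iff₀ (by norm_num)]
    refine Real.le_sqrt_of_sq_le ?_
    nlinarith
  have h1 : (n.choose k : ℝ) ≤ (n : ℝ) ^ k := by exact_mod_cast Nat.choose_le_pow n k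
  have h2 : (7 / 16 : ℝ) ^ (n - k) * 2 ^ n = (7 / 8) ^ n * (16 / 7) ^ k := by
    have e1 : (7 / 16 : ℝ) ^ n = (7 / 16) ^ (n - k) * (7 / 16) ^ k := by
      rw [← pow_add, Nat.sub_add_cancel hkn]
    have e2 : (7 / 8 : ℝ) ^ n = (7 / 16) ^ n * 2 ^ n := by
      rw [← mul_pow]; norm_num
    have e3 : (7 / 16 : ℝ) ^ k * (16 / 7) ^ k = 1 := by
      rw [← mul_pow]; norm_num
    rw [e2, e1]
    calc _ = (7 / 16 : ℝ) ^ (n - k) * 2 ^ n * 1 := by ring
      _ = (7 / 16 : ℝ) ^ (n - k) * 2 ^ n * ((7 / 16 : ℝ) ^ k * (16 / 7) ^ k) := by rw [e3]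
      _ = _ := by ring
  have h3 : er k n ≤ 12 * ((n : ℝ) ^ k * 4 ^ (k ^ 2) * ((7 / 8) ^ n * (16 / 7) ^ k)) := by
    rw [← h2, er]
    have h4 : (1 : ℝ) ≤ (n : ℝ) ^ 4 := one_le_pow₀ hn'
    have h5 : (12 * 2 ^ n / (n : ℝ) ^ 4 : ℝ) ≤ 12 * 2 ^ n := div_le_self (by positivity) h4
    calc (n.choose k : ℝ) * 4 ^ (k ^ 2) * (7 / 16) ^ (n - k) * (12 * 2 ^ n / (n : ℝ) ^ 4) ≤
        (n : ℝ) ^ k * 4 ^ (k ^ 2) * (7 / 16) ^ (n - k) * (12 * 2 ^ n) := by gcongr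
      _ = _ := by ring
  refine h3.trans ?_
  refine mul_le_mul_of_nonneg_left ?_ (by norm_num)
  have e1 : (n : ℝ) ^ k = Real.exp (k * Real.log n) := by
    rw [Real.exp_nat_mul, Real.exp_log hn0]
  have e2 : (4 : ℝ) ^ (k ^ 2) = Real.exp (((k ^ 2 : ℕ) : ℝ) * Real.log 4) := by
    rw [Real.exp_nat_mul, Real.exp_log (by norm_num)]
  have e3 : (7 / 8 : ℝ) ^ n = Real.exp (n * Real.log (7 / 8)) := by
    rw [Real.exp_nat_mul, Real.exp_log (by norm_num)]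
  have e4 : (16 / 7 : ℝ) ^ k = Real.exp (k * Real.log (16 / 7)) := by
    rw [Real.exp_nat_mul, Real.exp_log (by norm_num)]
  rw [e1, e2, e3, e4, ← Real.exp_add, ← Real.exp_add, ← Real.exp_add, Real.exp_le_exp]
  have hlog4 : 0 < Real.log 4 := Real.log_pos (by norm_num)
  have hlogn : 0 ≤ Real.log n := Real.log_nonneg hn'
  have hlogc : 0 < Real.log (16 / 7) := Real.log_pos (by norm_num)
  have h6 : (k : ℝ) * (Real.log (16 / 7) + Real.log n) ≤
      Real.sqrt n / 4 * (Real.log (16 / 7) + Real.log n) :=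
    mul_le_mul_of_nonneg_right hks (by linarith)
  have h7 : ((k ^ 2 : ℕ) : ℝ) * Real.log 4 ≤ n / 16 * Real.log 4 := by
    refine mul_le_mul_of_nonneg_right ?_ hlog4.le
    push_cast
    linarith
  rw [hx, cc]
  linarith

theorem er_nonneg (k n : ℕ) : 0 ≤ er k n := by
  rw [er]; positivity

theorem er_tendsto {k : ℕ → ℕ} (hk : ∀ᶠ n in atTop, 16 * k n ^ 2 ≤ n) :
    Tendsto (fun n => er (k n) n) atTop (𝓝 0) := by
  refine tendsto_of_tendsto_of_tendsto_of_le_of_le' tendsto_const_nhds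
    (hx_exp 12 (Real.log (16 / 7)) cc_pos) ?_ ?_
  · exact Eventually.of_forall fun n => er_nonneg _ _
  · filter_upwards [hk, eventually_ge_atTop 1] with n h1 h2
    exact er_le h2 h1

/-- The second error term of the upper bound. -/
noncomputable def er2 (k n : ℕ) : ℝ :=
  (n.choose k : ℝ) * 16 ^ (k ^ 2) * ((4 * ((n - k : ℕ) : ℝ) + 16) / 4 ^ (n - k)) *
    (12 * 2 ^ n / (n : ℝ) ^ 4)

theorem er2_nonneg (k n : ℕ) : 0 ≤ er2 k n := by
  rw [er2]; positivity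

theorem er2_le {k n : ℕ} (hn : 1 ≤ n) (hk : 16 * k ^ 2 ≤ n) :
    er2 k n ≤ 240 * Real.exp (hx (Real.log 4) c2 n) := by
  have hn' : (1 : ℝ) ≤ n := by exact_mod_cast hn
  have hn0 : (0 : ℝ) < n := by linarith
  have hkn : k ≤ n := by nlinarith
  have hk2 : 16 * (k : ℝ) ^ 2 ≤ n := by exact_mod_cast hk
  have hks := sqrt_bd hk
  have h1 : (n.choose k : ℝ) ≤ (n : ℝ) ^ k := by exact_mod_cast Nat.choose_le_pow n k
  have h2 : (4 * ((n - k : ℕ) : ℝ) + 16) / 4 ^ (n - k) * (12 * 2 ^ n / (n : ℝ) ^ 4) ≤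
      240 * ((1 / 2) ^ n * 4 ^ k) := by
    have e1 : (4 : ℝ) ^ n = 4 ^ (n - k) * 4 ^ k := by
      rw [← pow_add, Nat.sub_add_cancel hkn]
    have e2 : (4 : ℝ) ^ n = 2 ^ n * 2 ^ n := by
      rw [← mul_pow]; norm_num
    have h3 : ((n - k : ℕ) : ℝ) ≤ n := by exact_mod_cast Nat.sub_le n k
    have h4 : (n : ℝ) ≤ (n : ℝ) ^ 4 := by
      calc (n : ℝ) = (n : ℝ) ^ 1 := (pow_one _).symm
        _ ≤ _ := pow_le_pow_right₀ hn' (by norm_num)
    have h5 : 4 * ((n - k : ℕ) : ℝ) + 16 ≤ 20 * (n : ℝ) ^ 4 := by linarith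
    have h6 : (0 : ℝ) < 4 ^ (n - k) := by positivity
    have e3 : (1 / 2 : ℝ) ^ n * 4 ^ k = 2 ^ n / 4 ^ (n - k) := by
      rw [one_div, inv_pow, eq_div_iff h6.ne', mul_assoc, mul_comm ((4 : ℝ) ^ k), ← e1, e2,
        inv_mul_cancel_left₀ (by positivity)]
    rw [e3, div_mul_div_comm, mul_div_assoc', div_le_div_iff₀ (by positivity) h6]
    have h7 : (4 * ((n - k : ℕ) : ℝ) + 16) * (12 * 2 ^ n) * 4 ^ (n - k) ≤
        (20 * (n : ℝ) ^ 4) * (12 * 2 ^ n) * 4 ^ (n - k) := by gcongr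
    refine h7.trans (le_of_eq ?_)
    ring
  have h3 : er2 k n ≤ 240 * ((n : ℝ) ^ k * 16 ^ (k ^ 2) * ((1 / 2) ^ n * 4 ^ k)) := by
    rw [er2, mul_assoc]
    calc (n.choose k : ℝ) * 16 ^ (k ^ 2) *
          ((4 * ((n - k : ℕ) : ℝ) + 16) / 4 ^ (n - k) * (12 * 2 ^ n / (n : ℝ) ^ 4)) ≤
        (n : ℝ) ^ k * 16 ^ (k ^ 2) * (240 * ((1 / 2) ^ n * 4 ^ k)) :=
          mul_le_mul (mul_le_mul_of_nonneg_right h1 (by positivity)) h2 (by positivity)
            (by positivity)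
      _ = _ := by ring
  refine h3.trans ?_
  refine mul_le_mul_of_nonneg_left ?_ (by norm_num)
  have e1 : (n : ℝ) ^ k = Real.exp (k * Real.log n) := by
    rw [Real.exp_nat_mul, Real.exp_log hn0]
  have e2 : (16 : ℝ) ^ (k ^ 2) = Real.exp (((k ^ 2 : ℕ) : ℝ) * Real.log 16) := by
    rw [Real.exp_nat_mul, Real.exp_log (by norm_num)]
  have e3 : (1 / 2 : ℝ) ^ n = Real.exp (n * -Real.log 2) := by
    rw [Real.exp_nat_mul, Real.exp_neg, Real.exp_log (by norm_num), one_div]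
  have e4 : (4 : ℝ) ^ k = Real.exp (k * Real.log 4) := by
    rw [Real.exp_nat_mul, Real.exp_log (by norm_num)]
  rw [e1, e2, e3, e4, ← Real.exp_add, ← Real.exp_add, ← Real.exp_add, Real.exp_le_exp]
  have hlog4 : 0 < Real.log 4 := Real.log_pos (by norm_num)
  have hlogn : 0 ≤ Real.log n := Real.log_nonneg hn'
  have hlogc : 0 < Real.log 16 := Real.log_pos (by norm_num)
  have h6 : (k : ℝ) * (Real.log 4 + Real.log n) ≤
      Real.sqrt n / 4 * (Real.log 4 + Real.log n) :=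
    mul_le_mul_of_nonneg_right hks (by linarith)
  have h7 : ((k ^ 2 : ℕ) : ℝ) * Real.log 16 ≤ n / 16 * Real.log 16 := by
    refine mul_le_mul_of_nonneg_right ?_ hlogc.le
    push_cast
    linarith
  rw [hx, c2]
  linarith

theorem er2_tendsto {k : ℕ → ℕ} (hk : ∀ᶠ n in atTop, 16 * k n ^ 2 ≤ n) :
    Tendsto (fun n => er2 (k n) n) atTop (𝓝 0) := by
  refine tendsto_of_tendsto_of_tendsto_of_le_of_le' tendsto_const_nhds
    (hx_exp 240 (Real.log 4) c2_pos) ?_ ?_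
  · exact Eventually.of_forall fun n => er2_nonneg _ _
  · filter_upwards [hk, eventually_ge_atTop 1] with n h1 h2
    exact er2_le h2 h1

/-- The normalised proportion. -/
noncomputable def pr (k n : ℕ) : ℝ :=
  (Nat.card {G : SimpleGraph (Fin n) // Loc k n G} : ℝ) / Nat.card (SimpleGraph (Fin n)) *
    (12 * 2 ^ n / (n : ℝ) ^ 4)

theorem pr_le {k n : ℕ} (hn : 1 ≤ n) (hk : k ≤ n) : pr k n ≤ qn n + er k n + er2 k n := by
  have h := upper hk hn
  have hn0 : (0 : ℝ) < n := by exact_mod_cast hn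
  have h0 : (0 : ℝ) ≤ 12 * 2 ^ n / (n : ℝ) ^ 4 := by positivity
  refine (mul_le_mul_of_nonneg_right h h0).trans (le_of_eq ?_)
  have hq : qn n = (n.choose 4 : ℝ) * 2 / 2 ^ n * (12 * 2 ^ n / (n : ℝ) ^ 4) := by
    rw [qn]
    field_simp
    ring
  rw [hq, er, er2]
  ring

/-- The lower comparison. -/
noncomputable def lw (J n : ℕ) : ℝ :=
  qn n * (1 - 128 * ((Nat.centralBinom J : ℝ) / 4 ^ J) - 8 * 16 ^ J * (16 / 7) ^ 4 * (7 / 8) ^ n) -
    12 * 4 ^ 8 * ((n : ℝ) ^ 4 * (1 / 2) ^ n)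

theorem le_pr {k n : ℕ} (hn : 8 ≤ n) (hk : 4 ≤ k) (J : ℕ) : lw J n ≤ pr k n := by
  have h := lower (n := n) (by omega) hk J
  have hn0 : (0 : ℝ) < n := by
    have : 0 < n := by omega
    exact_mod_cast this
  have h0 : (0 : ℝ) ≤ 12 * 2 ^ n / (n : ℝ) ^ 4 := by positivity
  refine le_trans ?_ (mul_le_mul_of_nonneg_right h h0)
  have e1 : (1 / 2 : ℝ) ^ (n - 4) = 16 / 2 ^ n := by
    have : (2 : ℝ) ^ n = 2 ^ (n - 4) * 16 := by
      have h16 : (16 : ℝ) = 2 ^ 4 := by norm_num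
      rw [h16, ← pow_add, Nat.sub_add_cancel (by omega)]
    rw [this, one_div, inv_pow]
    field_simp
  have e2 : (7 / 16 : ℝ) ^ (n - 4) = (16 / 7) ^ 4 * ((7 / 8) ^ n / 2 ^ n) := by
    have h1 : (7 / 16 : ℝ) ^ n = (7 / 16) ^ (n - 4) * (7 / 16) ^ 4 := by
      rw [← pow_add, Nat.sub_add_cancel (by omega)]
    have h2 : (7 / 8 : ℝ) ^ n / 2 ^ n = (7 / 16) ^ n := by
      rw [← div_pow]; norm_num
    rw [h2, h1]
    ring
  have e3 : (1 / 4 : ℝ) ^ (n - 8) = 4 ^ 8 * ((1 / 2) ^ n / 2 ^ n) := by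
    have h1 : (1 / 4 : ℝ) ^ n = (1 / 4) ^ (n - 8) * (1 / 4) ^ 8 := by
      rw [← pow_add, Nat.sub_add_cancel hn]
    have h2 : (1 / 2 : ℝ) ^ n / 2 ^ n = (1 / 4) ^ n := by
      rw [← div_pow]; norm_num
    rw [h2, h1]
    ring
  have h2n : (0 : ℝ) < 2 ^ n := by positivity
  have hc : (n.choose 4 : ℝ) ≤ (n : ℝ) ^ 4 := by exact_mod_cast Nat.choose_le_pow n 4
  have hc0 : (0 : ℝ) ≤ n.choose 4 := Nat.cast_nonneg _
  have key : ((n.choose 4 : ℝ) * (2 / 2 ^ n - 16 * ((Nat.centralBinom J : ℝ) / 4 ^ J *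
      (1 / 2) ^ (n - 4) + 16 ^ J * (7 / 16) ^ (n - 4))) -
      (n.choose 4 : ℝ) ^ 2 * (1 / 4) ^ (n - 8)) * (12 * 2 ^ n / (n : ℝ) ^ 4) =
      qn n * (1 - 128 * ((Nat.centralBinom J : ℝ) / 4 ^ J) -
        8 * 16 ^ J * (16 / 7) ^ 4 * (7 / 8) ^ n) -
      12 * 4 ^ 8 * ((n.choose 4 : ℝ) ^ 2 / (n : ℝ) ^ 4 * (1 / 2) ^ n) := by
    rw [e1, e2, e3, qn]
    generalize (Nat.centralBinom J : ℝ) / 4 ^ J = c
    generalize (7 / 8 : ℝ) ^ n = y
    generalize (1 / 2 : ℝ) ^ n = z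
    generalize (16 : ℝ) ^ J = w
    field_simp
    ring
  rw [key, lw]
  have h3 : (n.choose 4 : ℝ) ^ 2 / (n : ℝ) ^ 4 ≤ (n : ℝ) ^ 4 := by
    rw [div_le_iff₀ (by positivity)]
    nlinarith
  have h4 : (n.choose 4 : ℝ) ^ 2 / (n : ℝ) ^ 4 * (1 / 2) ^ n ≤ (n : ℝ) ^ 4 * (1 / 2) ^ n :=
    mul_le_mul_of_nonneg_right h3 (by positivity)
  linarith

theorem lw_tendsto (J : ℕ) :
    Tendsto (lw J) atTop (𝓝 (1 - 128 * ((Nat.centralBinom J : ℝ) / 4 ^ J))) := by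
  have h1 : Tendsto (fun n : ℕ => (7 / 8 : ℝ) ^ n) atTop (𝓝 0) :=
    tendsto_pow_atTop_nhds_zero_of_lt_one (by norm_num) (by norm_num)
  have h2 : Tendsto (fun n : ℕ => (n : ℝ) ^ 4 * (1 / 2 : ℝ) ^ n) atTop (𝓝 0) :=
    tendsto_pow_const_mul_const_pow_of_abs_lt_one 4 (by rw [abs_of_pos] <;> norm_num)
  have h3 := (qn_tendsto.mul ((h1.const_mul (8 * 16 ^ J * (16 / 7) ^ 4)).const_sub
    (1 - 128 * ((Nat.centralBinom J : ℝ) / 4 ^ J)))).sub (h2.const_mul (12 * 4 ^ 8))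
  rw [mul_zero, mul_zero, sub_zero, sub_zero, one_mul] at h3
  exact h3

theorem pr_tendsto {k : ℕ → ℕ} (hk : ∀ᶠ n in atTop, 4 ≤ k n ∧ 16 * k n ^ 2 ≤ n) :
    Tendsto (fun n => pr (k n) n) atTop (𝓝 1) := by
  have hup : Tendsto (fun n => qn n + er (k n) n + er2 (k n) n) atTop (𝓝 1) := by
    have := (qn_tendsto.add (er_tendsto (hk.mono fun n h => h.2))).add
      (er2_tendsto (hk.mono fun n h => h.2))
    rwa [add_zero, add_zero] at this
  rw [tendsto_order]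
  constructor
  · intro a ha
    obtain ⟨J, hJ⟩ := exists_small_prop ((1 - a) / 100) (by linarith)
    have h1 : a < 1 - 128 * ((Nat.centralBinom J : ℝ) / 4 ^ J) := by
      rw [mul_div_assoc] at hJ
      linarith
    have h2 := (lw_tendsto J).eventually (lt_mem_nhds h1)
    filter_upwards [h2, hk, eventually_ge_atTop 8] with n h3 h4 h5
    exact h3.trans_le (le_pr h5 h4.1 J)
  · intro b hb
    have h2 := hup.eventually (gt_mem_nhds hb)
    filter_upwards [h2, hk, eventually_ge_atTop 8] with n h3 h4 h5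
    refine (pr_le (by omega) ?_).trans_lt h3
    nlinarith [h4.2]

end GS4
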