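import Pool.Agent.helper97.GS4.Ev

/-!
# A symmetric walk given by even vectors rarely returns to zero
-/

set_option autoImplicit false
set_option linter.unusedSectionVars false

namespace GS4

open Finset DS DQ

section
variable {R : Type*} [Fintype R] [DecidableEq R]

/-- The step of the walk. -/
noncomputable def xi (a j : R) (v : R → F) : ℝ := re (v a) + re (v j) - (∑ r, re (v r)) / 2

/-- The even vectors. -/
noncomputable def Z0 (R : Type*) [Fintype R] [DecidableEq R] : Finset (R → F) :=
  tS fun v : R → F => ∑ r, v r = 0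

theorem mem_Z0 (v : R → F) : v ∈ Z0 R ↔ ∑ r, v r = 0 := by
  rw [Z0, mem_tS]

theorem card_Z0 (h4 : Fintype.card R = 4) : (Z0 R).card = 8 := by
  classical
  obtain ⟨a⟩ : Nonempty R := Fintype.card_pos_iff.1 (by omega)
  have hs : ∀ v : R → F, ∑ r, (v + (Pi.single a 1 : R → F)) r = ∑ r, v r + 1 := by
    intro v
    simp only [Pi.add_apply, Finset.sum_add_distrib]
    rw [Finset.sum_pi_single' a (1 : F) univ, if_pos (mem_univ _)]
  have h1 : (Z0 R).card = (tS fun v : R → F => ¬ ∑ r, v r = 0).card := by
    refine Finset.card_bij (fun v _ => v + Pi.single a 1) ?_ ?_ ?_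
    · intro v hv
      rw [mem_Z0] at hv
      rw [mem_tS, hs, hv, zero_add]
      exact one_ne_zero
    · intro v _ w _ he
      exact add_right_cancel he
    · intro v hv
      rw [mem_tS] at hv
      have h2 : v + Pi.single a 1 + Pi.single a 1 = v := by
        rw [add_assoc, ← Pi.single_add, F_add_self, Pi.single_zero, add_zero]
      refine ⟨v + Pi.single a 1, ?_, h2⟩
      rw [mem_Z0, hs]
      rcases F_cases (∑ r, v r) with e | e
      · exact absurd e hv
      · rw [e, F_add_self]
  have h2 : (Z0 R).card + (tS fun v : R → F => ¬ ∑ r, v r = 0).card = 16 := by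
    rw [Z0, tS, tS, Finset.card_filter_add_card_filter_not, Finset.card_univ, card_fun, h4]
    norm_num
  omega

theorem re_compl (x : F) : re (x + 1) = 1 - re x := by
  rcases F_cases x with rfl | rfl
  · rw [zero_add, re_zero, re_one]; norm_num
  · rw [F_add_self, re_zero, re_one]; norm_num

theorem xi_compl (h4 : Fintype.card R = 4) (a j : R) (v : R → F) :
    xi a j (v + fun _ => 1) = - xi a j v := by
  rw [xi, xi]
  simp only [Pi.add_apply, re_compl]
  rw [Finset.sum_sub_distrib, Finset.sum_const, card_univ, h4]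
  norm_num
  ring

theorem compl_mem (h4 : Fintype.card R = 4) {v : R → F} (hv : v ∈ Z0 R) :
    (v + fun _ => 1) ∈ Z0 R := by
  rw [mem_Z0] at hv ⊢
  simp only [Pi.add_apply, Finset.sum_add_distrib]
  rw [hv, Finset.sum_const, card_univ, h4]
  decide

/-- There are at least two even vectors with nonzero step. -/
theorem two_steps (h4 : Fintype.card R = 4) (a j : R) :
    2 ≤ ((Z0 R).filter fun v => xi a j v ≠ 0).card := by
  classical
  obtain ⟨b, hab, hb⟩ : ∃ b, b ≠ a ∧ (j = a ∨ b = j) := by
    by_cases h : j = a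
    · have : Nontrivial R := Fintype.one_lt_card_iff_nontrivial.1 (by omega)
      obtain ⟨b, hb⟩ := exists_ne a
      exact ⟨b, hb, Or.inl h⟩
    · exact ⟨j, h, Or.inr rfl⟩
  let v : R → F := fun r => if r = a ∨ r = b then 1 else 0
  have hva : v a = 1 := if_pos (Or.inl rfl)
  have hvb : v b = 1 := if_pos (Or.inr rfl)
  have hvj : v j = 1 := by
    rcases hb with rfl | rfl
    · exact hva
    · exact hvb
  have hsum : ∀ {M : Type} [AddCommMonoid M] (f : F → M), f 0 = 0 → ∑ r, f (v r) = f 1 + f 1 := by
    intro M _ f hf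
    have h1 : ∑ r, f (v r) = ∑ r ∈ {a, b}, f (v r) := by
      symm
      refine Finset.sum_subset (subset_univ _) fun r _ hr => ?_
      rw [mem_insert, mem_singleton] at hr
      have : v r = 0 := if_neg hr
      rw [this, hf]
    rw [h1, Finset.sum_pair hab.symm, hva, hvb]
  have hv : v ∈ Z0 R := by
    rw [mem_Z0]
    have := hsum (fun x : F => x) rfl
    rw [this]
    decide
  have hx : xi a j v = 1 := by
    rw [xi, hva, hvj, hsum re re_zero, re_one]
    norm_num
  have hne : v ≠ v + fun _ => 1 := by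
    intro h
    have := congrFun h a
    rw [Pi.add_apply, hva] at this
    revert this
    decide
  have h1 : ({v, v + fun _ => 1} : Finset (R → F)) ⊆ (Z0 R).filter fun v => xi a j v ≠ 0 := by
    intro w hw
    rw [mem_insert, mem_singleton] at hw
    rw [mem_filter]
    rcases hw with rfl | rfl
    · exact ⟨hv, by rw [hx]; exact one_ne_zero⟩
    · exact ⟨compl_mem h4 hv, by rw [xi_compl h4, hx]; norm_num⟩
  have h2 := Finset.card_le_card h1
  rwa [card_pair hne] at h2

/-- Change of a family by constants. -/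
def chg {W : Type*} (v : W → R → F) (u : W → F) : W → R → F := fun x => v x + fun _ => u x

theorem chg_chg {W : Type*} (v : W → R → F) (u : W → F) : chg (chg v u) u = v := by
  funext x r
  show v x r + u x + u x = v x r
  rw [add_assoc, F_add_self, add_zero]

theorem chg_mem {W : Type*} [Fintype W] [DecidableEq W] (h4 : Fintype.card R = 4) {v : W → R → F}
    (hv : v ∈ Fintype.piFinset fun _ : W => Z0 R) (u : W → F) :
    chg v u ∈ Fintype.piFinset fun _ : W => Z0 R := by
  rw [Fintype.mem_piFinset] at hv ⊢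
  intro x
  show (v x + fun _ => u x) ∈ Z0 R
  rcases F_cases (u x) with e | e
  · rw [e]
    have : (v x + fun _ => (0 : F)) = v x := by
      funext r
      exact add_zero _
    rw [this]
    exact hv x
  · rw [e]
    exact compl_mem h4 (hv x)

theorem xi_chg {W : Type*} (h4 : Fintype.card R = 4) (a j : R) (v : W → R → F) (u : W → F) (x : W) :
    xi a j (chg v u x) = xi a j (v x) - re (u x) * (2 * xi a j (v x)) := by
  show xi a j (v x + fun _ => u x) = _
  rcases F_cases (u x) with e | e
  · rw [e, re_zero]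
    have : (v x + fun _ => (0 : F)) = v x := by
      funext r
      exact add_zero _
    rw [this]
    ring
  · rw [e, re_one, xi_compl h4]
    ring

/-- The families of even vectors with vanishing sum of the steps. -/
noncomputable def Sb (W : Type*) [Fintype W] [DecidableEq W] (a j : R) : Finset (W → R → F) :=
  tS fun v : W → R → F => (∀ x, v x ∈ Z0 R) ∧ ∑ x, xi a j (v x) = 0

theorem few {W : Type*} [Fintype W] [DecidableEq W] (h4 : Fintype.card R = 4) (a j : R) (L : ℕ) :
    (tS fun v : W → R → F => (∀ x, v x ∈ Z0 R) ∧ (tS fun x => xi a j (v x) ≠ 0).card ≤ L).card ≤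
      2 ^ L * 7 ^ Fintype.card W := by
  classical
  let f : (R → F) → ℕ := fun e => if xi a j e ≠ 0 then 1 else 2
  have hf : ∑ e ∈ Z0 R, f e ≤ 14 := by
    have h1 : ∑ e ∈ Z0 R, f e + ((Z0 R).filter fun v => xi a j v ≠ 0).card = ∑ e ∈ Z0 R, 2 := by
      rw [Finset.card_filter, ← Finset.sum_add_distrib]
      refine Finset.sum_congr rfl fun e _ => ?_
      show (if xi a j e ≠ 0 then 1 else 2) + (if xi a j e ≠ 0 then 1 else 0) = 2
      split_ifs <;> rfl
    rw [Finset.sum_const, card_Z0 h4] at h1
    have := two_steps h4 a j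
    simp only [smul_eq_mul] at h1
    omega
  have hprod : ∑ v ∈ Fintype.piFinset (fun _ : W => Z0 R), ∏ x, f (v x) ≤ 14 ^ Fintype.card W := by
    rw [← Finset.prod_univ_sum (fun _ : W => Z0 R) fun _ e => f e, Finset.prod_const, card_univ]
    exact Nat.pow_le_pow_left hf _
  have hlow : ∀ v ∈ (tS fun v : W → R → F => (∀ x, v x ∈ Z0 R) ∧
      (tS fun x => xi a j (v x) ≠ 0).card ≤ L), 2 ^ Fintype.card W ≤ 2 ^ L * ∏ x, f (v x) := by
    intro v hv
    rw [mem_tS] at hv
    have h1 : (∏ x, f (v x)) * 2 ^ (tS fun x => xi a j (v x) ≠ 0).card = 2 ^ Fintype.card W := by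
      have h2 : 2 ^ (tS fun x => xi a j (v x) ≠ 0).card =
          ∏ x, (if xi a j (v x) ≠ 0 then 2 else 1) := by
        rw [Finset.prod_ite, Finset.prod_const_one, mul_one, Finset.prod_const, tS]
        congr 2
        ext x
        simp only [mem_filter]
      rw [h2, ← Finset.prod_mul_distrib, ← Finset.card_univ, ← Finset.prod_const]
      refine Finset.prod_congr rfl fun x _ => ?_
      show (if xi a j (v x) ≠ 0 then 1 else 2) * (if xi a j (v x) ≠ 0 then 2 else 1) = 2
      split_ifs <;> rfl
    rw [← h1, mul_comm]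
    exact Nat.mul_le_mul_right _ (Nat.pow_le_pow_right (by norm_num : 0 < 2) hv.2)
  have h5 : (tS fun v : W → R → F => (∀ x, v x ∈ Z0 R) ∧
      (tS fun x => xi a j (v x) ≠ 0).card ≤ L).card * 2 ^ Fintype.card W ≤
      2 ^ L * 14 ^ Fintype.card W := by
    calc _ = ∑ v ∈ (tS fun v : W → R → F => (∀ x, v x ∈ Z0 R) ∧
          (tS fun x => xi a j (v x) ≠ 0).card ≤ L), 2 ^ Fintype.card W := by
          rw [Finset.sum_const, smul_eq_mul]
      _ ≤ ∑ v ∈ (tS fun v : W → R → F => (∀ x, v x ∈ Z0 R) ∧
          (tS fun x => xi a j (v x) ≠ 0).card ≤ L), 2 ^ L * ∏ x, f (v x) :=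
          Finset.sum_le_sum hlow
      _ ≤ ∑ v ∈ Fintype.piFinset (fun _ : W => Z0 R), 2 ^ L * ∏ x, f (v x) := by
          refine Finset.sum_le_sum_of_subset fun v hv => ?_
          rw [mem_tS] at hv
          rw [Fintype.mem_piFinset]
          exact hv.1
      _ ≤ _ := by
          rw [← Finset.mul_sum]
          exact Nat.mul_le_mul_left _ hprod
  have h6 : (14 : ℕ) ^ Fintype.card W = 7 ^ Fintype.card W * 2 ^ Fintype.card W := by
    rw [← mul_pow]
    norm_num
  rw [h6, ← mul_assoc] at h5
  exact Nat.le_of_mul_le_mul_right h5 (by positivity)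

theorem walk {W : Type*} [Fintype W] [DecidableEq W] (h4 : Fintype.card R = 4) (a j : R) (J : ℕ) :
    (Sb W a j).card * 4 ^ J ≤ Nat.centralBinom J * 8 ^ Fintype.card W +
      4 ^ J * (2 ^ (4 * J) * 7 ^ Fintype.card W) := by
  classical
  have h1 : ∀ u : W → F, ((Fintype.piFinset fun _ : W => Z0 R).filter fun v =>
      ∑ x, xi a j (chg v u x) = 0).card = (Sb W a j).card := by
    intro u
    refine Finset.card_bij (fun v _ => chg v u) ?_ ?_ ?_
    · intro v hv
      rw [mem_filter] at hv
      rw [Sb, mem_tS]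
      exact ⟨Fintype.mem_piFinset.1 (chg_mem h4 hv.1 u), hv.2⟩
    · intro v _ w _ he
      rw [← chg_chg v u, he, chg_chg]
    · intro v hv
      rw [Sb, mem_tS] at hv
      refine ⟨chg v u, ?_, chg_chg v u⟩
      rw [mem_filter, chg_chg]
      exact ⟨chg_mem h4 (Fintype.mem_piFinset.2 hv.1) u, hv.2⟩
  have h2 : (Sb W a j).card * 2 ^ Fintype.card W =
      ∑ v ∈ Fintype.piFinset (fun _ : W => Z0 R),
        ct fun u : W → F => ∑ x, xi a j (chg v u x) = 0 := by
    have e1 : (Sb W a j).card * 2 ^ Fintype.card W = ∑ u : W → F,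
        ((Fintype.piFinset fun _ : W => Z0 R).filter fun v =>
          ∑ x, xi a j (chg v u x) = 0).card := by
      rw [Finset.sum_congr rfl fun u _ => h1 u, Finset.sum_const, card_univ, card_fun,
        smul_eq_mul, mul_comm]
    rw [e1]
    simp only [Finset.card_filter, ct, tS]
    rw [Finset.sum_comm]
  have h3 : ∀ v : W → R → F, 4 * J + 1 ≤ (tS fun x => xi a j (v x) ≠ 0).card →
      (ct fun u : W → F => ∑ x, xi a j (chg v u x) = 0) * 4 ^ J ≤
        Nat.centralBinom J * 2 ^ Fintype.card W := by
    intro v hv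
    have e1 : (tS fun x => 2 * xi a j (v x) ≠ 0) = tS fun x => xi a j (v x) ≠ 0 := by
      ext x
      rw [mem_tS, mem_tS]
      constructor
      · intro h h0
        exact h (by rw [h0, mul_zero])
      · intro h h0
        exact h (by linarith)
    obtain ⟨P, hP, hP'⟩ := exists_same_sign (fun x => 2 * xi a j (v x)) J (by rw [e1]; exact hv)
    have h4' := lo (fun x => 2 * xi a j (v x)) P J hP hP' (∑ x, xi a j (v x))
    have e2 : (fun u : W → F => ∑ x, xi a j (chg v u x) = 0) =
        fun u : W → F => ∑ x, re (u x) * (2 * xi a j (v x)) = ∑ x, xi a j (v x) := by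
      funext u
      simp only [xi_chg h4, Finset.sum_sub_distrib]
      exact propext ⟨fun h => by linarith, fun h => by linarith⟩
    rw [e2]
    exact h4'
  have h5 : ∀ v ∈ Fintype.piFinset (fun _ : W => Z0 R),
      (ct fun u : W → F => ∑ x, xi a j (chg v u x) = 0) * 4 ^ J ≤
        Nat.centralBinom J * 2 ^ Fintype.card W +
        if (tS fun x => xi a j (v x) ≠ 0).card ≤ 4 * J then 4 ^ J * 2 ^ Fintype.card W else 0 := by
    intro v _
    by_cases hv : (tS fun x => xi a j (v x) ≠ 0).card ≤ 4 * J
    · rw [if_pos hv]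
      have : (ct fun u : W → F => ∑ x, xi a j (chg v u x) = 0) ≤ 2 ^ Fintype.card W := by
        refine (Finset.card_le_univ _).trans ?_
        rw [card_fun]
      calc _ ≤ 2 ^ Fintype.card W * 4 ^ J := Nat.mul_le_mul_right _ this
        _ = 4 ^ J * 2 ^ Fintype.card W := mul_comm _ _
        _ ≤ _ := Nat.le_add_left _ _
    · rw [if_neg hv, add_zero]
      exact h3 v (by omega)
  have h6 : (Sb W a j).card * 2 ^ Fintype.card W * 4 ^ J ≤
      8 ^ Fintype.card W * (Nat.centralBinom J * 2 ^ Fintype.card W) +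
      (2 ^ (4 * J) * 7 ^ Fintype.card W) * (4 ^ J * 2 ^ Fintype.card W) := by
    rw [h2, Finset.sum_mul]
    refine (Finset.sum_le_sum h5).trans ?_
    rw [Finset.sum_add_distrib]
    refine Nat.add_le_add ?_ ?_
    · rw [Finset.sum_const, Fintype.card_piFinset, Finset.prod_const, card_univ, card_Z0 h4,
        smul_eq_mul]
    · rw [← Finset.sum_filter, Finset.sum_const, smul_eq_mul]
      refine Nat.mul_le_mul_right _ ?_
      refine le_trans (Finset.card_le_card ?_) (few h4 a j (4 * J))
      intro v hv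
      rw [mem_filter, Fintype.mem_piFinset] at hv
      rw [mem_tS]
      exact hv
  have h7 : ((Sb W a j).card * 4 ^ J) * 2 ^ Fintype.card W ≤
      (Nat.centralBinom J * 8 ^ Fintype.card W +
      4 ^ J * (2 ^ (4 * J) * 7 ^ Fintype.card W)) * 2 ^ Fintype.card W := by
    calc _ = (Sb W a j).card * 2 ^ Fintype.card W * 4 ^ J := by ring
      _ ≤ _ := h6
      _ = _ := by ring
  exact Nat.le_of_mul_le_mul_right h7 (by positivity)

end

end GS4
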