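import Pool.Agent.helper97.GS4.LB1

/-!
# Counting matrices for the lower bound
-/

set_option autoImplicit false
set_option linter.unusedSectionVars false

namespace GS4

open Finset DS DQ

variable {V : Type*} [Fintype V] [DecidableEq V]

theorem avg_eq {U : Type*} [Fintype U] (φ : U → Matrix V V F) (hφ : ∀ u, IsAlt (φ u))
    (P : Matrix V V F → Prop) :
    cn P * Fintype.card U = ∑ A ∈ altSet V, ct (fun u => P (A + φ u)) := by
  classical
  have h1 : ∀ u : U, (cS fun A => P (A + φ u)).card = cn P := by
    intro u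
    rw [cn]
    refine Finset.card_bij (fun A _ => A + φ u) ?_ ?_ ?_
    · intro A hA
      rw [mem_cS] at hA ⊢
      exact ⟨hA.1.add (hφ u), hA.2⟩
    · intro A _ A' _ he
      exact add_right_cancel he
    · intro A hA
      rw [mem_cS] at hA
      have h2 : A + φ u + φ u = A := by
        ext i j
        rw [Matrix.add_apply, Matrix.add_apply, add_assoc, F_add_self, add_zero]
      refine ⟨A + φ u, ?_, h2⟩
      rw [mem_cS, h2]
      exact ⟨hA.1.add (hφ u), hA.2⟩
  have h2 : cn P * Fintype.card U = ∑ u : U, (cS fun A => P (A + φ u)).card := by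
    rw [Finset.sum_congr rfl fun u _ => h1 u, Finset.sum_const, Finset.card_univ, smul_eq_mul,
      mul_comm]
  have e1 : ∀ u : U, (cS fun A => P (A + φ u)).card =
      ∑ A ∈ altSet V, if P (A + φ u) then 1 else 0 := by
    intro u
    rw [cS, Finset.card_filter]
  have e2 : ∀ A : Matrix V V F, ct (fun u => P (A + φ u)) =
      ∑ u : U, if P (A + φ u) then 1 else 0 := by
    intro A
    rw [ct, tS, Finset.card_filter]
  rw [h2, Finset.sum_congr rfl fun u _ => e1 u, Finset.sum_congr rfl fun A _ => e2 A,
    Finset.sum_comm]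

theorem avg_ge {U : Type*} [Fintype U] (φ : U → Matrix V V F) (hφ : ∀ u, IsAlt (φ u))
    (P : Matrix V V F → Prop) (hP : ∀ A, IsAlt A → ∃ u, P (A + φ u)) :
    (altSet V).card ≤ cn P * Fintype.card U := by
  rw [avg_eq φ hφ P]
  calc (altSet V).card = ∑ A ∈ altSet V, 1 := by rw [Finset.sum_const, smul_eq_mul, mul_one]
    _ ≤ _ := by
      refine Finset.sum_le_sum fun A hA => ?_
      obtain ⟨u, hu⟩ := hP A ((mem_altSet A).1 hA)
      exact Finset.card_pos.2 ⟨u, (mem_tS _ _).2 hu⟩

theorem EvI_ge (I : Finset V) (hI : I.card = 4) :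
    (altSet V).card ≤ cn (EvI I) * 2 ^ (Fintype.card V - 1) := by
  classical
  obtain ⟨a, b, c, d, hab, hac, had, hbc, hbd, hcd, hIe⟩ := Finset.card_eq_four.1 hI
  have hc : Fintype.card {x // x ∉ ({a} : Finset V)} = Fintype.card V - 1 := by
    rw [Fintype.card_subtype_compl, Fintype.card_coe, card_singleton]
  have hU : Fintype.card ({x // x ∉ ({a} : Finset V)} → F) = 2 ^ (Fintype.card V - 1) := by
    rw [card_fun, hc]
  rw [← hU]
  refine avg_ge (st a) (fun g => cr_alt {a} _) (EvI I) fun A hA => ?_
  have hsym : ∀ u v, A u v = A v u := fun u v => by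
    conv_lhs => rw [← hA.1]
    rfl
  let g : {y // y ∉ ({a} : Finset V)} → F := fun y =>
    if (y : V) = b then A c d + A a b else if (y : V) = c then A b d + A a c else
      if (y : V) = d then A b c + A a d else ∑ u ∈ I, A u y
  have halt : IsAlt (A + st a g) := hA.add (cr_alt {a} _)
  have hsym' : ∀ u v, (A + st a g) u v = (A + st a g) v u := fun u v => by
    conv_lhs => rw [← halt.1]
    rfl
  have hay : ∀ y (hy : y ≠ a), (A + st a g) a y = A a y + g ⟨y, fun h => hy (mem_singleton.1 h)⟩ :=
    fun y hy => by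
      rw [Matrix.add_apply]
      congr 1
      exact st_apply a g ⟨y, fun h => hy (mem_singleton.1 h)⟩
  have hother : ∀ u v, u ≠ a → v ≠ a → (A + st a g) u v = A u v := fun u v hu hv => by
    rw [Matrix.add_apply, st_other a g hu hv, add_zero]
  have e_ab : (A + st a g) a b = A c d := by
    rw [hay b hab.symm]
    show A a b + (if b = b then A c d + A a b else _) = A c d
    rw [if_pos rfl, add_comm (A c d), ← add_assoc, F_add_self, zero_add]
  have e_ac : (A + st a g) a c = A b d := by
    rw [hay c hac.symm]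
    show A a c + (if c = b then A c d + A a b else if c = c then A b d + A a c else _) = A b d
    rw [if_neg hbc.symm, if_pos rfl, add_comm (A b d), ← add_assoc, F_add_self, zero_add]
  have e_ad : (A + st a g) a d = A b c := by
    rw [hay d had.symm]
    show A a d + (if d = b then A c d + A a b else if d = c then A b d + A a c else
      if d = d then A b c + A a d else _) = A b c
    rw [if_neg hbd.symm, if_neg hcd.symm, if_pos rfl, add_comm (A b c), ← add_assoc, F_add_self,
      zero_add]
  refine ⟨g, ?_, ?_⟩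
  · intro x hx
    have hxa : x ≠ a := by rintro rfl; exact hx (by rw [hIe]; simp)
    have hxb : x ≠ b := by rintro rfl; exact hx (by rw [hIe]; simp)
    have hxc : x ≠ c := by rintro rfl; exact hx (by rw [hIe]; simp)
    have hxd : x ≠ d := by rintro rfl; exact hx (by rw [hIe]; simp)
    have haI : a ∈ I := by rw [hIe]; simp
    have h1 : ∑ u ∈ I, (A + st a g) u x = ∑ u ∈ I, A u x + g ⟨x, fun h => hxa (mem_singleton.1 h)⟩ := by
      simp only [Matrix.add_apply, Finset.sum_add_distrib]
      rw [Finset.sum_eq_single_of_mem a haI fun u _ hu => st_other a g hu hxa]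
      congr 1
      exact st_apply a g ⟨x, fun h => hxa (mem_singleton.1 h)⟩
    rw [h1]
    show _ + (if x = b then A c d + A a b else if x = c then A b d + A a c else
      if x = d then A b c + A a d else ∑ u ∈ I, A u x) = 0
    rw [if_neg hxb, if_neg hxc, if_neg hxd, F_add_self]
  · have hs : ∀ x, ∑ u ∈ I, re ((A + st a g) u x) = re ((A + st a g) a x) +
        re ((A + st a g) b x) + re ((A + st a g) c x) + re ((A + st a g) d x) := by
      intro x
      rw [hIe, Finset.sum_insert, Finset.sum_insert, Finset.sum_insert, Finset.sum_singleton]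
      · ring
      · simpa using hcd
      · simp [hbc, hbd]
      · simp [hab, hac, had]
    have key : ∀ x ∈ I, ∑ u ∈ I, re ((A + st a g) u x) = re (A c d) + re (A b d) + re (A b c) := by
      intro x hx
      rw [hs]
      rw [hIe] at hx
      simp only [mem_insert, mem_singleton] at hx
      rcases hx with rfl | rfl | rfl | rfl
      · rw [halt.2, re_zero, hsym' b, hsym' c, hsym' d, e_ab, e_ac, e_ad]
        ring
      · rw [halt.2, re_zero, e_ab, hother c _ hac.symm hab.symm, hother d _ had.symm hab.symm,
          hsym c x, hsym d x]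
        ring
      · rw [halt.2, re_zero, e_ac, hother b _ hab.symm hac.symm, hother d _ had.symm hac.symm,
          hsym d]
        ring
      · rw [halt.2, re_zero, e_ad, hother b _ hab.symm had.symm, hother c _ hac.symm had.symm]
        ring
    intro x hx y hy
    rw [key x hx, key y hy]

/-- The balanced matrices. -/
def Bal (I : Finset V) (a j : {u // u ∈ I}) (A : Matrix V V F) : Prop :=
  (∀ x, x ∉ I → ∑ u ∈ I, A u x = 0) ∧
  ∑ x : {x // x ∉ I}, xi a j (fun u : {u // u ∈ I} => A u x) = 0

theorem Bal_bound (I : Finset V) (a j : {u // u ∈ I}) :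
    cn (Bal I a j) * (2 ^ I.card) ^ (Fintype.card V - I.card) ≤
      (Sb {x // x ∉ I} a j).card * (altSet V).card := by
  classical
  have hc : Fintype.card {x // x ∉ I} = Fintype.card V - I.card := by
    rw [Fintype.card_subtype_compl, Fintype.card_coe]
  have hU : Fintype.card ({x // x ∉ I} → {u // u ∈ I} → F) =
      (2 ^ I.card) ^ (Fintype.card V - I.card) := by
    rw [Fintype.card_fun, card_fun, Fintype.card_coe, hc]
  rw [← hU]
  refine avg (cr I) (cr_alt I) (Bal I a j) _ fun A _ => ?_
  refine ct_inj _ (Sb {x // x ∉ I} a j)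
    (fun g (x : {x // x ∉ I}) (u : {u // u ∈ I}) => A u x + g x u) ?_ ?_
  · intro g g' _ _ he
    funext x u
    exact add_left_cancel (congrFun (congrFun he x) u)
  · intro g hg
    have h2 : ∀ x : {x // x ∉ I}, (fun u : {u // u ∈ I} => (A + cr I g) u x) =
        fun u : {u // u ∈ I} => A u x + g x u := by
      intro x
      funext u
      rw [Matrix.add_apply, cr_apply]
    rw [Sb, mem_tS]
    constructor
    · intro x
      rw [mem_Z0]
      have h1 := hg.1 x x.2
      rw [← Finset.sum_coe_sort I fun u => (A + cr I g) u x] at h1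
      rw [← h1]
      exact Finset.sum_congr rfl fun u _ => (congrFun (h2 x) u).symm
    · have h1 := hg.2
      rw [← h1]
      exact Finset.sum_congr rfl fun x _ => by rw [h2 x]

/-- Two sets are rarely both of Godsil-McKay type. -/
theorem pair_bound (I I' : Finset V) (hI : I.card = 4) (hI' : I'.card = 4) (hne : I ≠ I') :
    cn (fun A => EvI I A ∧ EvI I' A) * 4 ^ (Fintype.card V - 8) ≤ (altSet V).card := by
  classical
  obtain ⟨a, haI, haI'⟩ : ∃ a, a ∈ I ∧ a ∉ I' := by
    by_contra hc
    push Not at hc
    exact hne (Finset.eq_of_subset_of_card_le hc (by omega))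
  obtain ⟨b, hbI', hbI⟩ : ∃ b, b ∈ I' ∧ b ∉ I := by
    by_contra hc
    push Not at hc
    exact hne (Finset.eq_of_subset_of_card_le hc (by omega)).symm
  have hab : a ≠ b := by rintro rfl; exact hbI haI
  set W := univ \ (I ∪ I') with hW
  have hWc : Fintype.card V - 8 ≤ Fintype.card {x // x ∈ W} := by
    rw [Fintype.card_coe, hW, card_sdiff_of_subset (subset_univ _), card_univ]
    have := Finset.card_union_le I I'
    omega
  have hWI : ∀ x ∈ W, x ∉ I := fun x hx h => (mem_sdiff.1 hx).2 (mem_union_left _ h)
  have hWI' : ∀ x ∈ W, x ∉ I' := fun x hx h => (mem_sdiff.1 hx).2 (mem_union_right _ h)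
  have hdis : Disjoint ({a, b} : Finset V) W := by
    rw [Finset.disjoint_left]
    intro x hx hxW
    rw [mem_insert, mem_singleton] at hx
    rcases hx with rfl | rfl
    · exact hWI _ hxW haI
    · exact hWI' _ hxW hbI'
  let φ : ({x // x ∈ W} → F × F) → Matrix V V F := fun g =>
    bip {a, b} W fun u x => if h : x ∈ W then (if u = a then (g ⟨x, h⟩).1 else (g ⟨x, h⟩).2) else 0
  have hφ : ∀ g, IsAlt (φ g) := fun g => bip_alt hdis _
  have hφa : ∀ g (x : {x // x ∈ W}), φ g a x = (g x).1 := by
    intro g x
    show bip _ _ _ _ _ = _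
    rw [bip_of_mem _ (by simp) x.2, dif_pos x.2, if_pos rfl]
  have hφb : ∀ g (x : {x // x ∈ W}), φ g b x = (g x).2 := by
    intro g x
    show bip _ _ _ _ _ = _
    rw [bip_of_mem _ (by simp) x.2, dif_pos x.2, if_neg hab.symm]
  have hφo : ∀ g (u : V) (x : {x // x ∈ W}), u ≠ a → u ≠ b → φ g u x = 0 := by
    intro g u x hua hub
    show bip _ _ _ _ _ = _
    rw [bip, Matrix.of_apply, if_neg, if_neg]
    · rintro ⟨h1, -⟩
      exact (Finset.disjoint_left.1 hdis) h1 x.2
    · rintro ⟨h1, -⟩
      rw [mem_insert, mem_singleton] at h1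
      rcases h1 with h1 | h1
      · exact hua h1
      · exact hub h1
  have hcard : Fintype.card ({x // x ∈ W} → F × F) = 4 ^ Fintype.card {x // x ∈ W} := by
    rw [Fintype.card_fun, Fintype.card_prod]
    rfl
  have main := avg φ hφ (fun A => EvI I A ∧ EvI I' A) 1 fun A _ => by
    refine le_trans (ct_inj (T := Unit) _ {()} (fun _ => ()) ?_ fun _ _ => mem_singleton_self _)
      (by simp)
    intro g g' hg hg' _
    funext x
    have hs1 : ∀ g, ∑ u ∈ I, (A + φ g) u x = ∑ u ∈ I, A u x + (g x).1 := by
      intro g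
      simp only [Matrix.add_apply, Finset.sum_add_distrib]
      rw [Finset.sum_eq_single_of_mem a haI fun u hu hua => hφo g u x hua (by
        rintro rfl; exact hbI hu), hφa]
    have hs2 : ∀ g, ∑ u ∈ I', (A + φ g) u x = ∑ u ∈ I', A u x + (g x).2 := by
      intro g
      simp only [Matrix.add_apply, Finset.sum_add_distrib]
      rw [Finset.sum_eq_single_of_mem b hbI' fun u hu hub => hφo g u x (by
        rintro rfl; exact haI' hu) hub, hφb]
    have e1 := hg.1.1 x (hWI x x.2)
    have e1' := hg'.1.1 x (hWI x x.2)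
    have e2 := hg.2.1 x (hWI' x x.2)
    have e2' := hg'.2.1 x (hWI' x x.2)
    rw [hs1] at e1 e1'
    rw [hs2] at e2 e2'
    exact Prod.ext (add_left_cancel (e1.trans e1'.symm)) (add_left_cancel (e2.trans e2'.symm))
  rw [hcard, one_mul] at main
  refine le_trans (Nat.mul_le_mul_left _ (Nat.pow_le_pow_right (by norm_num) hWc)) main

end GS4
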