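import Pool.Agent.helper97.GS4.Mix

/-!
# The upper bound
-/

set_option autoImplicit false
set_option linter.unusedSectionVars false

namespace GS4

open Matrix Finset DS DQ

open scoped Classical in
/-- The graph has a mate by an orthogonal similarity with at most `k` columns that do not have
exactly one nonzero entry. -/
def Loc (k n : ℕ) (G : SimpleGraph (Fin n)) : Prop :=
  ∃ (H : SimpleGraph (Fin n)) (Q : Matrix (Fin n) (Fin n) ℝ), ¬ Nonempty (G ≃g H) ∧
    Qᵀ * Q = 1 ∧ Qᵀ * G.adjMatrix ℝ * Q = H.adjMatrix ℝ ∧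
    {j | {i | Q i j ≠ 0}.ncard ≠ 1}.ncard ≤ k

/-- The small sets of binary vectors. -/
noncomputable def Sm (k n : ℕ) (K : Finset (Fin n)) : Finset (Finset ({u // u ∈ K} → F)) :=
  (SS {u // u ∈ K}).filter fun Z => Z.card * 16 ≤ 7 * 2 ^ k

/-- The sets of at most half of the binary vectors. -/
noncomputable def Hf (k n : ℕ) (K : Finset (Fin n)) : Finset (Finset ({u // u ∈ K} → F)) :=
  (SS {u // u ∈ K}).filter fun Z => Z.card * 2 ≤ 2 ^ k

/-- The second event for one set `K`. -/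
def EvK (k n : ℕ) (K : Finset (Fin n)) (A : Matrix (Fin n) (Fin n) F) : Prop :=
  ∃ Z ∈ Sm k n K, EvS K Z A

/-- The third event for one set `K`. -/
def EvX (k n : ℕ) (K : Finset (Fin n)) (A : Matrix (Fin n) (Fin n) F) : Prop :=
  ∃ X ∈ (univ \ K).powerset.filter (fun X => X ≠ ∅ ∧ X ≠ univ \ K),
    ∃ p ∈ Hf k n K ×ˢ Hf k n K, EvM K X p.1 p.2 A

/-- The event containing all local mates. -/
def Bad (k n : ℕ) (A : Matrix (Fin n) (Fin n) F) : Prop :=
  (∃ I ∈ powersetCard 4 (univ : Finset (Fin n)), EvI I A) ∨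
  ((∃ K ∈ powersetCard k (univ : Finset (Fin n)), EvK k n K A) ∨
  (∃ K ∈ powersetCard k (univ : Finset (Fin n)), EvX k n K A))

theorem Bad_plus {k n : ℕ} {A : Matrix (Fin n) (Fin n) F} (hA : IsAlt A)
    {Q : Matrix (Fin n) (Fin n) ℝ} (hon : On Q)
    (hrow : ∀ u w, ∑ j, Q u j * Q w j = if u = w then 1 else 0) (hb : Bin A Q)
    (hd : ∀ j, QF A (fun v => Q v j) (fun v => Q v j) = 0)
    (hnm : ¬ ∀ j, (sp Q j).card = 1) {K W : Finset (Fin n)} {τ : Fin n → Fin n}
    (h : KW Q k K W τ) (hp : ∀ l ∈ W, Q (τ l) l = 1) : Bad k n A := by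
  rcases red_plus hA hon hrow hb hd hnm h hp with ⟨I, hI, hE⟩ | ⟨Z, hZ, hZc, hE⟩
  · exact Or.inl ⟨I, mem_powersetCard.2 ⟨subset_univ _, hI⟩, hE⟩
  · exact Or.inr (Or.inl ⟨K, mem_powersetCard.2 ⟨subset_univ _, h.hK⟩, Z,
      mem_filter.2 ⟨hZ, hZc⟩, hE⟩)

theorem Bad_of_Loc {k n : ℕ} (hk : k ≤ n) {G : SimpleGraph (Fin n)} (h : Loc k n G) :
    Bad k n (toM G) := by
  classical
  obtain ⟨H, Q, hiso, hQ, hA, hcol⟩ := h
  have hOn := On_of hQ
  have hAH : Qᵀ * G.adjMatrix ℝ * Q = H.adjMatrix ℝ := by rw [← hA]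
  have hd : ∀ j, QF (toM G) (fun v => Q v j) (fun v => Q v j) = 0 := by
    intro j
    rw [QF_eq, hAH, SimpleGraph.adjMatrix_apply, if_neg (SimpleGraph.irrefl H)]
  have hb : Bin (toM G) Q := Bin_of hAH
  have hset : {j | {i | Q i j ≠ 0}.ncard ≠ 1} =
      ((tS fun j => ¬ (sp Q j).card = 1 : Finset (Fin n)) : Set (Fin n)) := by
    ext j
    rw [mem_coe, mem_tS]
    have hsp : {i | Q i j ≠ 0}.ncard = (sp Q j).card := by
      rw [← Set.ncard_coe_finset]
      congr 1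
      ext i
      rw [mem_coe, mem_sp]
      rfl
    rw [← hsp]
    rfl
  rw [hset, Set.ncard_coe_finset] at hcol
  have hrow := rows_of hQ
  have hnm : ¬ ∀ j, (sp Q j).card = 1 := fun hu => hiso (iso_of_unit hOn hAH hu)
  obtain ⟨K, W, τ, hKW⟩ := exists_KW hOn k (by rw [Fintype.card_fin]; exact hk) hcol
  have hsgn : ∀ l ∈ W, Q (τ l) l = 1 ∨ Q (τ l) l = -1 := by
    intro l hl
    have h6 : (Q (τ l) l - 1) * (Q (τ l) l + 1) = 0 := by linear_combination hKW.sq l hl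
    rcases mul_eq_zero.1 h6 with h7 | h7
    · left; linarith
    · right; linarith
  by_cases hm : ∃ l ∈ W, Q (τ l) l = -1
  · by_cases hp : ∃ l ∈ W, Q (τ l) l = 1
    · obtain ⟨X, h1, h2, h3, Zp, hZp, Zm, hZm, h4, h5, h6⟩ := red_mix hOn hrow hb hnm hKW hp hm
      exact Or.inr (Or.inr ⟨K, mem_powersetCard.2 ⟨subset_univ _, hKW.hK⟩, X,
        mem_filter.2 ⟨mem_powerset.2 h1, h2, h3⟩, (Zp, Zm),
        mem_product.2 ⟨mem_filter.2 ⟨hZp, h4⟩, mem_filter.2 ⟨hZm, h5⟩⟩, h6⟩)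
    · have hon' : On (-Q) := by
        intro i j
        rw [← hOn i j]
        exact Finset.sum_congr rfl fun v _ => by
          rw [Matrix.neg_apply, Matrix.neg_apply, neg_mul_neg]
      have hrow' : ∀ u w, ∑ j, (-Q) u j * (-Q) w j = if u = w then 1 else 0 := by
        intro i j
        rw [← hrow i j]
        exact Finset.sum_congr rfl fun v _ => by
          rw [Matrix.neg_apply, Matrix.neg_apply, neg_mul_neg]
      have hQF : ∀ i j, QF (toM G) (fun v => (-Q) v i) (fun v => (-Q) v j) =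
          QF (toM G) (fun v => Q v i) (fun v => Q v j) := by
        intro i j
        rw [QF, QF]
        refine Finset.sum_congr rfl fun v _ => Finset.sum_congr rfl fun w _ => ?_
        rw [Matrix.neg_apply, Matrix.neg_apply]
        ring
      refine Bad_plus (toM_alt G) hon' hrow' (fun i j => by rw [hQF]; exact hb i j)
        (fun j => by rw [hQF]; exact hd j) ?_ hKW.neg ?_
      · intro hu
        refine hnm fun j => ?_
        rw [← hu j]
        congr 1
        ext v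
        rw [mem_sp, mem_sp, Matrix.neg_apply, neg_ne_zero]
      · intro l hl
        rw [Matrix.neg_apply]
        rcases hsgn l hl with h7 | h7
        · exact absurd ⟨l, hl, h7⟩ hp
        · rw [h7, neg_neg]
  · exact Bad_plus (toM_alt G) hOn hrow hb hd hnm hKW fun l hl =>
      (hsgn l hl).resolve_right fun h7 => hm ⟨l, hl, h7⟩

theorem cn_EvI {n : ℕ} (hn : 1 ≤ n) {I : Finset (Fin n)} (hI : I.card = 4) :
    (cn (EvI I) : ℝ) ≤ 2 / 2 ^ n * al n := by
  have h := EvI_bound I hI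
  rw [Fintype.card_fin] at h
  have h1 : (cn (EvI I) : ℝ) * 2 ^ (n - 1) ≤ al n := by
    rw [al]
    exact_mod_cast h
  have h2 : (2 : ℝ) ^ n = 2 ^ (n - 1) * 2 := by
    rw [← pow_succ, Nat.sub_add_cancel hn]
  rw [h2, div_mul_eq_mul_div, le_div_iff₀ (by positivity)]
  linarith

theorem cn_EvS {k n : ℕ} {K : Finset (Fin n)} (hK : K.card = k)
    {Z : Finset ({u // u ∈ K} → F)} (hZ : Z.card * 16 ≤ 7 * 2 ^ k) :
    (cn (EvS K Z) : ℝ) ≤ (7 / 16) ^ (n - k) * al n := by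
  have h := EvS_bound K Z
  rw [Fintype.card_fin, hK] at h
  have h1 : (cn (EvS K Z) : ℝ) * (2 ^ k) ^ (n - k) ≤ (Z.card : ℝ) ^ (n - k) * al n := by
    rw [al]
    exact_mod_cast h
  have hZ' : (Z.card : ℝ) ≤ 7 / 16 * 2 ^ k := by
    have : (Z.card : ℝ) * 16 ≤ 7 * 2 ^ k := by exact_mod_cast hZ
    linarith
  have h2 : (Z.card : ℝ) ^ (n - k) ≤ (7 / 16) ^ (n - k) * (2 ^ k) ^ (n - k) := by
    rw [← mul_pow]
    exact pow_le_pow_left₀ (Nat.cast_nonneg _) hZ' _
  have h3 : (cn (EvS K Z) : ℝ) * (2 ^ k) ^ (n - k) ≤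
      ((7 / 16) ^ (n - k) * al n) * (2 ^ k) ^ (n - k) := by
    calc _ ≤ (Z.card : ℝ) ^ (n - k) * al n := h1
      _ ≤ (7 / 16) ^ (n - k) * (2 ^ k) ^ (n - k) * al n :=
        mul_le_mul_of_nonneg_right h2 (al_pos n).le
      _ = _ := by ring
  exact le_of_mul_le_mul_right h3 (by positivity)

theorem card_Sm {k n : ℕ} {K : Finset (Fin n)} (hK : K.card = k) :
    (Sm k n K).card ≤ 4 ^ (k ^ 2) := by
  refine (card_filter_le _ _).trans ?_
  have h8 := card_SS (R := {u // u ∈ K})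
  rwa [Fintype.card_coe, hK] at h8

theorem cn_EvK {k n : ℕ} {K : Finset (Fin n)} (hK : K.card = k) :
    (cn (EvK k n K) : ℝ) ≤ 4 ^ (k ^ 2) * ((7 / 16) ^ (n - k) * al n) := by
  have h6 : (cn (EvK k n K) : ℝ) ≤ ∑ Z ∈ Sm k n K, (cn (EvS K Z) : ℝ) := by
    have := cn_union (Sm k n K) fun Z A => EvS K Z A
    exact_mod_cast this
  have h7 : ∑ Z ∈ Sm k n K, (cn (EvS K Z) : ℝ) ≤
      ∑ Z ∈ Sm k n K, (7 / 16 : ℝ) ^ (n - k) * al n :=
    Finset.sum_le_sum fun Z hZ => cn_EvS hK (mem_filter.1 hZ).2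
  have h8 : ((Sm k n K).card : ℝ) ≤ 4 ^ (k ^ 2) := by exact_mod_cast card_Sm hK
  have h9 : (0 : ℝ) ≤ (7 / 16 : ℝ) ^ (n - k) * al n := mul_nonneg (by positivity) (al_pos n).le
  calc _ ≤ _ := h6
    _ ≤ _ := h7
    _ = ((Sm k n K).card : ℝ) * ((7 / 16 : ℝ) ^ (n - k) * al n) := by
      rw [Finset.sum_const, nsmul_eq_mul]
    _ ≤ _ := mul_le_mul_of_nonneg_right h8 h9

theorem cn_I {n : ℕ} (hn : 1 ≤ n) :
    (cn (fun A => ∃ I ∈ powersetCard 4 (univ : Finset (Fin n)), EvI I A) : ℝ) ≤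
      (n.choose 4 : ℝ) * (2 / 2 ^ n * al n) := by
  have h2 : (cn (fun A => ∃ I ∈ powersetCard 4 (univ : Finset (Fin n)), EvI I A) : ℝ) ≤
      ∑ I ∈ powersetCard 4 (univ : Finset (Fin n)), (cn (EvI I) : ℝ) := by
    have := cn_union (powersetCard 4 (univ : Finset (Fin n))) fun I A => EvI I A
    exact_mod_cast this
  refine h2.trans ?_
  refine (Finset.sum_le_sum fun I hI => cn_EvI hn (mem_powersetCard.1 hI).2).trans ?_
  rw [Finset.sum_const, card_powersetCard, card_univ, Fintype.card_fin, nsmul_eq_mul]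

theorem cn_K {k n : ℕ} :
    (cn (fun A => ∃ K ∈ powersetCard k (univ : Finset (Fin n)), EvK k n K A) : ℝ) ≤
      (n.choose k : ℝ) * (4 ^ (k ^ 2) * ((7 / 16) ^ (n - k) * al n)) := by
  have h2 : (cn (fun A => ∃ K ∈ powersetCard k (univ : Finset (Fin n)), EvK k n K A) : ℝ) ≤
      ∑ K ∈ powersetCard k (univ : Finset (Fin n)), (cn (EvK k n K) : ℝ) := by
    have := cn_union (powersetCard k (univ : Finset (Fin n))) fun K A => EvK k n K A
    exact_mod_cast this
  refine h2.trans ?_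
  refine (Finset.sum_le_sum fun K hK => cn_EvK (mem_powersetCard.1 hK).2).trans ?_
  rw [Finset.sum_const, card_powersetCard, card_univ, Fintype.card_fin, nsmul_eq_mul]

/-- The sum over the mixed sign patterns. -/
theorem sum_mix {α : Type*} [DecidableEq α] (S : Finset α) :
    ∑ X ∈ S.powerset.filter (fun X => X ≠ ∅ ∧ X ≠ S),
      (1 : ℝ) / 2 ^ (X.card * (S.card - X.card)) ≤ (4 * S.card + 16) / 2 ^ S.card := by
  set m := S.card with hm
  rcases Nat.eq_zero_or_pos m with hm0 | hmpos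
  · have hS0 : S = ∅ := card_eq_zero.1 (hm.symm.trans hm0)
    rw [Finset.sum_eq_zero]
    · positivity
    · intro X hX
      rw [mem_filter, mem_powerset, hS0, subset_empty] at hX
      exact absurd hX.1 hX.2.1
  have hterm : ∀ X ∈ S.powerset.filter (fun X => X ≠ ∅ ∧ X ≠ S),
      (1 : ℝ) / 2 ^ (X.card * (m - X.card)) ≤
        ((if X.card = 1 then 2 / 2 ^ m else 0) + if X.card = m - 1 then 2 / 2 ^ m else 0) +
          16 / 4 ^ m := by
    intro X hX
    rw [mem_filter, mem_powerset] at hX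
    have h1 : 1 ≤ X.card := by
      rw [Nat.one_le_iff_ne_zero]
      intro h
      exact hX.2.1 (card_eq_zero.1 h)
    have h2 : X.card < m := by
      refine Finset.card_lt_card ⟨hX.1, fun h => hX.2.2 (Subset.antisymm hX.1 h)⟩
    have hm2 : (2 : ℝ) ^ m = 2 ^ (m - 1) * 2 := by
      rw [← pow_succ, Nat.sub_add_cancel (by omega)]
    by_cases h3 : X.card = 1 ∨ X.card = m - 1
    · have h4 : X.card * (m - X.card) = m - 1 := by
        rcases h3 with h3 | h3
        · rw [h3, one_mul]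
        · have : m - X.card = 1 := by omega
          rw [this, mul_one, h3]
      have h5 : (1 : ℝ) / 2 ^ (m - 1) = 2 / 2 ^ m := by
        rw [hm2, div_eq_div_iff (by positivity) (by positivity)]
        ring
      rw [h4, h5]
      have h6 : (0 : ℝ) ≤ 2 / 2 ^ m := by positivity
      have h7 : (0 : ℝ) ≤ 16 / 4 ^ m := by positivity
      rcases h3 with h3 | h3
      · rw [if_pos h3]
        split_ifs <;> linarith
      · rw [if_pos h3]
        split_ifs <;> linarith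
    · rw [not_or] at h3
      have h4 : 2 ≤ X.card := by omega
      have h5 : X.card + 2 ≤ m := by omega
      obtain ⟨a, ha⟩ : ∃ a, X.card = a + 2 := ⟨X.card - 2, by omega⟩
      obtain ⟨b, hb⟩ : ∃ b, m = a + b + 4 := ⟨m - X.card - 2, by omega⟩
      have h6 : 2 * (m - 2) ≤ X.card * (m - X.card) := by
        rw [ha, hb]
        have e1 : a + b + 4 - 2 = a + b + 2 := by omega
        have e2 : a + b + 4 - (a + 2) = b + 2 := by omega
        rw [e1, e2]
        nlinarith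
      have h7 : (1 : ℝ) / 2 ^ (X.card * (m - X.card)) ≤ 1 / 2 ^ (2 * (m - 2)) :=
        one_div_le_one_div_of_le (by positivity) (pow_le_pow_right₀ (by norm_num) h6)
      have h8 : (1 : ℝ) / 2 ^ (2 * (m - 2)) = 16 / 4 ^ m := by
        have : (4 : ℝ) ^ m = 2 ^ (2 * (m - 2)) * 16 := by
          have e4 : (4 : ℝ) = 2 ^ 2 := by norm_num
          have e16 : (16 : ℝ) = 2 ^ 4 := by norm_num
          rw [e4, e16, ← pow_mul, ← pow_add]
          congr 1
          omega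
        rw [this, div_eq_div_iff (by positivity) (by positivity)]
        ring
      have h9 : (0 : ℝ) ≤ (if X.card = 1 then 2 / 2 ^ m else 0) +
          if X.card = m - 1 then 2 / 2 ^ m else 0 := by positivity
      linarith
  refine (Finset.sum_le_sum hterm).trans ?_
  have hsub : ∑ X ∈ S.powerset.filter (fun X => X ≠ ∅ ∧ X ≠ S),
      (((if X.card = 1 then 2 / 2 ^ m else 0) + if X.card = m - 1 then 2 / 2 ^ m else 0) +
          16 / 4 ^ m : ℝ) ≤ ∑ X ∈ S.powerset,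
      (((if X.card = 1 then 2 / 2 ^ m else 0) + if X.card = m - 1 then 2 / 2 ^ m else 0) +
          16 / 4 ^ m : ℝ) :=
    Finset.sum_le_sum_of_subset_of_nonneg (filter_subset _ _) fun _ _ _ => by positivity
  refine hsub.trans ?_
  have hc : ∀ c : ℕ, ∑ X ∈ S.powerset, (if X.card = c then 2 / 2 ^ m else 0 : ℝ) =
      (m.choose c : ℝ) * (2 / 2 ^ m) := by
    intro c
    rw [← Finset.sum_filter, Finset.sum_const, nsmul_eq_mul]
    congr 2
    rw [hm, ← Finset.card_powersetCard c S, ← Finset.powersetCard_eq_filter]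
  rw [Finset.sum_add_distrib, Finset.sum_add_distrib, hc, hc, Finset.sum_const, card_powerset,
    nsmul_eq_mul, Nat.choose_one_right]
  have h1 : (m.choose (m - 1) : ℝ) = m := by
    rw [Nat.choose_symm (by omega : 1 ≤ m), Nat.choose_one_right]
  rw [h1]
  have h4 : (4 : ℝ) ^ m = 2 ^ m * 2 ^ m := by
    rw [← mul_pow]
    norm_num
  rw [h4]
  push_cast
  have h2 : (0 : ℝ) < 2 ^ m := by positivity
  refine le_of_eq ?_
  field_simp
  ring

theorem cn_EvX {k n : ℕ} {K : Finset (Fin n)} (hK : K.card = k) :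
    (cn (EvX k n K) : ℝ) ≤
      16 ^ (k ^ 2) * ((4 * ((n - k : ℕ) : ℝ) + 16) / 4 ^ (n - k)) * al n := by
  classical
  have hKc : (univ \ K : Finset (Fin n)).card = n - k := by
    rw [card_sdiff_of_subset (subset_univ _), card_univ, Fintype.card_fin, hK]
  set S : Finset (Fin n) := univ \ K with hS
  have hHf : ((Hf k n K ×ˢ Hf k n K).card : ℝ) ≤ 16 ^ (k ^ 2) := by
    have h1 : (Hf k n K).card ≤ 4 ^ (k ^ 2) := by
      refine (card_filter_le _ _).trans ?_
      have h8 := card_SS (R := {u // u ∈ K})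
      rwa [Fintype.card_coe, hK] at h8
    have h2 : (Hf k n K ×ˢ Hf k n K).card ≤ 16 ^ (k ^ 2) := by
      rw [card_product]
      calc _ ≤ 4 ^ (k ^ 2) * 4 ^ (k ^ 2) := Nat.mul_le_mul h1 h1
        _ = _ := by rw [← mul_pow]; norm_num
    exact_mod_cast h2
  have h1 : (cn (EvX k n K) : ℝ) ≤
      ∑ X ∈ S.powerset.filter (fun X => X ≠ ∅ ∧ X ≠ S),
        (cn (fun A => ∃ p ∈ Hf k n K ×ˢ Hf k n K, EvM K X p.1 p.2 A) : ℝ) := by
    have := cn_union (S.powerset.filter (fun X => X ≠ ∅ ∧ X ≠ S)) fun X A =>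
      ∃ p ∈ Hf k n K ×ˢ Hf k n K, EvM K X p.1 p.2 A
    exact_mod_cast this
  have h2 : ∀ X ∈ S.powerset.filter (fun X => X ≠ ∅ ∧ X ≠ S),
      (cn (fun A => ∃ p ∈ Hf k n K ×ˢ Hf k n K, EvM K X p.1 p.2 A) : ℝ) ≤
        16 ^ (k ^ 2) * (1 / 2 ^ (X.card * (S.card - X.card)) * (al n / 2 ^ (n - k))) := by
    intro X hX
    rw [mem_filter, mem_powerset] at hX
    have h3 : (cn (fun A => ∃ p ∈ Hf k n K ×ˢ Hf k n K, EvM K X p.1 p.2 A) : ℝ) ≤
        ∑ p ∈ Hf k n K ×ˢ Hf k n K, (cn (EvM K X p.1 p.2) : ℝ) := by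
      have := cn_union (Hf k n K ×ˢ Hf k n K) fun p A => EvM K X p.1 p.2 A
      exact_mod_cast this
    refine h3.trans ?_
    have h4 : ∀ p ∈ Hf k n K ×ˢ Hf k n K, (cn (EvM K X p.1 p.2) : ℝ) ≤
        1 / 2 ^ (X.card * (S.card - X.card)) * (al n / 2 ^ (n - k)) := by
      intro p hp
      rw [mem_product, Hf, mem_filter, mem_filter] at hp
      have h5 := EvM_bound K X (fun x hx => (mem_sdiff.1 (hX.1 hx)).2) p.1 p.2
        (by rw [hK]; exact hp.1.2) (by rw [hK]; exact hp.2.2)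
      rw [Fintype.card_fin, hK] at h5
      have h6 : (cn (EvM K X p.1 p.2) : ℝ) * (2 ^ (n - k) * 2 ^ (X.card * (S.card - X.card))) ≤
          al n := by
        rw [al, hKc]
        exact_mod_cast h5
      rw [one_div, ← div_eq_inv_mul, div_div, le_div_iff₀ (by positivity)]
      exact h6
    refine (Finset.sum_le_sum h4).trans ?_
    rw [Finset.sum_const, nsmul_eq_mul]
    exact mul_le_mul_of_nonneg_right hHf
      (mul_nonneg (by positivity) (div_nonneg (al_pos n).le (by positivity)))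
  refine h1.trans ((Finset.sum_le_sum h2).trans ?_)
  rw [← Finset.mul_sum, ← Finset.sum_mul]
  have h3 := sum_mix S
  rw [hKc] at h3 ⊢
  have h4 : (0 : ℝ) ≤ al n / 2 ^ (n - k) := div_nonneg (al_pos n).le (by positivity)
  have h5 := mul_le_mul_of_nonneg_right h3 h4
  have h6 := mul_le_mul_of_nonneg_left h5 (by positivity : (0 : ℝ) ≤ 16 ^ (k ^ 2))
  refine h6.trans (le_of_eq ?_)
  have h7 : (4 : ℝ) ^ (n - k) = 2 ^ (n - k) * 2 ^ (n - k) := by
    rw [← mul_pow]
    norm_num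
  rw [h7]
  field_simp

theorem cn_X {k n : ℕ} :
    (cn (fun A => ∃ K ∈ powersetCard k (univ : Finset (Fin n)), EvX k n K A) : ℝ) ≤
      (n.choose k : ℝ) *
        (16 ^ (k ^ 2) * ((4 * ((n - k : ℕ) : ℝ) + 16) / 4 ^ (n - k)) * al n) := by
  have h2 : (cn (fun A => ∃ K ∈ powersetCard k (univ : Finset (Fin n)), EvX k n K A) : ℝ) ≤
      ∑ K ∈ powersetCard k (univ : Finset (Fin n)), (cn (EvX k n K) : ℝ) := by
    have := cn_union (powersetCard k (univ : Finset (Fin n))) fun K A => EvX k n K A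
    exact_mod_cast this
  refine h2.trans ?_
  refine (Finset.sum_le_sum fun K hK => cn_EvX (mem_powersetCard.1 hK).2).trans ?_
  rw [Finset.sum_const, card_powersetCard, card_univ, Fintype.card_fin, nsmul_eq_mul]

theorem cn_Bad {k n : ℕ} (hn : 1 ≤ n) :
    (cn (Bad k n) : ℝ) ≤ ((n.choose 4 : ℝ) * 2 / 2 ^ n +
      (n.choose k : ℝ) * (4 ^ (k ^ 2) * (7 / 16) ^ (n - k) +
        16 ^ (k ^ 2) * ((4 * ((n - k : ℕ) : ℝ) + 16) / 4 ^ (n - k)))) * al n := by
  have h0 : cn (Bad k n) ≤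
      cn (fun A => ∃ I ∈ powersetCard 4 (univ : Finset (Fin n)), EvI I A) +
      (cn (fun A => ∃ K ∈ powersetCard k (univ : Finset (Fin n)), EvK k n K A) +
       cn (fun A => ∃ K ∈ powersetCard k (univ : Finset (Fin n)), EvX k n K A)) :=
    (cn_or _ _).trans (Nat.add_le_add_left (cn_or _ _) _)
  have h1 := cn_I hn
  have h3 := cn_K (k := k) (n := n)
  have h5 := cn_X (k := k) (n := n)
  have h4 : (cn (Bad k n) : ℝ) ≤
      (cn (fun A => ∃ I ∈ powersetCard 4 (univ : Finset (Fin n)), EvI I A) : ℝ) +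
      ((cn (fun A => ∃ K ∈ powersetCard k (univ : Finset (Fin n)), EvK k n K A) : ℝ) +
       (cn (fun A => ∃ K ∈ powersetCard k (univ : Finset (Fin n)), EvX k n K A) : ℝ)) := by
    exact_mod_cast h0
  calc _ ≤ _ := h4
    _ ≤ (n.choose 4 : ℝ) * (2 / 2 ^ n * al n) +
      ((n.choose k : ℝ) * (4 ^ (k ^ 2) * ((7 / 16) ^ (n - k) * al n)) +
       (n.choose k : ℝ) *
        (16 ^ (k ^ 2) * ((4 * ((n - k : ℕ) : ℝ) + 16) / 4 ^ (n - k)) * al n)) :=
      add_le_add h1 (add_le_add h3 h5)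
    _ = _ := by ring

/-- The explicit upper bound. -/
theorem upper {k n : ℕ} (hk : k ≤ n) (hn : 1 ≤ n) :
    (Nat.card {G : SimpleGraph (Fin n) // Loc k n G} : ℝ) / Nat.card (SimpleGraph (Fin n)) ≤
      (n.choose 4 : ℝ) * 2 / 2 ^ n + (n.choose k : ℝ) * (4 ^ (k ^ 2) * (7 / 16) ^ (n - k) +
        16 ^ (k ^ 2) * ((4 * ((n - k : ℕ) : ℝ) + 16) / 4 ^ (n - k))) := by
  have h1 : Nat.card {G : SimpleGraph (Fin n) // Loc k n G} ≤ cn (Bad k n) :=
    natcard_le (Loc k n) (cS (Bad k n)) toM toM_inj fun G hG =>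
      (mem_cS _ _).2 ⟨toM_alt G, Bad_of_Loc hk hG⟩
  have h2 : (Nat.card (SimpleGraph (Fin n)) : ℝ) = al n := by
    rw [al, card_alt_eq]
  rw [h2, div_le_iff₀ (al_pos n)]
  refine le_trans ?_ (cn_Bad hn)
  exact_mod_cast h1

end GS4
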