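import Pool.Agent.helper97.GS4.LB2
import Pool.Agent.helper97.GS4.Up

/-!
# Godsil-McKay switching with respect to four vertices
-/

set_option autoImplicit false
set_option linter.unusedSectionVars false
set_option linter.unusedSimpArgs false

namespace GS4

open Matrix Finset DS DQ

variable {V : Type*} [Fintype V] [DecidableEq V]

/-- The switching matrix. -/
noncomputable def QI (I : Finset V) : Matrix V V ℝ := Matrix.of fun w u =>
  (if w ∈ I ∧ u ∈ I then 1 / 2 else 0) + (if w = u then (if u ∈ I then -1 else 1) else 0)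

theorem QI_sum (I : Finset V) (u : V) (f : V → ℝ) :
    ∑ w, QI I w u * f w = if u ∈ I then (∑ w ∈ I, f w) / 2 - f u else f u := by
  have h1 : ∀ w, QI I w u * f w = (if w ∈ I ∧ u ∈ I then f w / 2 else 0) +
      (if w = u then (if u ∈ I then - f u else f u) else 0) := by
    intro w
    simp only [QI, Matrix.of_apply]
    by_cases hw : w = u
    · subst hw
      by_cases hI : w ∈ I
      · simp only [hI, and_self, if_true]; ring
      · simp only [hI, and_self, if_false, if_true]; ring
    · simp only [hw, if_false]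
      by_cases hI : w ∈ I ∧ u ∈ I
      · rw [if_pos hI, if_pos hI]; ring
      · rw [if_neg hI, if_neg hI]; ring
  rw [Finset.sum_congr rfl fun w _ => h1 w, Finset.sum_add_distrib, Finset.sum_ite_eq' univ u,
    if_pos (mem_univ _)]
  by_cases hu : u ∈ I
  · rw [if_pos hu, if_pos hu]
    have h2 : ∑ w, (if w ∈ I ∧ u ∈ I then f w / 2 else 0) = (∑ w ∈ I, f w) / 2 := by
      simp only [hu, and_true]
      rw [Finset.sum_ite_mem, Finset.univ_inter, Finset.sum_div]
    rw [h2]
    ring
  · rw [if_neg hu, if_neg hu]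
    have h2 : ∑ w, (if w ∈ I ∧ u ∈ I then f w / 2 else 0) = 0 := by
      simp only [hu, and_false, if_false, Finset.sum_const_zero]
    rw [h2, zero_add]

theorem QI_col (I : Finset V) (hI : I.card = 4) (v : V) :
    ∑ w ∈ I, QI I w v = if v ∈ I then 1 else 0 := by
  by_cases hv : v ∈ I
  · rw [if_pos hv]
    have h1 : ∀ w ∈ I, QI I w v = 1 / 2 + if w = v then -1 else 0 := by
      intro w hw
      simp only [QI, Matrix.of_apply, hw, hv, and_self, if_true]
    rw [Finset.sum_congr rfl h1, Finset.sum_add_distrib, Finset.sum_const, hI,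
      Finset.sum_ite_eq' I v, if_pos hv]
    norm_num
  · rw [if_neg hv]
    refine Finset.sum_eq_zero fun w hw => ?_
    have hne : w ≠ v := by rintro rfl; exact hv hw
    simp only [QI, Matrix.of_apply, hv, and_false, if_false, hne, add_zero]

theorem QI_orth (I : Finset V) (hI : I.card = 4) : (QI I)ᵀ * QI I = 1 := by
  ext u v
  rw [Matrix.mul_apply]
  simp only [Matrix.transpose_apply]
  rw [QI_sum I u fun w => QI I w v, QI_col I hI, Matrix.one_apply]
  by_cases hu : u ∈ I <;> by_cases hv : v ∈ I <;> by_cases huv : u = v <;>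
    simp only [QI, Matrix.of_apply, hu, hv, huv, and_self, and_true, and_false, true_and,
      false_and, if_true, if_false] <;> norm_num

theorem QI_unit (I : Finset V) {j : V} (hj : j ∉ I) : (fun v => QI I v j) = Pi.single j 1 := by
  funext v
  simp only [QI, Matrix.of_apply, hj, and_false, if_false, zero_add]
  by_cases hv : v = j
  · rw [if_pos hv, hv, Pi.single_eq_same]
  · rw [if_neg hv, Pi.single_eq_of_ne hv]

/-- The vertices with exactly two neighbours in `I`. -/
noncomputable def tw (I : Finset V) (A : Matrix V V F) (x : V) : F :=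
  if ∑ u ∈ I, re (A u x) = 2 then 1 else 0

/-- The switched matrix. -/
noncomputable def swm (I : Finset V) (A : Matrix V V F) : Matrix V V F :=
  A + cr I fun x _ => tw I A x

theorem swm_alt {I : Finset V} {A : Matrix V V F} (hA : IsAlt A) : IsAlt (swm I A) :=
  hA.add (cr_alt I _)

theorem swm_in {I : Finset V} {A : Matrix V V F} {u v : V} (h : u ∈ I ↔ v ∈ I) :
    swm I A u v = A u v := by
  rw [swm, Matrix.add_apply, cr, bip, Matrix.of_apply, if_neg, if_neg, add_zero]
  · rintro ⟨h1, h2⟩
    exact (mem_sdiff.1 h2).2 (h.2 h1)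
  · rintro ⟨h1, h2⟩
    exact (mem_sdiff.1 h2).2 (h.1 h1)

theorem re_sum_cases {I : Finset V} (hI : I.card = 4) {A : Matrix V V F} {x : V}
    (h : ∑ u ∈ I, A u x = 0) (u : V) (hu : u ∈ I) :
    re (A u x + tw I A x) = (∑ w ∈ I, re (A w x)) / 2 - re (A u x) := by
  obtain ⟨a, b, c, d, hab, hac, had, hbc, hbd, hcd, hIe⟩ := Finset.card_eq_four.1 hI
  have hs : ∀ {M : Type} [AddCommMonoid M] (f : V → M), ∑ w ∈ I, f w = f a + (f b + (f c + f d)) := by
    intro M _ f
    rw [hIe, Finset.sum_insert, Finset.sum_insert, Finset.sum_insert, Finset.sum_singleton]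
    · simpa using hcd
    · simp [hbc, hbd]
    · simp [hab, hac, had]
  rw [hs] at h
  have hsr := hs fun w => re (A w x)
  rw [tw, hsr]
  have hu' : u = a ∨ u = b ∨ u = c ∨ u = d := by
    rw [hIe] at hu
    simpa only [mem_insert, mem_singleton] using hu
  rcases F_cases (A a x) with ea | ea <;> rcases F_cases (A b x) with eb | eb <;>
    rcases F_cases (A c x) with ec | ec <;> rcases F_cases (A d x) with ed | ed <;>
    rw [ea, eb, ec, ed] at h ⊢ <;>
    first
      | (exfalso; revert h; decide)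
      | (rcases hu' with rfl | rfl | rfl | rfl <;> simp only [ea, eb, ec, ed, re_zero, re_one] <;>
          norm_num [re_zero, re_one, F_add_self])

theorem swm_cross {I : Finset V} (hI : I.card = 4) {A : Matrix V V F} (h : EvI I A) {u x : V}
    (hu : u ∈ I) (hx : x ∉ I) : re (swm I A u x) = (∑ w ∈ I, re (A w x)) / 2 - re (A u x) := by
  have h1 : swm I A u x = A u x + tw I A x := by
    rw [swm, Matrix.add_apply]
    congr 1
    exact cr_apply I (fun x _ => tw I A x) ⟨x, hx⟩ ⟨u, hu⟩
  rw [h1]
  exact re_sum_cases hI (h.1 x hx) u hu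

/-- The similarity. -/
theorem swm_conj {I : Finset V} (hI : I.card = 4) {A : Matrix V V F} (hA : IsAlt A)
    (h : EvI I A) (u v : V) :
    ∑ w, QI I w u * ∑ w', QI I w' v * re (A w w') = re (swm I A u v) := by
  have hsym : ∀ u v, A u v = A v u := fun u v => by
    conv_lhs => rw [← hA.1]
    rfl
  have hsym' : ∀ u v, swm I A u v = swm I A v u := fun u v => by
    conv_lhs => rw [← (swm_alt (I := I) hA).1]
    rfl
  have h1 : ∀ w, ∑ w', QI I w' v * re (A w w') =
      if v ∈ I then (∑ w' ∈ I, re (A w w')) / 2 - re (A w v) else re (A w v) := fun w =>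
    QI_sum I v fun w' => re (A w w')
  simp only [h1]
  rw [QI_sum I u]
  by_cases hv : v ∈ I
  · simp only [if_pos hv]
    by_cases hu : u ∈ I
    · rw [if_pos hu, swm_in (by simp only [hu, hv])]
      have h2 : ∀ w ∈ I, (∑ w' ∈ I, re (A w w')) = ∑ w' ∈ I, re (A w' v) := by
        intro w hw
        rw [← h.2 w hw v hv]
        exact Finset.sum_congr rfl fun w' _ => by rw [hsym]
      rw [h2 u hu, Finset.sum_congr rfl fun w hw => by rw [h2 w hw],
        Finset.sum_sub_distrib, Finset.sum_const, hI]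
      simp only [nsmul_eq_mul]
      push_cast
      ring
    · rw [if_neg hu, hsym' u v, swm_cross hI h hv hu]
      rw [Finset.sum_congr rfl fun w' _ => by rw [hsym u w'], hsym u v]
  · simp only [if_neg hv]
    by_cases hu : u ∈ I
    · rw [if_pos hu, swm_cross hI h hu hv]
    · rw [if_neg hu, swm_in (by simp only [hu, hv])]

/-- The degrees of the vertices outside of `I` do not change. -/
theorem swm_deg_out {I : Finset V} (hI : I.card = 4) {A : Matrix V V F} (hA : IsAlt A)
    (h : EvI I A) {x : V} (hx : x ∉ I) : ∑ w, re (swm I A x w) = ∑ w, re (A x w) := by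
  classical
  have hsym : ∀ u v, A u v = A v u := fun u v => by
    conv_lhs => rw [← hA.1]
    rfl
  have hsym' : ∀ u v, swm I A u v = swm I A v u := fun u v => by
    conv_lhs => rw [← (swm_alt (I := I) hA).1]
    rfl
  rw [← Finset.sum_add_sum_compl I, ← Finset.sum_add_sum_compl I fun w => re (A x w)]
  congr 1
  · have h1 : ∀ w ∈ I, re (swm I A x w) = (∑ w ∈ I, re (A w x)) / 2 - re (A w x) := fun w hw => by
      rw [hsym' x w, swm_cross hI h hw hx]
    have h2 : ∑ w ∈ I, re (A x w) = ∑ w ∈ I, re (A w x) :=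
      Finset.sum_congr rfl fun w _ => by rw [hsym x w]
    rw [Finset.sum_congr rfl h1, Finset.sum_sub_distrib, Finset.sum_const, hI, nsmul_eq_mul, h2]
    push_cast
    ring
  · refine Finset.sum_congr rfl fun w hw => ?_
    rw [mem_compl] at hw
    rw [swm_in (by simp only [hx, hw])]

/-- A coincidence of the degrees makes the walk return. -/
theorem swm_deg_in {I : Finset V} (hI : I.card = 4) {A : Matrix V V F}
    (hA : IsAlt A) (h : EvI I A) (a j : {u // u ∈ I})
    (hd : ∑ w, re (A a w) = ∑ w, re (swm I A j w)) : Bal I a j A := by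
  classical
  have hsym : ∀ u v, A u v = A v u := fun u v => by
    conv_lhs => rw [← hA.1]
    rfl
  refine ⟨h.1, ?_⟩
  rw [← Finset.sum_add_sum_compl I, ← Finset.sum_add_sum_compl I fun w => re (swm I A j w)] at hd
  have h1 : ∑ w ∈ I, re (A a w) = ∑ w ∈ I, re (swm I A j w) := by
    have h2 := h.2 a a.2 j j.2
    rw [Finset.sum_congr rfl fun w _ => by rw [hsym a w], h2]
    refine Finset.sum_congr rfl fun w hw => ?_
    rw [swm_in (by simp only [j.2, hw]), hsym]
  rw [h1] at hd
  have h3 := add_left_cancel hd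
  have h4 : ∑ w ∈ Iᶜ, (re (A a w) + re (A j w) - (∑ u ∈ I, re (A u w)) / 2) = 0 := by
    have h5 : ∑ w ∈ Iᶜ, re (swm I A j w) =
        ∑ w ∈ Iᶜ, ((∑ u ∈ I, re (A u w)) / 2 - re (A j w)) := by
      refine Finset.sum_congr rfl fun w hw => ?_
      rw [mem_compl] at hw
      exact swm_cross hI h j.2 hw
    rw [h5] at h3
    have h6 : ∑ w ∈ Iᶜ, (re (A a w) + re (A j w) - (∑ u ∈ I, re (A u w)) / 2) =
        ∑ w ∈ Iᶜ, re (A a w) - ∑ w ∈ Iᶜ, ((∑ u ∈ I, re (A u w)) / 2 - re (A j w)) := by
      rw [← Finset.sum_sub_distrib]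
      exact Finset.sum_congr rfl fun w _ => by ring
    rw [h6, h3, sub_self]
  rw [← h4, Finset.sum_subtype Iᶜ (p := fun x => x ∉ I) (fun x => mem_compl)]
  refine Finset.sum_congr rfl fun x _ => ?_
  rw [xi, Finset.sum_coe_sort I fun u => re (A u x)]

/-- A graph of Godsil-McKay type with different degrees has a local mate. -/
theorem Loc_of {n : ℕ} {G : SimpleGraph (Fin n)} {I : Finset (Fin n)} (hI : I.card = 4)
    (h : EvI I (toM G)) (a : {u // u ∈ I}) (hB : ∀ j : {u // u ∈ I}, ¬ Bal I a j (toM G)) :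
    Loc 4 n G := by
  classical
  have hA := toM_alt G
  obtain ⟨H, hH⟩ : ∃ H : SimpleGraph (Fin n), toM H = swm I (toM G) :=
    ⟨ofM (swm I (toM G)), toM_ofM (swm_alt hA)⟩
  refine ⟨H, QI I, ?_, QI_orth I hI, ?_, ?_⟩
  · rintro ⟨φ⟩
    have hdeg : ∀ v, ∑ w, re (toM G v w) = ∑ w, re (swm I (toM G) (φ v) w) := by
      intro v
      rw [← Equiv.sum_comp φ.toEquiv fun w => re (swm I (toM G) (φ v) w)]
      refine Finset.sum_congr rfl fun w _ => ?_
      rw [← hH, toM_re, toM_re, SimpleGraph.adjMatrix_apply, SimpleGraph.adjMatrix_apply]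
      have : H.Adj (φ v) (φ.toEquiv w) ↔ G.Adj v w := φ.map_rel_iff'
      by_cases h1 : G.Adj v w
      · rw [if_pos h1, if_pos (this.2 h1)]
      · rw [if_neg h1, if_neg fun h2 => h1 (this.1 h2)]
    have hcard : (univ.filter fun v => ∑ w, re (toM G v w) = ∑ w, re (toM G a w)).card =
        (univ.filter fun v => ∑ w, re (swm I (toM G) v w) = ∑ w, re (toM G a w)).card := by
      refine Finset.card_bij (fun v _ => φ v) ?_ ?_ ?_
      · intro v hv
        rw [mem_filter] at hv ⊢
        exact ⟨mem_univ _, by rw [← hdeg v, hv.2]⟩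
      · intro v _ w _ he
        exact φ.injective he
      · intro v hv
        rw [mem_filter] at hv
        refine ⟨φ.symm v, ?_, φ.apply_symm_apply v⟩
        rw [mem_filter, hdeg, φ.apply_symm_apply]
        exact ⟨mem_univ _, hv.2⟩
    have hin : ((univ.filter fun v => ∑ w, re (toM G v w) = ∑ w, re (toM G a w)) ∩ I).card =
        ((univ.filter fun v => ∑ w, re (swm I (toM G) v w) = ∑ w, re (toM G a w)) ∩ I).card := by
      have e1 := Finset.card_sdiff_add_card_inter
        (univ.filter fun v => ∑ w, re (toM G v w) = ∑ w, re (toM G a w)) I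
      have e2 := Finset.card_sdiff_add_card_inter
        (univ.filter fun v => ∑ w, re (swm I (toM G) v w) = ∑ w, re (toM G a w)) I
      have e3 : (univ.filter fun v => ∑ w, re (toM G v w) = ∑ w, re (toM G a w)) \ I =
          (univ.filter fun v => ∑ w, re (swm I (toM G) v w) = ∑ w, re (toM G a w)) \ I := by
        ext v
        rw [mem_sdiff, mem_sdiff, mem_filter, mem_filter]
        constructor
        · rintro ⟨⟨-, h1⟩, h2⟩
          exact ⟨⟨mem_univ _, by rw [swm_deg_out hI hA h h2, h1]⟩, h2⟩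
        · rintro ⟨⟨-, h1⟩, h2⟩
          exact ⟨⟨mem_univ _, by rw [← swm_deg_out hI hA h h2, h1]⟩, h2⟩
      rw [e3] at e1
      omega
    have hpos : 0 < ((univ.filter fun v => ∑ w, re (toM G v w) = ∑ w, re (toM G a w)) ∩ I).card :=
      card_pos.2 ⟨a, mem_inter.2 ⟨mem_filter.2 ⟨mem_univ _, rfl⟩, a.2⟩⟩
    rw [hin] at hpos
    obtain ⟨j, hj⟩ := card_pos.1 hpos
    rw [mem_inter, mem_filter] at hj
    exact hB ⟨j, hj.2⟩ (swm_deg_in hI hA h a ⟨j, hj.2⟩ hj.1.2.symm)
  · ext u v
    rw [← toM_re, hH, ← swm_conj hI hA h u v, Matrix.mul_assoc, Matrix.mul_apply]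
    refine Finset.sum_congr rfl fun w _ => ?_
    rw [Matrix.mul_apply, Matrix.transpose_apply]
    congr 1
    refine Finset.sum_congr rfl fun w' _ => ?_
    rw [toM_re, mul_comm]
  · refine (Set.ncard_le_ncard (t := (I : Set (Fin n))) ?_ (Finset.finite_toSet _)).trans ?_
    · intro j hj
      by_contra hjI
      refine hj ?_
      rw [Set.ncard_eq_one]
      refine ⟨j, ?_⟩
      ext i
      show QI I i j ≠ 0 ↔ i = j
      rw [show QI I i j = (Pi.single j 1 : Fin n → ℝ) i from congrFun (QI_unit I hjI) i,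
        Pi.single_apply]
      by_cases h1 : i = j <;> simp [h1]
    · rw [Set.ncard_coe_finset, hI]

theorem Loc_mono {k k' n : ℕ} (h : k ≤ k') {G : SimpleGraph (Fin n)} (hG : Loc k n G) :
    Loc k' n G := by
  obtain ⟨H, Q, h1, h2, h3, h4⟩ := hG
  exact ⟨H, Q, h1, h2, h3, h4.trans h⟩

end GS4
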