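import Pool.Agent.helper97.GS4.LB3

/-!
# The lower bound
-/

set_option autoImplicit false
set_option linter.unusedSectionVars false

namespace GS4

open Matrix Finset DS DQ

variable {V : Type*} [Fintype V] [DecidableEq V]

theorem cn_sum (P : Matrix V V F → Prop) [DecidablePred P] :
    cn P = ∑ A ∈ altSet V, if P A then 1 else 0 := by
  classical
  rw [cn, cS, Finset.card_filter]
  exact Finset.sum_congr rfl fun A _ => by congr

/-- The second Bonferroni inequality. -/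
theorem bonf {ι : Type*} [DecidableEq ι] (s : Finset ι) (P : ι → Matrix V V F → Prop) :
    ∑ i ∈ s, cn (P i) ≤ cn (fun A => ∃ i ∈ s, P i A) +
      ∑ p ∈ s.offDiag, cn (fun A => P p.1 A ∧ P p.2 A) := by
  classical
  simp only [cn_sum]
  rw [Finset.sum_comm, Finset.sum_comm (s := s.offDiag), ← Finset.sum_add_distrib]
  refine Finset.sum_le_sum fun A _ => ?_
  rw [← Finset.card_filter, ← Finset.card_filter]
  have h1 : s.offDiag.filter (fun p => P p.1 A ∧ P p.2 A) = (s.filter fun i => P i A).offDiag := by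
    ext p
    simp only [mem_filter, mem_offDiag]
    tauto
  rw [h1, Finset.offDiag_card]
  by_cases h : ∃ i ∈ s, P i A
  · rw [if_pos h]
    obtain ⟨i, hi, hP⟩ := h
    have hpos : 0 < (s.filter fun i => P i A).card := card_pos.2 ⟨i, mem_filter.2 ⟨hi, hP⟩⟩
    generalize (s.filter fun i => P i A).card = c at hpos ⊢
    obtain ⟨d, rfl⟩ : ∃ d, c = d + 1 := ⟨c - 1, by omega⟩
    have : (d + 1) * (d + 1) - (d + 1) = d * (d + 1) := by
      rw [add_mul, one_mul, Nat.add_sub_cancel]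
    rw [this]
    nlinarith
  · have : s.filter (fun i => P i A) = ∅ := by
      rw [Finset.filter_eq_empty_iff]
      intro i hi hP
      exact h ⟨i, hi, hP⟩
    rw [this]
    simp

/-- The good event. -/
def Gd (I : Finset V) (A : Matrix V V F) : Prop :=
  EvI I A ∧ ∀ a j : {u // u ∈ I}, ¬ Bal I a j A

theorem cn_Gd (I : Finset V) (hI : I.card = 4) (B : ℕ) (hB : ∀ a j, cn (Bal I a j) ≤ B) :
    cn (EvI I) ≤ cn (Gd I) + 16 * B := by
  classical
  have h1 : cn (EvI I) ≤ cn (fun A => Gd I A ∨ ∃ p ∈ (univ : Finset ({u // u ∈ I} × {u // u ∈ I})),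
      Bal I p.1 p.2 A) := by
    refine cn_mono fun A _ h => ?_
    by_cases hg : Gd I A
    · exact Or.inl hg
    · right
      unfold Gd at hg
      push Not at hg
      obtain ⟨a, j, hb⟩ := hg h
      exact ⟨(a, j), mem_univ _, hb⟩
  refine h1.trans ((cn_or _ _).trans (Nat.add_le_add_left ?_ _))
  refine (cn_union univ fun (p : {u // u ∈ I} × {u // u ∈ I}) A => Bal I p.1 p.2 A).trans ?_
  refine (Finset.sum_le_sum fun p _ => hB p.1 p.2).trans ?_
  rw [Finset.sum_const, card_univ, Fintype.card_prod, Fintype.card_coe, hI, smul_eq_mul]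

theorem cn_Bal {n : ℕ} (I : Finset (Fin n)) (hI : I.card = 4) (J : ℕ) (a j : {u // u ∈ I}) :
    (cn (Bal I a j) : ℝ) ≤ ((Nat.centralBinom J : ℝ) / 4 ^ J * (1 / 2) ^ (n - 4) +
      16 ^ J * (7 / 16) ^ (n - 4)) * al n := by
  have h1 := Bal_bound I a j
  have h4 : Fintype.card {u // u ∈ I} = 4 := by rw [Fintype.card_coe, hI]
  have h2 := walk (W := {x // x ∉ I}) h4 a j J
  rw [Fintype.card_subtype_compl, Fintype.card_coe, hI, Fintype.card_fin] at h2
  rw [hI, Fintype.card_fin] at h1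
  have h1' : (cn (Bal I a j) : ℝ) * 16 ^ (n - 4) ≤ ((Sb {x // x ∉ I} a j).card : ℝ) * al n := by
    rw [al]
    have : (16 : ℕ) = 2 ^ 4 := by norm_num
    have h3 : ((cn (Bal I a j) * 16 ^ (n - 4) : ℕ) : ℝ) ≤
        (((Sb {x // x ∉ I} a j).card * (altSet (Fin n)).card : ℕ) : ℝ) := by
      rw [this]
      exact_mod_cast h1
    push_cast at h3
    exact h3
  have h2' : ((Sb {x // x ∉ I} a j).card : ℝ) * 4 ^ J ≤ (Nat.centralBinom J : ℝ) * 8 ^ (n - 4) +
      4 ^ J * (16 ^ J * 7 ^ (n - 4)) := by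
    have h3 : (2 : ℕ) ^ (4 * J) = 16 ^ J := by
      rw [pow_mul]
      norm_num
    rw [h3] at h2
    exact_mod_cast h2
  have h3 : ((Sb {x // x ∉ I} a j).card : ℝ) ≤
      ((Nat.centralBinom J : ℝ) / 4 ^ J * (1 / 2) ^ (n - 4) + 16 ^ J * (7 / 16) ^ (n - 4)) *
        16 ^ (n - 4) := by
    have h4J : (0 : ℝ) < 4 ^ J := by positivity
    have e1 : (1 / 2 : ℝ) ^ (n - 4) * 16 ^ (n - 4) = 8 ^ (n - 4) := by
      rw [← mul_pow]; norm_num
    have e2 : (7 / 16 : ℝ) ^ (n - 4) * 16 ^ (n - 4) = 7 ^ (n - 4) := by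
      rw [← mul_pow]; norm_num
    have e3 : ((Nat.centralBinom J : ℝ) / 4 ^ J * (1 / 2) ^ (n - 4) + 16 ^ J * (7 / 16) ^ (n - 4)) *
        16 ^ (n - 4) = (Nat.centralBinom J : ℝ) / 4 ^ J * 8 ^ (n - 4) + 16 ^ J * 7 ^ (n - 4) := by
      rw [← e1, ← e2]; ring
    rw [e3]
    refine le_of_mul_le_mul_right (le_trans h2' (le_of_eq ?_)) h4J
    field_simp
  have h5 : (cn (Bal I a j) : ℝ) * 16 ^ (n - 4) ≤
      (((Nat.centralBinom J : ℝ) / 4 ^ J * (1 / 2) ^ (n - 4) + 16 ^ J * (7 / 16) ^ (n - 4)) *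
        al n) * 16 ^ (n - 4) := by
    calc _ ≤ _ := h1'
      _ ≤ _ := mul_le_mul_of_nonneg_right h3 (al_pos n).le
      _ = _ := by ring
  exact le_of_mul_le_mul_right h5 (by positivity)

theorem cn_EvI_ge {n : ℕ} (hn : 1 ≤ n) {I : Finset (Fin n)} (hI : I.card = 4) :
    2 / 2 ^ n * al n ≤ (cn (EvI I) : ℝ) := by
  have h := EvI_ge I hI
  rw [Fintype.card_fin] at h
  have h1 : al n ≤ (cn (EvI I) : ℝ) * 2 ^ (n - 1) := by
    rw [al]
    exact_mod_cast h
  have h2 : (2 : ℝ) ^ n = 2 ^ (n - 1) * 2 := by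
    rw [← pow_succ, Nat.sub_add_cancel hn]
  rw [h2, div_mul_eq_mul_div, div_le_iff₀ (by positivity)]
  linarith

theorem cn_pair {n : ℕ} {I I' : Finset (Fin n)} (hI : I.card = 4) (hI' : I'.card = 4)
    (hne : I ≠ I') : (cn (fun A => EvI I A ∧ EvI I' A) : ℝ) ≤ (1 / 4) ^ (n - 8) * al n := by
  have h := pair_bound I I' hI hI' hne
  rw [Fintype.card_fin] at h
  have h1 : (cn (fun A => EvI I A ∧ EvI I' A) : ℝ) * 4 ^ (n - 8) ≤ al n := by
    rw [al]
    exact_mod_cast h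
  rw [one_div, inv_pow, ← div_eq_inv_mul, le_div_iff₀ (by positivity)]
  exact h1

theorem lower {k n : ℕ} (hn : 1 ≤ n) (hk : 4 ≤ k) (J : ℕ) :
    (n.choose 4 : ℝ) * (2 / 2 ^ n - 16 * ((Nat.centralBinom J : ℝ) / 4 ^ J * (1 / 2) ^ (n - 4) +
      16 ^ J * (7 / 16) ^ (n - 4))) - (n.choose 4 : ℝ) ^ 2 * (1 / 4) ^ (n - 8) ≤
    (Nat.card {G : SimpleGraph (Fin n) // Loc k n G} : ℝ) / Nat.card (SimpleGraph (Fin n)) := by
  classical
  set E : ℝ := (Nat.centralBinom J : ℝ) / 4 ^ J * (1 / 2) ^ (n - 4) +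
      16 ^ J * (7 / 16) ^ (n - 4) with hE
  set s := powersetCard 4 (univ : Finset (Fin n)) with hs
  have hsI : ∀ I ∈ s, I.card = 4 := fun I hI => (mem_powersetCard.1 hI).2
  have hsc : (s.card : ℝ) = n.choose 4 := by
    rw [hs, card_powersetCard, card_univ, Fintype.card_fin]
  have h1 : (∑ I ∈ s, (cn (Gd I) : ℝ)) ≤ (cn (fun A => ∃ I ∈ s, Gd I A) : ℝ) +
      ∑ p ∈ s.offDiag, (cn (fun A => Gd p.1 A ∧ Gd p.2 A) : ℝ) := by
    exact_mod_cast bonf s fun I A => Gd I A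
  have h2 : ∀ p ∈ s.offDiag, (cn (fun A => Gd p.1 A ∧ Gd p.2 A) : ℝ) ≤ (1 / 4) ^ (n - 8) * al n := by
    intro p hp
    rw [mem_offDiag] at hp
    refine le_trans ?_ (cn_pair (hsI _ hp.1) (hsI _ hp.2.1) hp.2.2)
    have : cn (fun A => Gd p.1 A ∧ Gd p.2 A) ≤ cn (fun A => EvI p.1 A ∧ EvI p.2 A) :=
      cn_mono fun A _ h => ⟨h.1.1, h.2.1⟩
    exact_mod_cast this
  have h3 : ∑ p ∈ s.offDiag, (cn (fun A => Gd p.1 A ∧ Gd p.2 A) : ℝ) ≤
      (n.choose 4 : ℝ) ^ 2 * ((1 / 4) ^ (n - 8) * al n) := by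
    refine (Finset.sum_le_sum h2).trans ?_
    rw [Finset.sum_const, nsmul_eq_mul]
    refine mul_le_mul_of_nonneg_right ?_ (mul_nonneg (by positivity) (al_pos n).le)
    rw [← hsc, sq]
    have : s.offDiag.card ≤ s.card * s.card := by
      rw [Finset.offDiag_card]
      exact Nat.sub_le _ _
    exact_mod_cast this
  have h4 : ∀ I ∈ s, (2 / 2 ^ n - 16 * E) * al n ≤ (cn (Gd I) : ℝ) := by
    intro I hI
    have hI4 := hsI I hI
    have hB : ∀ a j, cn (Bal I a j) ≤ ⌊E * al n⌋₊ := fun a j =>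
      Nat.le_floor (cn_Bal I hI4 J a j)
    have h5 := cn_Gd I hI4 _ hB
    have h6 := cn_EvI_ge hn hI4
    have hE0 : 0 ≤ E * al n := mul_nonneg (by positivity) (al_pos n).le
    have h7 := Nat.floor_le hE0
    have h8 : (cn (EvI I) : ℝ) ≤ cn (Gd I) + 16 * (⌊E * al n⌋₊ : ℝ) := by exact_mod_cast h5
    linarith
  have h5 : (n.choose 4 : ℝ) * ((2 / 2 ^ n - 16 * E) * al n) ≤ ∑ I ∈ s, (cn (Gd I) : ℝ) := by
    rw [← hsc, ← nsmul_eq_mul, ← Finset.sum_const]
    exact Finset.sum_le_sum h4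
  have h6 : cn (fun A => ∃ I ∈ s, Gd I A) ≤
      Nat.card {G : SimpleGraph (Fin n) // Loc k n G} := by
    rw [Nat.card_eq_fintype_card, Fintype.card_subtype, cn]
    refine Finset.card_le_card_of_injOn ofM ?_ ?_
    · intro A hA
      rw [mem_coe, mem_cS] at hA
      obtain ⟨hA, I, hI, hG⟩ := hA
      rw [mem_coe, mem_filter]
      refine ⟨mem_univ _, Loc_mono hk ?_⟩
      have hI4 := hsI I hI
      obtain ⟨a, ha⟩ : I.Nonempty := card_pos.1 (by omega)
      exact Loc_of hI4 (by rw [toM_ofM hA]; exact hG.1) ⟨a, ha⟩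
        fun j => by rw [toM_ofM hA]; exact hG.2 _ j
    · intro A hA A' hA' he
      rw [mem_coe, mem_cS] at hA hA'
      rw [← toM_ofM hA.1, he, toM_ofM hA'.1]
  have h7 : (Nat.card (SimpleGraph (Fin n)) : ℝ) = al n := by
    rw [al, card_alt_eq]
  have h8 : (cn (fun A => ∃ I ∈ s, Gd I A) : ℝ) ≤
      Nat.card {G : SimpleGraph (Fin n) // Loc k n G} := by exact_mod_cast h6
  rw [h7, le_div_iff₀ (al_pos n)]
  calc _ = (n.choose 4 : ℝ) * ((2 / 2 ^ n - 16 * E) * al n) -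
        (n.choose 4 : ℝ) ^ 2 * ((1 / 4) ^ (n - 8) * al n) := by ring
    _ ≤ _ := by linarith

end GS4
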