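import Pool.Agent.helper97.GS4.Red

/-!
# Unit columns with different signs
-/

set_option autoImplicit false
set_option linter.unusedSectionVars false

namespace GS4

open Matrix Finset DS DQ

section
variable {R J : Type*} [Fintype R] [DecidableEq R] [Fintype J] [DecidableEq J]

/-- A fractional row halves the set. -/
theorem half {N : R → J → ℝ} (h : Rw N) {r : R} (hr : fr N r) :
    (SN N).card * 2 ≤ 2 ^ Fintype.card R := by
  classical
  have h1 := tav (SN N) (fun u : Bool => bs r u) 1 ?_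
  · rw [Fintype.card_bool, one_mul] at h1
    exact h1
  intro w
  refine le_trans (ct_inj (T := Unit) _ {()} (fun _ => ()) ?_ fun _ _ => mem_singleton_self _)
    (by simp)
  intro u u' hu hu' _
  have key : ∀ v : R → F, v ∈ SN N → v + bs r true ∉ SN N := one h hr
  cases u <;> cases u'
  · rfl
  · rw [bs_false, add_zero] at hu
    exact absurd hu' (key w hu)
  · rw [bs_false, add_zero] at hu'
    exact absurd hu (key w hu')
  · rfl

end

variable {V : Type*} [Fintype V] [DecidableEq V]

/-- The event of mixed signs. -/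
def EvM (K X : Finset V) (Zp Zm : Finset ({u // u ∈ K} → F)) (A : Matrix V V F) : Prop :=
  (∀ x, x ∉ K → (fun u : {u // u ∈ K} => A u x) ∈ if x ∈ X then Zm else Zp) ∧
  ∀ x ∈ X, ∀ y, y ∉ K → y ∉ X → A x y = 0

theorem EvM_bound (K X : Finset V) (hX : ∀ x ∈ X, x ∉ K) (Zp Zm : Finset ({u // u ∈ K} → F))
    (hp : Zp.card * 2 ≤ 2 ^ K.card) (hm : Zm.card * 2 ≤ 2 ^ K.card) :
    cn (EvM K X Zp Zm) * (2 ^ (Fintype.card V - K.card) *
      2 ^ (X.card * (Fintype.card V - K.card - X.card))) ≤ (altSet V).card := by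
  classical
  set m := Fintype.card V - K.card with hmdef
  have hc : Fintype.card {x // x ∉ K} = m := by
    rw [Fintype.card_subtype_compl, Fintype.card_coe]
  set Y := univ \ (K ∪ X) with hY
  have hKX : Disjoint K X := by
    rw [Finset.disjoint_right]
    exact hX
  have hYc : Y.card = m - X.card := by
    rw [hY, card_sdiff_of_subset (subset_univ _), card_univ, card_union_of_disjoint hKX]
    omega
  have hXY : Disjoint X Y := by
    rw [Finset.disjoint_left]
    intro x hx hy
    exact (mem_sdiff.1 hy).2 (mem_union_right _ hx)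
  have hYm : ∀ y, y ∈ Y ↔ y ∉ K ∧ y ∉ X := by
    intro y
    rw [hY, mem_sdiff, mem_union, not_or]
    exact ⟨fun h => h.2, fun h => ⟨mem_univ _, h⟩⟩
  let ψ : ({x // x ∈ X} → {y // y ∈ Y} → F) → Matrix V V F := fun h =>
    bip X Y fun x y => if c : x ∈ X ∧ y ∈ Y then h ⟨x, c.1⟩ ⟨y, c.2⟩ else 0
  have hψ : ∀ h, IsAlt (ψ h) := fun h => bip_alt hXY _
  have hψXY : ∀ h (x : {x // x ∈ X}) (y : {y // y ∈ Y}), ψ h x y = h x y := by
    intro h x y
    show bip _ _ _ _ _ = _
    rw [bip_of_mem _ x.2 y.2, dif_pos ⟨x.2, y.2⟩]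
  have hψK : ∀ h (u : V), u ∈ K → ∀ x, ψ h u x = 0 := by
    intro h u hu x
    show bip _ _ _ _ _ = _
    rw [bip, Matrix.of_apply, if_neg, if_neg]
    · rintro ⟨-, h2⟩
      exact ((hYm u).1 h2).1 hu
    · rintro ⟨h1, -⟩
      exact hX u h1 hu
  have hcrXY : ∀ g (x y : V), x ∉ K → y ∉ K → cr K g x y = 0 := by
    intro g x y hx hy
    rw [cr, bip, Matrix.of_apply, if_neg, if_neg]
    · rintro ⟨h1, -⟩
      exact hy h1
    · rintro ⟨h1, -⟩
      exact hx h1
  have hU : Fintype.card (({x // x ∉ K} → {u // u ∈ K} → F) ×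
      ({x // x ∈ X} → {y // y ∈ Y} → F)) = (2 ^ K.card) ^ m * 2 ^ (X.card * (m - X.card)) := by
    rw [Fintype.card_prod, Fintype.card_fun, card_fun, Fintype.card_coe, hc, Fintype.card_fun,
      card_fun, Fintype.card_coe, Fintype.card_coe, hYc]
    congr 1
    rw [← pow_mul, mul_comm]
  have main := avg (fun p : ({x // x ∉ K} → {u // u ∈ K} → F) ×
      ({x // x ∈ X} → {y // y ∈ Y} → F) => cr K p.1 + ψ p.2)
    (fun p => (cr_alt K p.1).add (hψ p.2)) (EvM K X Zp Zm)
    (Fintype.piFinset fun x : {x // x ∉ K} => if (x : V) ∈ X then Zm else Zp).card fun A _ => by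
    refine ct_inj _ (Fintype.piFinset fun x : {x // x ∉ K} => if (x : V) ∈ X then Zm else Zp)
      (fun p (x : {x // x ∉ K}) (u : {u // u ∈ K}) => A u x + p.1 x u) ?_ ?_
    · intro p p' hp hp' he
      refine Prod.ext ?_ ?_
      · funext x u
        exact add_left_cancel (congrFun (congrFun he x) u)
      · funext x y
        have hy := (hYm y).1 y.2
        have e1 := hp.2 x x.2 y hy.1 hy.2
        have e2 := hp'.2 x x.2 y hy.1 hy.2
        rw [Matrix.add_apply, Matrix.add_apply, hcrXY _ _ _ (hX x x.2) hy.1, hψXY, zero_add] at e1 e2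
        exact add_left_cancel (e1.trans e2.symm)
    · intro p hp
      rw [Fintype.mem_piFinset]
      intro x
      have h1 := hp.1 x x.2
      have h2 : (fun u : {u // u ∈ K} => (A + (cr K p.1 + ψ p.2)) u x) =
          fun u : {u // u ∈ K} => A u x + p.1 x u := by
        funext u
        rw [Matrix.add_apply, Matrix.add_apply, cr_apply, hψK _ _ u.2, add_zero]
      rw [h2] at h1
      exact h1
  have hB : (Fintype.piFinset fun x : {x // x ∉ K} => if (x : V) ∈ X then Zm else Zp).card * 2 ^ m ≤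
      (2 ^ K.card) ^ m := by
    rw [Fintype.card_piFinset, ← hc, ← Finset.card_univ, ← Finset.prod_const, ← Finset.prod_const,
      ← Finset.prod_mul_distrib]
    refine Finset.prod_le_prod' fun x _ => ?_
    split_ifs
    · exact hm
    · exact hp
  rw [hU] at main
  have h3 : (2 ^ K.card) ^ m * (cn (EvM K X Zp Zm) * (2 ^ m * 2 ^ (X.card * (m - X.card)))) ≤
      (2 ^ K.card) ^ m * (altSet V).card := by
    calc _ = (cn (EvM K X Zp Zm) * ((2 ^ K.card) ^ m * 2 ^ (X.card * (m - X.card)))) * 2 ^ m := by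
          ring
      _ ≤ ((Fintype.piFinset fun x : {x // x ∉ K} => if (x : V) ∈ X then Zm else Zp).card *
          (altSet V).card) * 2 ^ m := Nat.mul_le_mul_right _ main
      _ = ((Fintype.piFinset fun x : {x // x ∉ K} => if (x : V) ∈ X then Zm else Zp).card *
          2 ^ m) * (altSet V).card := by ring
      _ ≤ _ := Nat.mul_le_mul_right _ hB
  exact Nat.le_of_mul_le_mul_left h3 (by positivity)

/-- The reduction for mixed signs. -/
theorem red_mix {A : Matrix V V F} {Q : Matrix V V ℝ} (hon : On Q)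
    (hrow : ∀ u w, ∑ j, Q u j * Q w j = if u = w then 1 else 0) (hb : Bin A Q)
    (hnm : ¬ ∀ j, (sp Q j).card = 1) {k : ℕ} {K W : Finset V} {τ : V → V} (h : KW Q k K W τ)
    (hp : ∃ l ∈ W, Q (τ l) l = 1) (hm : ∃ l ∈ W, Q (τ l) l = -1) :
    ∃ X : Finset V, X ⊆ univ \ K ∧ X ≠ ∅ ∧ X ≠ univ \ K ∧ ∃ Zp ∈ SS {u // u ∈ K},
      ∃ Zm ∈ SS {u // u ∈ K}, Zp.card * 2 ≤ 2 ^ k ∧ Zm.card * 2 ≤ 2 ^ k ∧ EvM K X Zp Zm A := by
  classical
  have hon' : On (-Q) := by
    intro i j
    rw [← hon i j]
    exact Finset.sum_congr rfl fun v _ => by rw [Matrix.neg_apply, Matrix.neg_apply, neg_mul_neg]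
  have hrow' : ∀ u w, ∑ j, (-Q) u j * (-Q) w j = if u = w then 1 else 0 := by
    intro i j
    rw [← hrow i j]
    exact Finset.sum_congr rfl fun v _ => by rw [Matrix.neg_apply, Matrix.neg_apply, neg_mul_neg]
  have hR := h.rw hon hrow
  have hR' := h.neg.rw hon' hrow'
  obtain ⟨r, hr⟩ : ∃ r : {u // u ∈ K}, fr (fun (u : {u // u ∈ K}) (j : V) => Q u j) r := by
    by_contra hc
    push Not at hc
    exact hnm (h.mono hon hrow hc)
  have hr' : fr (fun (u : {u // u ∈ K}) (j : V) => (-Q) u j) r := by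
    intro j
    show (-Q) r j ^ 2 < 1
    rw [Matrix.neg_apply, neg_sq]
    exact hr j
  have hcR : Fintype.card {u // u ∈ K} = k := by rw [Fintype.card_coe, h.hK]
  have hh := half hR hr
  have hh' := half hR' hr'
  rw [hcR] at hh hh'
  set X := tS fun x => ∃ l ∈ W, τ l = x ∧ Q x l = -1 with hX
  have hXK : ∀ x ∈ X, x ∉ K := by
    intro x hx
    rw [hX, mem_tS] at hx
    obtain ⟨l, hl, rfl, -⟩ := hx
    exact h.out l hl
  have hsgn : ∀ l ∈ W, Q (τ l) l = 1 ∨ Q (τ l) l = -1 := by
    intro l hl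
    have h6 : (Q (τ l) l - 1) * (Q (τ l) l + 1) = 0 := by linear_combination h.sq l hl
    rcases mul_eq_zero.1 h6 with h7 | h7
    · left; linarith
    · right; linarith
  have huniq : ∀ l ∈ W, ∀ l' ∈ W, τ l = τ l' → l = l' := by
    intro l hl l' hl' he
    by_contra hne
    have h1 := row_zero' hrow (h.sq l hl) (Ne.symm hne)
    have h2 := h.sq l' hl'
    rw [← he, h1] at h2
    norm_num at h2
  have hplus : ∀ l ∈ W, τ l ∉ X → Q (τ l) l = 1 := by
    intro l hl hx
    refine (hsgn l hl).resolve_right fun hneg => hx ?_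
    rw [hX, mem_tS]
    exact ⟨l, hl, rfl, hneg⟩
  have hminus : ∀ l ∈ W, τ l ∈ X → Q (τ l) l = -1 := by
    intro l hl hx
    rw [hX, mem_tS] at hx
    obtain ⟨l', hl', he, hneg⟩ := hx
    have := huniq l' hl' l hl he
    rw [this] at hneg
    exact hneg
  have hQF : ∀ (y : V → ℝ) (l : V), l ∈ W →
      QF A y (fun v => Q v l) = Q (τ l) l * ∑ v, y v * re (A v (τ l)) := by
    intro y l hl
    rw [QF, Finset.mul_sum]
    refine Finset.sum_congr rfl fun v _ => ?_
    rw [Finset.sum_eq_single_of_mem (τ l) (mem_univ _)]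
    · ring
    · intro w _ hw
      rw [col_zero' hon (h.sq l hl) hw, mul_zero]
  refine ⟨X, ?_, ?_, ?_, _, h.mem_SS hon, _, h.neg.mem_SS hon', hh, hh', ?_, ?_⟩
  · intro x hx
    exact mem_sdiff.2 ⟨mem_univ _, hXK x hx⟩
  · obtain ⟨l, hl, hq⟩ := hm
    intro he
    have : τ l ∈ X := by
      rw [hX, mem_tS]
      exact ⟨l, hl, rfl, hq⟩
    rw [he] at this
    exact absurd this (notMem_empty _)
  · obtain ⟨l, hl, hq⟩ := hp
    intro he
    have h1 : τ l ∈ X := by
      rw [he]
      exact mem_sdiff.2 ⟨mem_univ _, h.out l hl⟩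
    have h2 := hminus l hl h1
    rw [hq] at h2
    norm_num at h2
  · intro x hx
    obtain ⟨l, hl, rfl⟩ := h.surj x hx
    have hval : ∀ j, j ∉ W → ∑ u : {u // u ∈ K}, Q u j * re (A u (τ l)) =
        ∑ v, Q v j * re (A v (τ l)) := fun j hj =>
      sum_K (fun v => Q v j * re (A v (τ l))) fun x hx => by
        rw [h.out_zero hrow hx hj, zero_mul]
    by_cases hxX : τ l ∈ X
    · rw [if_pos hxX, mem_SN]
      intro j
      have e1 : val (fun (u : {u // u ∈ K}) (j : V) => (-Q) u j) (fun u : {u // u ∈ K} => A u (τ l)) j =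
          - ∑ u : {u // u ∈ K}, Q u j * re (A u (τ l)) := by
        rw [val, ← Finset.sum_neg_distrib]
        exact Finset.sum_congr rfl fun u _ => by rw [Matrix.neg_apply, neg_mul]
      rw [e1]
      by_cases hj : j ∈ W
      · left
        rw [Finset.sum_eq_zero fun u _ => by rw [h.in_zero hon u.2 hj, zero_mul], neg_zero]
      · have h1 := hb j l
        rw [hQF _ l hl, hminus l hl hxX, neg_one_mul] at h1
        rw [hval j hj]
        exact h1
    · rw [if_neg hxX, mem_SN]
      intro j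
      by_cases hj : j ∈ W
      · left
        rw [val]
        exact Finset.sum_eq_zero fun u _ => by rw [h.in_zero hon u.2 hj, zero_mul]
      · have h1 := hb j l
        rw [hQF _ l hl, hplus l hl hxX, one_mul] at h1
        rw [val, hval j hj]
        exact h1
  · intro x hx y hyK hyX
    obtain ⟨l, hl, rfl⟩ := h.surj x (hXK x hx)
    obtain ⟨l', hl', rfl⟩ := h.surj y hyK
    have h1 := hb l l'
    rw [hQF _ l' hl', hplus l' hl' hyX, one_mul, Finset.sum_eq_single_of_mem (τ l) (mem_univ _),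
      hminus l hl hx] at h1
    · rcases F_cases (A (τ l) (τ l')) with e | e
      · exact e
      · exfalso
        rw [e, re_one] at h1
        rcases h1 with h1 | h1 <;> norm_num at h1
    · intro v _ hv
      rw [col_zero' hon (h.sq l hl) hv, zero_mul]

end GS4
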