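import Pool.Agent.helper97.GS4.Ev

/-!
# A local orthogonal similarity leads to one of the two events
-/

set_option autoImplicit false
set_option linter.unusedSectionVars false

namespace GS4

open Matrix Finset DS DQ

variable {V : Type*} [Fintype V] [DecidableEq V]

/-- The column `j` is the standard unit vector of `i`. -/
def Un (Q : Matrix V V ℝ) (j i : V) : Prop := ∀ v, Q v j = if v = i then 1 else 0

theorem rows_of {Q : Matrix V V ℝ} (h : Qᵀ * Q = 1) (u w : V) :
    ∑ j, Q u j * Q w j = if u = w then 1 else 0 := by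
  have h1 : Q * Qᵀ = 1 := mul_eq_one_comm.1 h
  have := congrFun (congrFun h1 u) w
  rw [Matrix.mul_apply, Matrix.one_apply] at this
  exact this

theorem QF_unit {A : Matrix V V F} {Q : Matrix V V ℝ} {l x : V} (h : Un Q l x) (y : V → ℝ) :
    QF A y (fun v => Q v l) = ∑ v, y v * re (A v x) := by
  rw [QF]
  refine Finset.sum_congr rfl fun v _ => ?_
  rw [Finset.sum_eq_single_of_mem x (mem_univ _)]
  · rw [h x, if_pos rfl, mul_one]
  · intro w _ hw
    rw [h w, if_neg hw, mul_zero]

/-- A unit entry makes the column a unit column. -/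
theorem Un_of_one {Q : Matrix V V ℝ} (hon : On Q) {l x : V} (h : Q x l = 1) : Un Q l x := by
  intro v
  by_cases hv : v = x
  · rw [if_pos hv, hv, h]
  · rw [if_neg hv]
    have h1 := hon.sq l
    have h2 : Q x l ^ 2 + Q v l ^ 2 ≤ ∑ r, Q r l ^ 2 := by
      rw [← Finset.sum_pair (f := fun r => Q r l ^ 2) (Ne.symm hv)]
      exact Finset.sum_le_sum_of_subset_of_nonneg (subset_univ _) fun _ _ _ => sq_nonneg _
    rw [h, h1] at h2
    have h3 : Q v l ^ 2 ≤ 0 := by linarith
    exact pow_eq_zero_iff (two_ne_zero) |>.1 (le_antisymm h3 (sq_nonneg _))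

/-- A unit entry makes the row a unit row. -/
theorem row_of_one {Q : Matrix V V ℝ} (hrow : ∀ u w, ∑ j, Q u j * Q w j = if u = w then 1 else 0)
    {l x : V} (h : Q x l = 1) (j : V) : Q x j = if j = l then 1 else 0 := by
  by_cases hj : j = l
  · rw [if_pos hj, hj, h]
  · rw [if_neg hj]
    have h1 : ∑ j, Q x j ^ 2 = 1 := by
      have := hrow x x
      rw [if_pos rfl] at this
      rw [← this]
      exact Finset.sum_congr rfl fun v _ => sq _
    have h2 : Q x l ^ 2 + Q x j ^ 2 ≤ ∑ j, Q x j ^ 2 := by
      rw [← Finset.sum_pair (f := fun j => Q x j ^ 2) (Ne.symm hj)]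
      exact Finset.sum_le_sum_of_subset_of_nonneg (subset_univ _) fun _ _ _ => sq_nonneg _
    rw [h, h1] at h2
    have h3 : Q x j ^ 2 ≤ 0 := by linarith
    exact pow_eq_zero_iff (two_ne_zero) |>.1 (le_antisymm h3 (sq_nonneg _))

/-- The entries of a column with a unit entry. -/
theorem col_zero' {Q : Matrix V V ℝ} (hon : On Q) {l x : V} (h : Q x l ^ 2 = 1) {v : V}
    (hv : v ≠ x) : Q v l = 0 := by
  have h1 := hon.sq l
  have h2 : Q x l ^ 2 + Q v l ^ 2 ≤ ∑ r, Q r l ^ 2 := by
    rw [← Finset.sum_pair (f := fun r => Q r l ^ 2) (Ne.symm hv)]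
    exact Finset.sum_le_sum_of_subset_of_nonneg (subset_univ _) fun _ _ _ => sq_nonneg _
  rw [h, h1] at h2
  have h3 : Q v l ^ 2 ≤ 0 := by linarith
  exact pow_eq_zero_iff (two_ne_zero) |>.1 (le_antisymm h3 (sq_nonneg _))

/-- The entries of a row with a unit entry. -/
theorem row_zero' {Q : Matrix V V ℝ} (hrow : ∀ u w, ∑ j, Q u j * Q w j = if u = w then 1 else 0)
    {l x : V} (h : Q x l ^ 2 = 1) {j : V} (hj : j ≠ l) : Q x j = 0 := by
  have h1 : ∑ j, Q x j ^ 2 = 1 := by
    have := hrow x x
    rw [if_pos rfl] at this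
    rw [← this]
    exact Finset.sum_congr rfl fun v _ => sq _
  have h2 : Q x l ^ 2 + Q x j ^ 2 ≤ ∑ j, Q x j ^ 2 := by
    rw [← Finset.sum_pair (f := fun j => Q x j ^ 2) (Ne.symm hj)]
    exact Finset.sum_le_sum_of_subset_of_nonneg (subset_univ _) fun _ _ _ => sq_nonneg _
  rw [h, h1] at h2
  have h3 : Q x j ^ 2 ≤ 0 := by linarith
  exact pow_eq_zero_iff (two_ne_zero) |>.1 (le_antisymm h3 (sq_nonneg _))

/-- A set `K` of rows and a set `W` of columns with unit entries outside of `K`. -/
structure KW (Q : Matrix V V ℝ) (k : ℕ) (K W : Finset V) (τ : V → V) : Prop where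
  hk : k ≤ Fintype.card V
  hK : K.card = k
  hW : W.card = Fintype.card V - k
  sq : ∀ l ∈ W, Q (τ l) l ^ 2 = 1
  out : ∀ l ∈ W, τ l ∉ K
  surj : ∀ x, x ∉ K → ∃ l ∈ W, τ l = x

theorem exists_KW {Q : Matrix V V ℝ} (hon : On Q) (k : ℕ) (hk : k ≤ Fintype.card V)
    (hcol : (tS fun j => ¬ (sp Q j).card = 1).card ≤ k) :
    ∃ (K W : Finset V) (τ : V → V), KW Q k K W τ := by
  classical
  have h1 : Fintype.card V - k ≤ (tS fun j => (sp Q j).card = 1).card := by
    have h2 : (tS fun j => (sp Q j).card = 1).card + (tS fun j => ¬ (sp Q j).card = 1).card =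
        Fintype.card V := by
      rw [tS, tS, Finset.card_filter_add_card_filter_not, Finset.card_univ]
    omega
  obtain ⟨W, hW, hWc⟩ := Finset.exists_subset_card_eq h1
  have hU : ∀ j ∈ W, ∃ i, Q i j ^ 2 = 1 := by
    intro j hj
    have h2 := (mem_tS (fun j => (sp Q j).card = 1) j).1 (hW hj)
    obtain ⟨i, hi⟩ := Finset.card_eq_one.1 h2
    refine ⟨i, ?_⟩
    rw [← hon.sq j, Finset.sum_eq_single_of_mem i (mem_univ _)]
    intro v _ hv
    have : v ∉ sp Q j := by
      rw [hi, mem_singleton]
      exact hv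
    rw [mem_sp, not_not] at this
    rw [this]
    norm_num
  choose! τ hτ using hU
  have hinj : ∀ j ∈ W, ∀ j' ∈ W, τ j = τ j' → j = j' := by
    intro j hj j' hj' he
    by_contra hne
    have h3 := hon j j'
    rw [if_neg hne, Finset.sum_eq_single_of_mem (τ j) (mem_univ _)] at h3
    · have e1 := hτ j hj
      have e2 := hτ j' hj'
      rw [← he] at e2
      have e3 : (Q (τ j) j * Q (τ j) j') ^ 2 = 1 := by rw [mul_pow, e1, e2, one_mul]
      rw [h3] at e3
      norm_num at e3
    · intro v _ hv
      rw [col_zero' hon (hτ j hj) hv, zero_mul]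
  refine ⟨univ \ W.image τ, W, τ, hk, ?_, hWc, hτ, ?_, ?_⟩
  · rw [card_sdiff_of_subset (subset_univ _), card_univ, card_image_of_injOn, hWc]
    · omega
    · intro j hj j' hj' he
      exact hinj j hj j' hj' he
  · intro l hl h
    exact (mem_sdiff.1 h).2 (mem_image_of_mem _ hl)
  · intro x hx
    rw [mem_sdiff, not_and, not_not] at hx
    obtain ⟨l, hl, he⟩ := mem_image.1 (hx (mem_univ _))
    exact ⟨l, hl, he⟩

section
variable {Q : Matrix V V ℝ} {k : ℕ} {K W : Finset V} {τ : V → V}

theorem KW.neg (h : KW Q k K W τ) : KW (-Q) k K W τ :=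
  ⟨h.hk, h.hK, h.hW, fun l hl => by rw [Matrix.neg_apply, neg_sq]; exact h.sq l hl, h.out, h.surj⟩

theorem KW.out_zero (h : KW Q k K W τ)
    (hrow : ∀ u w, ∑ j, Q u j * Q w j = if u = w then 1 else 0) {x : V} (hx : x ∉ K) {j : V}
    (hj : j ∉ W) : Q x j = 0 := by
  obtain ⟨l, hl, rfl⟩ := h.surj x hx
  refine row_zero' hrow (h.sq l hl) ?_
  rintro rfl
  exact hj hl

theorem KW.in_zero (h : KW Q k K W τ) (hon : On Q) {u : V} (hu : u ∈ K) {j : V}
    (hj : j ∈ W) : Q u j = 0 := by
  refine col_zero' hon (h.sq j hj) ?_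
  rintro rfl
  exact h.out j hj hu

theorem sum_K (f : V → ℝ) (hf : ∀ x, x ∉ K → f x = 0) :
    ∑ u : {u // u ∈ K}, f u = ∑ u, f u := by
  rw [Finset.sum_coe_sort K f]
  exact Finset.sum_subset (subset_univ _) fun x _ hx => hf x hx

theorem KW.rw (h : KW Q k K W τ) (hon : On Q)
    (hrow : ∀ u w, ∑ j, Q u j * Q w j = if u = w then 1 else 0) :
    Rw (fun (u : {u // u ∈ K}) (j : V) => Q u j) := by
  refine ⟨?_, ?_, ?_⟩
  · intro r r'
    have := hrow r r'
    rw [this]
    by_cases h : r = r'
    · rw [if_pos h, if_pos (by rw [h])]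
    · rw [if_neg h, if_neg fun h' => h (Subtype.ext h')]
  · intro j j' hne
    rw [sum_K fun u => Q u j * Q u j']
    · rw [hon j j', if_neg hne]
    · intro x hx
      obtain ⟨l, hl, rfl⟩ := h.surj x hx
      by_cases hj : j = l
      · rw [row_zero' hrow (h.sq l hl) (fun h => hne (hj.trans h.symm) : j' ≠ l), mul_zero]
      · rw [row_zero' hrow (h.sq l hl) hj, zero_mul]
  · intro j
    by_cases hj : j ∈ W
    · left
      refine Finset.sum_eq_zero fun u _ => ?_
      rw [h.in_zero hon u.2 hj]
      norm_num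
    · right
      rw [sum_K fun u => Q u j ^ 2]
      · exact hon.sq j
      · intro x hx
        rw [h.out_zero hrow hx hj]
        norm_num

theorem KW.mem_SS (h : KW Q k K W τ) (hon : On Q) :
    SN (fun (u : {u // u ∈ K}) (j : V) => Q u j) ∈ SS {u // u ∈ K} := by
  classical
  have hcW : Fintype.card {u // u ∈ K} = Fintype.card {j // j ∉ W} := by
    rw [Fintype.card_subtype_compl, Fintype.card_coe, Fintype.card_coe, h.hK, h.hW]
    have := h.hk
    omega
  let e := Fintype.equivOfCardEq hcW
  refine GS4.mem_SS _ (fun u => (e u : V)) fun j => ?_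
  by_cases hj : j ∈ W
  · left
    intro u
    exact h.in_zero hon u.2 hj
  · right
    refine ⟨e.symm ⟨j, hj⟩, ?_⟩
    rw [Equiv.apply_symm_apply]

/-- If no row of the block is fractional the matrix is monomial. -/
theorem KW.mono (h : KW Q k K W τ) (hon : On Q)
    (hrow : ∀ u w, ∑ j, Q u j * Q w j = if u = w then 1 else 0)
    (hf : ∀ r : {u // u ∈ K}, ¬ fr (fun (u : {u // u ∈ K}) (j : V) => Q u j) r) (j : V) :
    (sp Q j).card = 1 := by
  classical
  have h1 : ∀ u, ∃ j, Q u j ^ 2 = 1 := by
    intro u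
    by_cases hu : u ∈ K
    · exact (h.rw hon hrow).not_fr (hf ⟨u, hu⟩)
    · obtain ⟨l, hl, rfl⟩ := h.surj u hu
      exact ⟨l, h.sq l hl⟩
  choose π hπ using h1
  have hinj : Function.Injective π := by
    intro u v he
    by_contra hne
    have h2 := col_zero' hon (hπ v) hne
    rw [← he] at h2
    have h3 := hπ u
    rw [h2] at h3
    norm_num at h3
  have hbij := Finite.injective_iff_bijective.1 hinj
  obtain ⟨u, rfl⟩ := hbij.2 j
  rw [card_eq_one]
  refine ⟨u, ?_⟩
  ext v
  rw [mem_sp, mem_singleton]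
  constructor
  · intro h
    by_contra hv
    exact h (col_zero' hon (hπ u) hv)
  · rintro rfl h
    have h3 := hπ v
    rw [h] at h3
    norm_num at h3

end

/-- The reduction when all signs are positive. -/
theorem red_plus {A : Matrix V V F} (hA : IsAlt A) {Q : Matrix V V ℝ} (hon : On Q)
    (hrow : ∀ u w, ∑ j, Q u j * Q w j = if u = w then 1 else 0) (hb : Bin A Q)
    (hd : ∀ j, QF A (fun v => Q v j) (fun v => Q v j) = 0)
    (hnm : ¬ ∀ j, (sp Q j).card = 1) {k : ℕ} {K W : Finset V} {τ : V → V} (h : KW Q k K W τ)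
    (hp : ∀ l ∈ W, Q (τ l) l = 1) :
    (∃ I : Finset V, I.card = 4 ∧ EvI I A) ∨
    (∃ Z ∈ SS {u // u ∈ K}, Z.card * 16 ≤ 7 * 2 ^ k ∧ EvS K Z A) := by
  classical
  let N : {u // u ∈ K} → V → ℝ := fun u j => Q u j
  have hRw : Rw N := h.rw hon hrow
  have hcR : Fintype.card {u // u ∈ K} = k := by rw [Fintype.card_coe, h.hK]
  by_cases hS : 7 * 2 ^ Fintype.card {u // u ∈ K} < (SN N).card * 16
  · rcases trichotomy hRw hS with hf | hg
    · exact absurd (h.mono hon hrow hf) hnm
    · left
      obtain ⟨i, c, hi, hc, h1, h2, h3⟩ := hg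
      have hiV : Function.Injective fun p => (i p : V) := Subtype.val_injective.comp hi
      refine ⟨univ.image fun p => (i p : V), ?_, ?_⟩
      · rw [card_image_of_injective _ hiV, card_univ, Fintype.card_fin]
      have hsumI : ∀ {M : Type} [AddCommMonoid M] (f : V → M),
          ∑ u ∈ univ.image (fun p => (i p : V)), f u = ∑ p, f (i p) := by
        intro M _ f
        exact Finset.sum_image fun p _ q _ e => hiV e
      have hcq : ∀ q v, v ∉ univ.image (fun p => (i p : V)) → Q v (c q) = 0 := by
        intro q v hv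
        have h4 := hon.sq (c q)
        have h5 : ∑ p, Q (i p) (c q) ^ 2 = 1 := by
          have : ∀ p, Q (i p) (c q) ^ 2 = 1 / 4 := by
            intro p
            have h6 : Q (i p) (c q) = if p = q then -1 / 2 else 1 / 2 := h1 p q
            rw [h6]
            split_ifs <;> norm_num
          rw [Finset.sum_congr rfl fun p _ => this p, Finset.sum_const, card_univ,
            Fintype.card_fin]
          norm_num
        rw [← hsumI fun u => Q u (c q) ^ 2] at h5
        have h6 : ∑ u ∈ insert v (univ.image (fun p => (i p : V))), Q u (c q) ^ 2 ≤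
            ∑ u, Q u (c q) ^ 2 :=
          Finset.sum_le_sum_of_subset_of_nonneg (subset_univ _) fun _ _ _ => sq_nonneg _
        rw [Finset.sum_insert hv, h5, h4] at h6
        have h7 : Q v (c q) ^ 2 ≤ 0 := by linarith
        exact pow_eq_zero_iff (two_ne_zero) |>.1 (le_antisymm h7 (sq_nonneg _))
      have hsumc : ∀ q (f : V → ℝ), ∑ v, Q v (c q) * f v =
          (∑ p, f (i p)) / 2 - f (i q) := by
        intro q f
        have e1 : ∑ v, Q v (c q) * f v = ∑ p, Q (i p) (c q) * f (i p) := by
          rw [← hsumI fun v => Q v (c q) * f v]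
          symm
          exact Finset.sum_subset (subset_univ _) fun v _ hv => by rw [hcq q v hv, zero_mul]
        have e2 : ∀ p, Q (i p) (c q) * f (i p) =
            f (i p) / 2 - if p = q then f (i q) else 0 := by
          intro p
          have h6 : Q (i p) (c q) = if p = q then -1 / 2 else 1 / 2 := h1 p q
          rw [h6]
          by_cases hpq : p = q
          · rw [if_pos hpq, if_pos hpq, hpq]; ring
          · rw [if_neg hpq, if_neg hpq]; ring
        rw [e1, Finset.sum_congr rfl fun p _ => e2 p, Finset.sum_sub_distrib,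
          Finset.sum_ite_eq', if_pos (mem_univ _), Finset.sum_div]
      constructor
      · intro x hx
        rw [hsumI fun u => A u x]
        have h4 : ∃ l, Q x l = 1 := by
          by_cases hxK : x ∈ K
          · refine h3 ⟨x, hxK⟩ fun p hp => hx ?_
            rw [mem_image]
            exact ⟨p, mem_univ _, by rw [← hp]⟩
          · obtain ⟨l, hl, rfl⟩ := h.surj x hxK
            exact ⟨l, hp l hl⟩
        obtain ⟨l, hl⟩ := h4
        have h5 := hb (c 0) l
        rw [QF_unit (Un_of_one hon hl), hsumc 0 fun v => re (A v x)] at h5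
        rw [Fin.sum_univ_four] at h5 ⊢
        rcases F_cases (A (i 0) x) with e0 | e0 <;> rcases F_cases (A (i 1) x) with e1 | e1 <;>
          rcases F_cases (A (i 2) x) with e2 | e2 <;> rcases F_cases (A (i 3) x) with e3 | e3 <;>
          simp only [e0, e1, e2, e3, re_zero, re_one] at h5 ⊢ <;>
          first
            | decide
            | (exfalso; rcases h5 with h5 | h5 <;> norm_num at h5)
      · have hdeg : ∀ q, ∑ p, re (A (i p) (i q)) = (∑ p, ∑ p', re (A (i p) (i p'))) / 4 := by
          intro q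
          have h4 := hd (c q)
          have h5 : QF A (fun v => Q v (c q)) (fun v => Q v (c q)) =
              ∑ v, Q v (c q) * ((∑ p, re (A v (i p))) / 2 - re (A v (i q))) := by
            rw [QF]
            refine Finset.sum_congr rfl fun v _ => ?_
            rw [← hsumc q fun w => re (A v w), Finset.mul_sum]
            exact Finset.sum_congr rfl fun w _ => by ring
          rw [h5, hsumc q fun v => (∑ p, re (A v (i p))) / 2 - re (A v (i q)), hA.2, re_zero,
            Finset.sum_sub_distrib, ← Finset.sum_div] at h4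
          have h6 : ∑ p, re (A (i q) (i p)) = ∑ p, re (A (i p) (i q)) := by
            refine Finset.sum_congr rfl fun p _ => ?_
            conv_lhs => rw [← hA.1]
            rfl
          rw [h6] at h4
          linarith
        intro a ha b hb'
        obtain ⟨p, -, rfl⟩ := mem_image.1 ha
        obtain ⟨q, -, rfl⟩ := mem_image.1 hb'
        rw [hsumI fun u => re (A u (i p)), hsumI fun u => re (A u (i q)), hdeg, hdeg]
  · right
    refine ⟨SN N, h.mem_SS hon, ?_, ?_⟩
    · rw [hcR] at hS
      omega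
    · intro x hx
      rw [mem_SN]
      intro j
      obtain ⟨l, hl, rfl⟩ := h.surj x hx
      by_cases hj : j ∈ W
      · left
        rw [val]
        refine Finset.sum_eq_zero fun u _ => ?_
        show Q u j * _ = 0
        rw [h.in_zero hon u.2 hj, zero_mul]
      · have h1 := hb j l
        rw [QF_unit (Un_of_one hon (hp l hl))] at h1
        have h2 : val N (fun u : {u // u ∈ K} => A u (τ l)) j = ∑ v, Q v j * re (A v (τ l)) :=
          sum_K (fun v => Q v j * re (A v (τ l))) fun x hx => by
            rw [h.out_zero hrow hx hj, zero_mul]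
        rw [h2]
        exact h1

end GS4
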