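import Pool.Agent.helper97.GS4.Cube

/-!
# Orthonormal rows which map many binary vectors to binary vectors
-/

set_option autoImplicit false
set_option linter.unusedSectionVars false

namespace GS4

open Finset DS DQ

variable {R J : Type*} [Fintype R] [DecidableEq R] [Fintype J] [DecidableEq J]

/-- The value is binary. -/
def Bz (x : ℝ) : Prop := x = 0 ∨ x = 1

/-- Orthonormal rows whose columns are orthogonal, of norm zero or one. -/
structure Rw (N : R → J → ℝ) : Prop where
  row : ∀ r r', ∑ j, N r j * N r' j = if r = r' then 1 else 0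
  col : ∀ j j', j ≠ j' → ∑ r, N r j * N r j' = 0
  nrm : ∀ j, ∑ r, N r j ^ 2 = 0 ∨ ∑ r, N r j ^ 2 = 1

/-- The value at a binary vector. -/
noncomputable def val (N : R → J → ℝ) (a : R → F) (j : J) : ℝ := ∑ r, N r j * re (a r)

/-- The binary vectors whose image is binary. -/
noncomputable def SN (N : R → J → ℝ) : Finset (R → F) := tS fun a => ∀ j, Bz (val N a j)

theorem mem_SN (N : R → J → ℝ) (a : R → F) : a ∈ SN N ↔ ∀ j, Bz (val N a j) := by
  rw [SN, mem_tS]

/-- The sign of a flip. -/
noncomputable def sg (x : F) : ℝ := 1 - 2 * re x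

theorem sg_cases (x : F) : sg x = 1 ∨ sg x = -1 := by
  rcases F_cases x with rfl | rfl
  · left; rw [sg, re_zero]; norm_num
  · right; rw [sg, re_one]; norm_num

theorem sg_add_one (x : F) : sg (x + 1) = - sg x := by
  rcases F_cases x with rfl | rfl
  · rw [zero_add, sg, sg, re_zero, re_one]; norm_num
  · rw [F_add_self, sg, sg, re_zero, re_one]; norm_num

theorem re_add_one (x : F) : re (x + 1) = re x + sg x := by
  rcases F_cases x with rfl | rfl
  · rw [zero_add, sg, re_zero, re_one]; norm_num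
  · rw [F_add_self, sg, re_zero, re_one]; norm_num

theorem bs_same (w : R → F) (r : R) : (w + bs r true) r = w r + 1 := by
  rw [bs_true, Pi.add_apply, Pi.single_eq_same]

theorem bs_other (w : R → F) {r r' : R} (h : r' ≠ r) : (w + bs r true) r' = w r' := by
  rw [bs_true, Pi.add_apply, Pi.single_eq_of_ne h, add_zero]

theorem val_bs (N : R → J → ℝ) (w : R → F) (r : R) (j : J) :
    val N (w + bs r true) j = val N w j + sg (w r) * N r j := by
  have h : ∀ r', N r' j * re ((w + bs r true) r') =
      N r' j * re (w r') + if r' = r then sg (w r) * N r j else 0 := by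
    intro r'
    by_cases hr : r' = r
    · subst hr
      rw [if_pos rfl, bs_same, re_add_one]
      ring
    · rw [if_neg hr, bs_other w hr, add_zero]
  rw [val, Finset.sum_congr rfl fun r' _ => h r', Finset.sum_add_distrib,
    Finset.sum_ite_eq', if_pos (mem_univ _), val]

theorem Bz.sub {x y : ℝ} (hx : Bz x) (hy : Bz y) : Tri (x - y) := by
  rcases hx with rfl | rfl <;> rcases hy with rfl | rfl <;> norm_num [Tri]

theorem tri_sq {x : ℝ} (h : Tri x) : x ^ 2 = 0 ∨ x ^ 2 = 1 := by
  rcases h with rfl | rfl | rfl <;> norm_num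

/-- A fractional row. -/
def fr (N : R → J → ℝ) (r : R) : Prop := ∀ j, N r j ^ 2 < 1

section
variable {N : R → J → ℝ}

theorem Rw.rowsq (h : Rw N) (r : R) : ∑ j, N r j ^ 2 = 1 := by
  have := h.row r r
  rw [if_pos rfl] at this
  rw [← this]
  exact Finset.sum_congr rfl fun j _ => sq (N r j)

theorem Rw.exists_ne (h : Rw N) (r : R) : ∃ j, N r j ≠ 0 := by
  by_contra hc
  push Not at hc
  have := h.rowsq r
  rw [Finset.sum_eq_zero fun j _ => by rw [hc j]; norm_num] at this
  exact zero_ne_one this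

theorem Rw.le_one (h : Rw N) (r : R) (j : J) : N r j ^ 2 ≤ 1 := by
  rw [← h.rowsq r]
  exact Finset.single_le_sum (f := fun j => N r j ^ 2) (fun j _ => sq_nonneg _) (mem_univ j)

theorem Rw.colsum_le (h : Rw N) (j : J) : ∑ r, N r j ^ 2 ≤ 1 := by
  rcases h.nrm j with h | h <;> rw [h]
  norm_num

/-- The other entries vanish in the column of a unit entry. -/
theorem Rw.col_zero (h : Rw N) {r : R} {j : J} (hr : N r j ^ 2 = 1) {r' : R} (hne : r' ≠ r) :
    N r' j = 0 := by
  have h1 := h.colsum_le j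
  have h2 : N r j ^ 2 + N r' j ^ 2 ≤ ∑ r, N r j ^ 2 := by
    rw [← Finset.sum_pair (f := fun r => N r j ^ 2) hne.symm]
    exact Finset.sum_le_sum_of_subset_of_nonneg (subset_univ _) fun _ _ _ => sq_nonneg _
  have h3 : N r' j ^ 2 ≤ 0 := by linarith
  exact pow_eq_zero_iff (two_ne_zero) |>.1 (le_antisymm h3 (sq_nonneg _))

/-- The other entries vanish in the row of a unit entry. -/
theorem Rw.row_zero (h : Rw N) {r : R} {j : J} (hr : N r j ^ 2 = 1) {j' : J} (hne : j' ≠ j) :
    N r j' = 0 := by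
  have h1 := h.rowsq r
  have h2 : N r j ^ 2 + N r j' ^ 2 ≤ ∑ j, N r j ^ 2 := by
    rw [← Finset.sum_pair (f := fun j => N r j ^ 2) hne.symm]
    exact Finset.sum_le_sum_of_subset_of_nonneg (subset_univ _) fun _ _ _ => sq_nonneg _
  have h3 : N r j' ^ 2 ≤ 0 := by linarith
  exact pow_eq_zero_iff (two_ne_zero) |>.1 (le_antisymm h3 (sq_nonneg _))

theorem Rw.not_fr (h : Rw N) {r : R} (hr : ¬ fr N r) : ∃ j, N r j ^ 2 = 1 := by
  unfold fr at hr
  push Not at hr
  obtain ⟨j, hj⟩ := hr
  exact ⟨j, le_antisymm (h.le_one r j) hj⟩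

/-- The entries of a row which is not fractional have square zero or one. -/
theorem Rw.not_fr_sq (h : Rw N) {r : R} (hr : ¬ fr N r) (j : J) : N r j = 0 ∨ N r j ^ 2 = 1 := by
  obtain ⟨j₀, h0⟩ := h.not_fr hr
  by_cases hj : j = j₀
  · subst hj; exact Or.inr h0
  · exact Or.inl (h.row_zero h0 hj)

theorem one (h : Rw N) {r : R} (hr : fr N r) : ∀ w ∈ SN N, w + bs r true ∉ SN N := by
  intro w hw hw'
  rw [mem_SN] at hw hw'
  obtain ⟨j, hj⟩ := h.exists_ne r
  have h1 := (hw' j).sub (hw j)
  rw [val_bs, add_sub_cancel_left] at h1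
  have h2 := tri_sq h1
  have h3 : (sg (w r) * N r j) ^ 2 = N r j ^ 2 := by
    rcases sg_cases (w r) with e | e <;> rw [e] <;> ring
  rw [h3] at h2
  rcases h2 with h2 | h2
  · exact hj (pow_eq_zero_iff (two_ne_zero) |>.1 h2)
  · exact absurd h2 (hr j).ne

theorem two {a b : R} (hab : a ≠ b) {w : R → F} (h1 : w ∈ SN N)
    (h2 : w + bs a true + bs b true ∈ SN N) (j : J) :
    Tri (sg (w a) * N a j + sg (w b) * N b j) := by
  rw [mem_SN] at h1 h2
  have h3 := (h2 j).sub (h1 j)
  rw [val_bs, val_bs, bs_other w hab.symm] at h3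
  have : val N w j + sg (w a) * N a j + sg (w b) * N b j - val N w j =
      sg (w a) * N a j + sg (w b) * N b j := by ring
  rwa [this] at h3

theorem tri_pair {x y : ℝ} (hx : x ^ 2 < 1) (hy : y ^ 2 < 1) (h1 : Tri (x + y))
    (h2 : Tri (-x + y)) : (x = 0 ∧ y = 0) ∨ (x ^ 2 = 1 / 4 ∧ y ^ 2 = 1 / 4) := by
  rcases h1 with h1 | h1 | h1 <;> rcases h2 with h2 | h2 | h2
  · exfalso
    have e : y = -1 := by linarith
    rw [e] at hy; norm_num at hy
  · right
    have e1 : y = -1 / 2 := by linarith
    have e2 : x = -1 / 2 := by linarith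
    rw [e1, e2]; norm_num
  · exfalso
    have e : x = -1 := by linarith
    rw [e] at hx; norm_num at hx
  · right
    have e1 : y = -1 / 2 := by linarith
    have e2 : x = 1 / 2 := by linarith
    rw [e1, e2]; norm_num
  · left
    exact ⟨by linarith, by linarith⟩
  · right
    have e1 : y = 1 / 2 := by linarith
    have e2 : x = -1 / 2 := by linarith
    rw [e1, e2]; norm_num
  · exfalso
    have e : x = 1 := by linarith
    rw [e] at hx; norm_num at hx
  · right
    have e1 : y = 1 / 2 := by linarith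
    have e2 : x = 1 / 2 := by linarith
    rw [e1, e2]; norm_num
  · exfalso
    have e : y = 1 := by linarith
    rw [e] at hy; norm_num at hy

/-- Three fractional rows. -/
theorem three (h : Rw N) (hS : 7 * 2 ^ Fintype.card R < (SN N).card * 16) {a b c : R}
    (ha : fr N a) (hb : fr N b) (hc : fr N c) (hab : a ≠ b) (hac : a ≠ c) (hbc : b ≠ c) (j : J) :
    (N a j = 0 ∧ N b j = 0) ∨ (N a j ^ 2 = 1 / 4 ∧ N b j ^ 2 = 1 / 4) := by
  obtain ⟨w, h1, h2, h3, h4⟩ := cube_three (SN N) hS a b c (one h ha) (one h hb) (one h hc)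
  have t1 := two hab h1 h2 j
  have e : w + bs a true + bs c true + bs a true + bs b true = w + bs b true + bs c true := by
    have : w + bs a true + bs c true + bs a true + bs b true =
      w + bs b true + bs c true + (bs a true + bs a true) := by abel
    rw [this, bs_add, add_zero]
  have t2 := two hab h3 (e ▸ h4) j
  rw [bs_other _ hac, bs_same, bs_other _ hbc, bs_other _ hab.symm, sg_add_one] at t2
  have sx : (sg (w a) * N a j) ^ 2 = N a j ^ 2 := by
    rcases sg_cases (w a) with e | e <;> rw [e] <;> ring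
  have sy : (sg (w b) * N b j) ^ 2 = N b j ^ 2 := by
    rcases sg_cases (w b) with e | e <;> rw [e] <;> ring
  rw [neg_mul] at t2
  rcases tri_pair (sx ▸ ha j) (sy ▸ hb j) t1 t2 with ⟨u1, u2⟩ | ⟨u1, u2⟩
  · left
    have za : N a j = 0 := by
      rw [u1] at sx
      exact pow_eq_zero_iff (two_ne_zero) |>.1 (by rw [← sx]; norm_num)
    have zb : N b j = 0 := by
      rw [u2] at sy
      exact pow_eq_zero_iff (two_ne_zero) |>.1 (by rw [← sy]; norm_num)
    exact ⟨za, zb⟩
  · right
    exact ⟨sx ▸ u1, sy ▸ u2⟩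

end

end GS4
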