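import Pool.Agent.helper97.GS4.Tri

/-!
# The trichotomy
-/

set_option autoImplicit false
set_option linter.unusedSectionVars false

namespace GS4

open Finset DS DQ

variable {R J : Type*} [Fintype R] [DecidableEq R] [Fintype J] [DecidableEq J]
variable {N : R → J → ℝ}

theorem nf_zero (h : Rw N) {a r : R} {j : J} (ha : N a j ≠ 0) (hfa : fr N a) (hr : ¬ fr N r) :
    N r j = 0 := by
  rcases h.not_fr_sq hr j with h1 | h1
  · exact h1
  · exfalso
    have hne : a ≠ r := by
      rintro rfl
      exact hr hfa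
    exact ha (h.col_zero h1 hne)

theorem exists_second (h : Rw N) {a : R} (ha : fr N a) : ∃ b, a ≠ b ∧ fr N b := by
  obtain ⟨j, hj⟩ := h.exists_ne a
  by_contra hc
  push Not at hc
  have h0 : ∑ r, N r j ^ 2 = N a j ^ 2 := by
    rw [Finset.sum_eq_single_of_mem a (mem_univ _)]
    intro r _ hr
    rw [nf_zero h hj ha (hc r hr.symm)]
    norm_num
  have hpos : 0 < N a j ^ 2 := by positivity
  have hlt := ha j
  rcases h.nrm j with h1 | h1 <;> rw [h0] at h1 <;> linarith

theorem exists_third (h : Rw N) (hS : 7 * 2 ^ Fintype.card R < (SN N).card * 16) {a b : R}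
    (ha : fr N a) (hb : fr N b) (hab : a ≠ b) : ∃ c, a ≠ c ∧ b ≠ c ∧ fr N c := by
  by_contra hc
  push Not at hc
  obtain ⟨w, h1, h2⟩ := cube_two (SN N) hS a b (one h ha) (one h hb)
  have t := two hab h1 h2
  obtain ⟨j₀, hj₀⟩ := h.exists_ne a
  have key : ∀ j, (N a j = 0 ∧ sg (w a) * sg (w b) * (N a j * N b j) = 0) ∨
      sg (w a) * sg (w b) * (N a j * N b j) = - 1 / 2 := by
    intro j
    by_cases hj : N a j = 0
    · left
      rw [hj]
      exact ⟨rfl, by ring⟩
    · right
      have h0 : ∑ r, N r j ^ 2 = N a j ^ 2 + N b j ^ 2 := by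
        rw [← Finset.sum_pair (f := fun r => N r j ^ 2) hab]
        symm
        refine Finset.sum_subset (subset_univ _) fun r _ hr => ?_
        rw [mem_insert, mem_singleton, not_or] at hr
        rw [nf_zero h hj ha (hc r (Ne.symm hr.1) (Ne.symm hr.2))]
        norm_num
      have hpos : 0 < N a j ^ 2 := by positivity
      have h3 : N a j ^ 2 + N b j ^ 2 = 1 := by
        rcases h.nrm j with h1 | h1
        · rw [h0] at h1
          have := sq_nonneg (N b j)
          linarith
        · rw [← h0, h1]
      have h4 : (sg (w a) * N a j + sg (w b) * N b j) ^ 2 =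
          N a j ^ 2 + N b j ^ 2 + 2 * (sg (w a) * sg (w b) * (N a j * N b j)) := by
        rcases sg_cases (w a) with e | e <;> rcases sg_cases (w b) with e' | e' <;>
          rw [e, e'] <;> ring
      rcases tri_sq (t j) with h5 | h5
      · rw [h4, h3] at h5
        linarith
      · exfalso
        rw [h4, h3] at h5
        have h6 : sg (w a) * sg (w b) * (N a j * N b j) = 0 := by linarith
        have h7 : N a j * N b j = 0 := by
          rcases sg_cases (w a) with e | e <;> rcases sg_cases (w b) with e' | e' <;>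
            rw [e, e'] at h6 <;> linarith
        rcases mul_eq_zero.1 h7 with h8 | h8
        · exact hj h8
        · rw [h8] at h3
          have := ha j
          linarith
  have hle : ∀ j, sg (w a) * sg (w b) * (N a j * N b j) ≤ 0 := by
    intro j
    rcases key j with h3 | h3
    · exact h3.2.le
    · rw [h3]; norm_num
  have hlt : sg (w a) * sg (w b) * (N a j₀ * N b j₀) < 0 := by
    rcases key j₀ with h3 | h3
    · exact absurd h3.1 hj₀
    · rw [h3]; norm_num
  have hsum : ∑ j, sg (w a) * sg (w b) * (N a j * N b j) < 0 := by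
    have := Finset.sum_lt_sum (s := univ) (f := fun j => sg (w a) * sg (w b) * (N a j * N b j))
      (g := fun _ => (0 : ℝ)) (fun j _ => hle j) ⟨j₀, mem_univ _, hlt⟩
    rwa [Finset.sum_const_zero] at this
  rw [← Finset.mul_sum, h.row a b, if_neg hab, mul_zero] at hsum
  exact lt_irrefl _ hsum

/-- The Godsil-McKay type. -/
def GMt (N : R → J → ℝ) : Prop :=
  ∃ (i : Fin 4 → R) (c : Fin 4 → J), Function.Injective i ∧ Function.Injective c ∧
    (∀ p q, N (i p) (c q) = if p = q then -1 / 2 else 1 / 2) ∧
    (∀ p j, (∀ q, j ≠ c q) → N (i p) j = 0) ∧ (∀ r, (∀ p, r ≠ i p) → ∃ j, N r j = 1)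

theorem unit_pos (h : Rw N) (hS : 7 * 2 ^ Fintype.card R < (SN N).card * 16) {a b r : R}
    (ha : fr N a) (hb : fr N b) (hr : ¬ fr N r) : ∃ j, N r j = 1 := by
  obtain ⟨j, hj⟩ := h.not_fr hr
  have hj' : N r j = 1 ∨ N r j = -1 := by
    have h6 : (N r j - 1) * (N r j + 1) = 0 := by linear_combination hj
    rcases mul_eq_zero.1 h6 with h7 | h7
    · left; linarith
    · right; linarith
  rcases hj' with h1 | h1
  · exact ⟨j, h1⟩
  exfalso
  have hra : r ≠ a := by rintro rfl; exact hr ha
  have hz : ∀ w ∈ SN N, w r = 0 := by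
    intro w hw
    rw [mem_SN] at hw
    have h2 : val N w j = - re (w r) := by
      rw [val, Finset.sum_eq_single_of_mem r (mem_univ _), h1, neg_one_mul]
      intro r' _ hne
      rw [h.col_zero hj hne, zero_mul]
    have h3 := hw j
    rw [h2] at h3
    rcases F_cases (w r) with e | e
    · exact e
    · exfalso
      rw [e, re_one] at h3
      rcases h3 with h3 | h3 <;> norm_num at h3
  obtain ⟨w, k1, k2, -, -⟩ := cube_three (SN N) hS r a b (fun w hw hw' => by
    have := hz _ hw'
    rw [bs_same, hz w hw, zero_add] at this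
    exact one_ne_zero this) (one h ha) (one h hb)
  have := hz _ k2
  rw [bs_other _ hra, bs_same, hz w k1, zero_add] at this
  exact one_ne_zero this

/-- Sums over the four fractional rows. -/
theorem sum_four {i : Fin 4 → R} (hi : Function.Injective i) (f : R → ℝ)
    (hf : ∀ r, (∀ p, r ≠ i p) → f r = 0) : ∑ r, f r = ∑ p, f (i p) := by
  rw [← Finset.sum_image (s := univ) (g := i) (f := f) fun p _ q _ e => hi e]
  symm
  refine Finset.sum_subset (subset_univ _) fun r _ hr => hf r fun p hp => hr ?_
  rw [hp]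
  exact mem_image_of_mem i (mem_univ p)

/-- The signs of one column. -/
theorem one_minus (hS : 7 * 2 ^ Fintype.card R < (SN N).card * 16) {i : Fin 4 → R}
    (hi : Function.Injective i) {j : J} (h4 : ∀ p, N (i p) j = 1 / 2 ∨ N (i p) j = - 1 / 2)
    (h0 : ∀ r, (∀ p, r ≠ i p) → N r j = 0) : ∃ m, ∀ p, N (i p) j = - 1 / 2 ↔ p = m := by
  classical
  let e : Fin 4 → Bool := fun p => decide (N (i p) j = 1 / 2)
  have he : ∀ p, N (i p) j * 2 = ((if e p then (1 : ℤ) else -1 : ℤ) : ℝ) := by
    intro p
    rcases h4 p with h5 | h5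
    · have : e p = true := decide_eq_true h5
      rw [this, h5]; norm_num
    · have : e p = false := decide_eq_false (by rw [h5]; norm_num)
      rw [this, h5]; norm_num
  have hm : ∃ m, ∀ p, e p = false ↔ p = m := by
    refine sgn4 e ?_
    by_contra hlt
    push Not at hlt
    have h := tav (SN N) (fun v : Fin 4 → Bool => ∑ p, bs (i p) (v p)) 7 ?_
    · have : Fintype.card (Fin 4 → Bool) = 16 := by decide
      rw [this] at h
      omega
    intro w
    have hw : ∀ (v : Fin 4 → Bool) (p : Fin 4), (w + ∑ p, bs (i p) (v p)) (i p) =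
        w (i p) + if v p then 1 else 0 := by
      intro v p
      rw [Pi.add_apply, Finset.sum_apply, Finset.sum_eq_single_of_mem p (mem_univ _)]
      · cases v p
        · rfl
        · rw [bs_true, Pi.single_eq_same]; rfl
      · intro q _ hq
        cases v q
        · rfl
        · rw [bs_true, Pi.single_eq_of_ne fun h => hq (hi h).symm]
    refine le_trans (ct_inj _ (univ.filter fun v : Fin 4 → Bool =>
      (∑ p, if v p then (if e p then (1 : ℤ) else -1) else 0) = 0 ∨
      (∑ p, if v p then (if e p then (1 : ℤ) else -1) else 0) = 2)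
      (fun v p => decide ((w + ∑ p, bs (i p) (v p)) (i p) = 1)) ?_ ?_) (by omega)
    · intro v v' _ _ hv
      funext p
      have h5 := congrFun hv p
      simp only [hw] at h5
      rcases F_cases (w (i p)) with e0 | e0 <;> rw [e0] at h5 <;>
        cases hvp : v p <;> cases hvp' : v' p <;> rw [hvp, hvp'] at h5 <;> revert h5 <;> decide
    · intro v hv
      rw [mem_filter]
      refine ⟨mem_univ _, ?_⟩
      rw [mem_SN] at hv
      have h6 := hv j
      have h7 : ((∑ p, if decide ((w + ∑ p, bs (i p) (v p)) (i p) = 1) then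
          (if e p then (1 : ℤ) else -1) else 0 : ℤ) : ℝ) =
          2 * val N (w + ∑ p, bs (i p) (v p)) j := by
        rw [val, sum_four hi _ fun r hr => by rw [h0 r hr, zero_mul], Finset.mul_sum, Int.cast_sum]
        refine Finset.sum_congr rfl fun p _ => ?_
        rcases F_cases ((w + ∑ p, bs (i p) (v p)) (i p)) with e0 | e0
        · rw [e0, re_zero]
          simp
        · rw [e0, re_one, mul_one, mul_comm, he p]
          simp
      rcases h6 with h6 | h6
      · left
        rw [h6, mul_zero] at h7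
        exact_mod_cast h7
      · right
        rw [h6, mul_one] at h7
        exact_mod_cast h7
  obtain ⟨m, hm⟩ := hm
  refine ⟨m, fun p => ?_⟩
  rw [← hm p]
  constructor
  · intro h5
    exact decide_eq_false (by rw [h5]; norm_num)
  · intro h5
    rcases h4 p with h6 | h6
    · exact absurd h6 (of_decide_eq_false h5)
    · exact h6

theorem trichotomy (h : Rw N) (hS : 7 * 2 ^ Fintype.card R < (SN N).card * 16) :
    (∀ r, ¬ fr N r) ∨ GMt N := by
  classical
  by_cases hf : ∀ r, ¬ fr N r
  · exact Or.inl hf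
  right
  push Not at hf
  obtain ⟨a, ha⟩ := hf
  obtain ⟨b, hab, hb⟩ := exists_second h ha
  obtain ⟨c, hac, hbc, hc⟩ := exists_third h hS ha hb hab
  have hsq : ∀ r, fr N r → ∀ j, (N a j = 0 ∧ N r j = 0) ∨ (N a j ^ 2 = 1 / 4 ∧ N r j ^ 2 = 1 / 4) := by
    intro r hr j
    by_cases har : a = r
    · subst har
      rcases three h hS ha hb hc hab hac hbc j with h1 | h1
      · exact Or.inl ⟨h1.1, h1.1⟩
      · exact Or.inr ⟨h1.1, h1.1⟩
    · by_cases hbr : b = r
      · subst hbr
        exact three h hS ha hb hc hab hac hbc j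
      · exact three h hS ha hr hb har hab (Ne.symm hbr) j
  set C := univ.filter fun j => N a j ≠ 0 with hCdef
  set Fs := univ.filter fun r => fr N r with hFdef
  have hC0 : ∀ r, fr N r → ∀ j, j ∉ C → N r j = 0 := by
    intro r hr j hj
    rw [hCdef, mem_filter, not_and, not_not] at hj
    have hj := hj (mem_univ _)
    rcases hsq r hr j with h1 | h1
    · exact h1.2
    · exfalso
      rw [hj] at h1
      norm_num at h1
  have hC1 : ∀ r, fr N r → ∀ j, j ∈ C → N r j ^ 2 = 1 / 4 := by
    intro r hr j hj
    rw [hCdef, mem_filter] at hj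
    rcases hsq r hr j with h1 | h1
    · exact absurd h1.1 hj.2
    · exact h1.2
  have hCcard : C.card = 4 := by
    have h1 := h.rowsq a
    have h2 : ∑ j, N a j ^ 2 = ∑ j ∈ C, (1 / 4 : ℝ) := by
      rw [← Finset.sum_subset (subset_univ C) fun j _ hj => by rw [hC0 a ha j hj]; norm_num]
      exact Finset.sum_congr rfl fun j hj => hC1 a ha j hj
    rw [h2, Finset.sum_const, nsmul_eq_mul] at h1
    have h3 : (C.card : ℝ) = 4 := by linarith
    exact_mod_cast h3
  have hFcard : Fs.card = 4 := by
    obtain ⟨j, hj⟩ := h.exists_ne a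
    have hjC : j ∈ C := by rw [hCdef, mem_filter]; exact ⟨mem_univ _, hj⟩
    have h2 : ∑ r, N r j ^ 2 = ∑ r ∈ Fs, (1 / 4 : ℝ) := by
      rw [← Finset.sum_subset (subset_univ Fs) fun r _ hr => ?_]
      · exact Finset.sum_congr rfl fun r hr => hC1 r (mem_filter.1 hr).2 j hjC
      · rw [hFdef, mem_filter, not_and] at hr
        rw [nf_zero h hj ha (hr (mem_univ _))]
        norm_num
    rw [Finset.sum_const, nsmul_eq_mul] at h2
    have haF : a ∈ Fs := by rw [hFdef, mem_filter]; exact ⟨mem_univ _, ha⟩
    have hpos : 0 < (Fs.card : ℝ) := by exact_mod_cast Finset.card_pos.2 ⟨a, haF⟩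
    rcases h.nrm j with h1 | h1
    · rw [h2] at h1
      linarith
    · rw [h2] at h1
      have h3 : (Fs.card : ℝ) = 4 := by linarith
      exact_mod_cast h3
  let ei := (Finset.equivFinOfCardEq hFcard).symm
  let ec := (Finset.equivFinOfCardEq hCcard).symm
  have hi : Function.Injective fun p => (ei p : R) := Subtype.val_injective.comp ei.injective
  have hcI : Function.Injective fun p => (ec p : J) := Subtype.val_injective.comp ec.injective
  have hif : ∀ p, fr N (ei p) := fun p => (mem_filter.1 (ei p).2).2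
  have hcm : ∀ p, (ec p : J) ∈ C := fun p => (ec p).2
  have hir : ∀ r : R, (∀ p, r ≠ (ei p : R)) → ¬ fr N r := by
    intro r hr hfr
    have hrF : r ∈ Fs := by rw [hFdef, mem_filter]; exact ⟨mem_univ _, hfr⟩
    refine hr (ei.symm ⟨r, hrF⟩) ?_
    rw [Equiv.apply_symm_apply]
  have hneC : ∀ q, N a (ec q) ≠ 0 := fun q => (mem_filter.1 (hcm q)).2
  have h0 : ∀ q, ∀ r : R, (∀ p, r ≠ (ei p : R)) → N r (ec q) = 0 := fun q r hr =>
    nf_zero h (hneC q) ha (hir r hr)
  have h4 : ∀ q p, N (ei p) (ec q) = 1 / 2 ∨ N (ei p) (ec q) = - 1 / 2 := by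
    intro q p
    have h5 := hC1 _ (hif p) _ (hcm q)
    have h6 : (N (ei p) (ec q) - 1 / 2) * (N (ei p) (ec q) + 1 / 2) = 0 := by
      linear_combination h5
    rcases mul_eq_zero.1 h6 with h7 | h7
    · left; linarith
    · right; linarith
  have hm : ∀ q, ∃ m, ∀ p, N (ei p) (ec q) = - 1 / 2 ↔ p = m := fun q =>
    one_minus hS hi (h4 q) (h0 q)
  choose m hm using hm
  have hmi : Function.Injective m := by
    intro q q' hqq
    by_contra hne
    have h5 := h.col (ec q) (ec q') fun he => hne (hcI he)
    rw [sum_four hi _ fun r hr => by rw [h0 q r hr, zero_mul]] at h5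
    have h6 : ∀ p, N (ei p) (ec q) * N (ei p) (ec q') = 1 / 4 := by
      intro p
      by_cases hp : p = m q
      · rw [(hm q p).2 hp, (hm q' p).2 (hqq ▸ hp)]; norm_num
      · have e1 : N (ei p) (ec q) = 1 / 2 := (h4 q p).resolve_right fun h => hp ((hm q p).1 h)
        have e2 : N (ei p) (ec q') = 1 / 2 :=
          (h4 q' p).resolve_right fun h => hp (hqq ▸ (hm q' p).1 h)
        rw [e1, e2]; norm_num
    rw [Finset.sum_congr rfl fun p _ => h6 p, Finset.sum_const, card_univ, Fintype.card_fin,
      nsmul_eq_mul] at h5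
    norm_num at h5
  have hmb : Function.Bijective m := Finite.injective_iff_bijective.1 hmi
  let em := Equiv.ofBijective m hmb
  have hem : ∀ q, m (em.symm q) = q := fun q => Equiv.ofBijective_apply_symm_apply m hmb q
  refine ⟨fun p => ei p, fun q => ec (em.symm q), hi, hcI.comp em.symm.injective, ?_, ?_, ?_⟩
  · intro p q
    by_cases hpq : p = q
    · rw [if_pos hpq]
      exact (hm _ _).2 (by rw [hem, hpq])
    · rw [if_neg hpq]
      refine (h4 _ _).resolve_right fun h5 => hpq ?_
      rw [(hm _ _).1 h5, hem]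
  · intro p j hj
    refine hC0 _ (hif p) j fun hjC => hj (em (ec.symm ⟨j, hjC⟩)) ?_
    show j = ec (em.symm (em (ec.symm ⟨j, hjC⟩)))
    rw [Equiv.symm_apply_apply, Equiv.apply_symm_apply]
  · intro r hr
    exact unit_pos h hS ha hb (hir r hr)

end GS4
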